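import Pool.Agent.Lib.MP_a5a771_al.Idl

/-!
# The commutative algebra `A = U / I` and its actions

PROOFS. `exists_quo`: `Com F U` is a two-sided ideal (`com_mul_left`, `com_mul_right`); `A` = the quotient of `U` (`TwoSidedIdeal` / `RingCon` quotient, or
`Ideal` with `IsTwoSided`), commutative because `x y - y x ∈ Com F U`. `exists_act`: left multiplication by `u` maps `I` into `I` and
`I ω` into `I ω`, so `U → End (I / I ω)` is an algebra homomorphism; it kills `I` because `I * I ≤ I * Aug ε` (`com_le_aug`); it factors through the surjection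
`p` (choose preimages; or `AlgHom.liftOfSurjective`, `Function.Surjective`). `exists_lft`: the same with `I / I²`. `exists_rgt`: right multiplication by `u` on
`I / I²` kills `I`; it is multiplicative in the wrong order, but `p u p u' = p u' p u`.
-/

set_option autoImplicit false

namespace EL

universe u w

/-- The commutator ideal as a left ideal. -/
private def ActI (F : Type u) (U : Type w) [Field F] [Ring U] [Algebra F U] : Ideal U where
  carrier := Com F U
  add_mem' := fun h1 h2 => (Com F U).add_mem h1 h2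
  zero_mem' := (Com F U).zero_mem
  smul_mem' := fun c _ h => com_mul_left c _ h

private theorem ActI_two (F : Type u) (U : Type w) [Field F] [Ring U] [Algebra F U] :
    (ActI F U).IsTwoSided := ⟨fun b h => com_mul_right b _ h⟩

theorem exists_quo (F : Type u) (U : Type w) [Field F] [Ring U] [Algebra F U] :
    ∃ (A : Type w) (_ : CommRing A) (_ : Algebra F A) (p : U →ₐ[F] A), Function.Surjective p ∧ ∀ u, p u = 0 ↔ u ∈ Com F U := by
  have h2 : (ActI F U).IsTwoSided := ActI_two F U
  have hcomm : ∀ a b : U ⧸ ActI F U, a * b = b * a := by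
    intro a b
    obtain ⟨x, rfl⟩ := Ideal.Quotient.mk_surjective a
    obtain ⟨y, rfl⟩ := Ideal.Quotient.mk_surjective b
    rw [← map_mul, ← map_mul, Ideal.Quotient.mk_eq_mk_iff_sub_mem]
    exact Submodule.subset_span ⟨1, x, y, 1, by rw [one_mul, mul_one]⟩
  let iC : CommRing (U ⧸ ActI F U) :=
    { (Ideal.Quotient.ring (ActI F U) : Ring (U ⧸ ActI F U)) with mul_comm := hcomm }
  refine ⟨U ⧸ ActI F U, iC, (Ideal.Quotient.algebra F : Algebra F (U ⧸ ActI F U)),
    Ideal.Quotient.mkₐ F (ActI F U), Ideal.Quotient.mkₐ_surjective F _, fun u => ?_⟩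
  exact Ideal.Quotient.eq_zero_iff_mem

variable {F U A : Type*} [Field F] [Ring U] [Algebra F U] [CommRing A] [Algebra F A]

/-- Factorization through a surjection. -/
private theorem Act_fac {E : Type*} [Ring E] [Algebra F E] (p : U →ₐ[F] A)
    (hp : Function.Surjective p) (Ψ : U →ₗ[F] E) (h1 : Ψ 1 = 1)
    (hmul : ∀ u u' : U, ∃ v, p v = p (u * u') ∧ Ψ v = Ψ u * Ψ u')
    (hk : ∀ u, p u = 0 → Ψ u = 0) : ∃ φ : A →ₐ[F] E, ∀ u, φ (p u) = Ψ u := by
  have hs : ∀ a, p (Function.surjInv hp a) = a := Function.surjInv_eq hp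
  have hw : ∀ u v, p u = p v → Ψ u = Ψ v := fun u v h => by
    rw [← sub_eq_zero, ← map_sub]
    exact hk _ (by rw [map_sub, h, sub_self])
  let φ : A →ₗ[F] E :=
    { toFun := fun a => Ψ (Function.surjInv hp a)
      map_add' := fun a b => by
        rw [← map_add]
        exact hw _ _ (by rw [map_add, hs, hs, hs])
      map_smul' := fun r a => by
        rw [RingHom.id_apply, ← map_smul]
        exact hw _ _ (by rw [map_smul, hs, hs]) }
  refine ⟨AlgHom.ofLinearMap φ ?_ ?_, fun u => hw _ _ (hs _)⟩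
  · show Ψ (Function.surjInv hp 1) = 1
    rw [← h1]
    exact hw _ _ (by rw [hs, map_one])
  · intro a b
    show Ψ (Function.surjInv hp (a * b)) = Ψ (Function.surjInv hp a) * Ψ (Function.surjInv hp b)
    obtain ⟨v, hv, hv'⟩ := hmul (Function.surjInv hp a) (Function.surjInv hp b)
    rw [← hv']
    exact hw _ _ (by rw [hv, map_mul, hs, hs, hs])

/-- Actions on quotients. -/
private theorem Act_gen (p : U →ₐ[F] A) (hp : Function.Surjective p) (C N : Submodule F U)
    (f : U →ₗ[F] Module.End F U) (hC : ∀ u, ∀ z ∈ C, f u z ∈ C)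
    (hN : ∀ u, ∀ z ∈ N, f u z ∈ N) (h1 : ∀ z, f 1 z = z)
    (hmul : ∀ u u' : U, ∃ v, p v = p (u * u') ∧ ∀ z, f v z = f u (f u' z))
    (hk : ∀ u, p u = 0 → ∀ z ∈ C, f u z ∈ N) :
    ∃ φ : A →ₐ[F] Module.End F (↥C ⧸ N.comap C.subtype), ∀ (u : U) (z w : ↥C), (w : U) = f u z →
      φ (p u) (Submodule.Quotient.mk z) = Submodule.Quotient.mk w := by
  let g : U → (↥C →ₗ[F] ↥C) := fun u => (f u).restrict (hC u)
  have hg : ∀ u (z : ↥C), ((g u z : ↥C) : U) = f u z := fun u z => rfl
  have hg' : ∀ u, N.comap C.subtype ≤ (N.comap C.subtype).comap (g u) := fun u z hz =>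
    hN u z hz
  let Ψ : U →ₗ[F] Module.End F (↥C ⧸ N.comap C.subtype) :=
    { toFun := fun u => Submodule.mapQ _ _ (g u) (hg' u)
      map_add' := fun u v => by
        refine LinearMap.ext fun x => ?_
        obtain ⟨z, rfl⟩ := Submodule.Quotient.mk_surjective _ x
        rw [LinearMap.add_apply, Submodule.mapQ_apply, Submodule.mapQ_apply, Submodule.mapQ_apply,
          ← Submodule.Quotient.mk_add]
        refine congrArg _ (Subtype.ext ?_)
        show f (u + v) z = f u z + f v z
        rw [map_add, LinearMap.add_apply]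
      map_smul' := fun r u => by
        refine LinearMap.ext fun x => ?_
        obtain ⟨z, rfl⟩ := Submodule.Quotient.mk_surjective _ x
        rw [RingHom.id_apply, LinearMap.smul_apply, Submodule.mapQ_apply, Submodule.mapQ_apply,
          ← Submodule.Quotient.mk_smul]
        refine congrArg _ (Subtype.ext ?_)
        show f (r • u) z = r • f u z
        rw [map_smul, LinearMap.smul_apply] }
  have hΨ : ∀ u (z : ↥C), Ψ u (Submodule.Quotient.mk z) = Submodule.Quotient.mk (g u z) :=
    fun u z => rfl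
  have e1 : Ψ 1 = 1 := by
    refine LinearMap.ext fun x => ?_
    obtain ⟨z, rfl⟩ := Submodule.Quotient.mk_surjective _ x
    rw [hΨ]
    exact congrArg _ (Subtype.ext (h1 z))
  have e2 : ∀ u u' : U, ∃ v, p v = p (u * u') ∧ Ψ v = Ψ u * Ψ u' := by
    intro u u'
    obtain ⟨v, hv, hv'⟩ := hmul u u'
    refine ⟨v, hv, LinearMap.ext fun x => ?_⟩
    obtain ⟨z, rfl⟩ := Submodule.Quotient.mk_surjective _ x
    rw [Module.End.mul_apply, hΨ, hΨ, hΨ]
    exact congrArg _ (Subtype.ext (hv' z))
  have e3 : ∀ u, p u = 0 → Ψ u = 0 := by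
    intro u hu
    refine LinearMap.ext fun x => ?_
    obtain ⟨z, rfl⟩ := Submodule.Quotient.mk_surjective _ x
    rw [hΨ, LinearMap.zero_apply, Submodule.Quotient.mk_eq_zero]
    exact hk u hu z z.2
  obtain ⟨φ, hφ⟩ := Act_fac p hp Ψ e1 e2 e3
  refine ⟨φ, fun u z w hw => ?_⟩
  rw [hφ, hΨ]
  exact congrArg _ (Subtype.ext hw.symm)

private theorem Act_left {C N : Submodule F U} (hC : ∀ (u : U), ∀ z ∈ C, u * z ∈ C) (u z : U)
    (hz : z ∈ C * N) : u * z ∈ C * N := by
  induction hz using Submodule.mul_induction_on' with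
  | mem_mul_mem a ha b hb =>
    rw [← mul_assoc]
    exact Submodule.mul_mem_mul (hC u a ha) hb
  | add a _ b _ h1 h2 =>
    rw [mul_add]
    exact Submodule.add_mem _ h1 h2

private theorem Act_right {C N : Submodule F U} (hN : ∀ (u : U), ∀ z ∈ N, z * u ∈ N) (u z : U)
    (hz : z ∈ C * N) : z * u ∈ C * N := by
  induction hz using Submodule.mul_induction_on' with
  | mem_mul_mem a ha b hb =>
    rw [mul_assoc]
    exact Submodule.mul_mem_mul ha (hN u b hb)
  | add a _ b _ h1 h2 =>
    rw [add_mul]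
    exact Submodule.add_mem _ h1 h2

theorem exists_act (ε : U →ₐ[F] F) (p : U →ₐ[F] A) (hp : Function.Surjective p) (hk : ∀ u, p u = 0 ↔ u ∈ Com F U) :
    ∃ act : A →ₐ[F] Module.End F (Vq ε), ∀ (u : U) (z w : ↥(Com F U)), (w : U) = u * z →
      act (p u) (Submodule.Quotient.mk z) = Submodule.Quotient.mk w :=
  Act_gen p hp (Com F U) (Com F U * Aug ε) (LinearMap.mul F U)
    (fun u z hz => com_mul_left u z hz)
    (fun u z hz => Act_left (fun u z hz => com_mul_left u z hz) u z hz)
    (fun z => one_mul z) (fun u u' => ⟨u * u', rfl, fun z => mul_assoc u u' z⟩)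
    (fun u hu _ hz => Submodule.mul_mem_mul ((hk u).1 hu) (com_le_aug ε hz))

theorem exists_lft (p : U →ₐ[F] A) (hp : Function.Surjective p) (hk : ∀ u, p u = 0 ↔ u ∈ Com F U) :
    ∃ lft : A →ₐ[F] Module.End F (Mq F U), ∀ (u : U) (z w : ↥(Com F U)), (w : U) = u * z →
      lft (p u) (Submodule.Quotient.mk z) = Submodule.Quotient.mk w :=
  Act_gen p hp (Com F U) (Com F U * Com F U) (LinearMap.mul F U)
    (fun u z hz => com_mul_left u z hz)
    (fun u z hz => Act_left (fun u z hz => com_mul_left u z hz) u z hz)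
    (fun z => one_mul z) (fun u u' => ⟨u * u', rfl, fun z => mul_assoc u u' z⟩)
    (fun u hu _ hz => Submodule.mul_mem_mul ((hk u).1 hu) hz)

theorem exists_rgt (p : U →ₐ[F] A) (hp : Function.Surjective p) (hk : ∀ u, p u = 0 ↔ u ∈ Com F U) :
    ∃ rgt : A →ₐ[F] Module.End F (Mq F U), ∀ (u : U) (z w : ↥(Com F U)), (w : U) = z * u →
      rgt (p u) (Submodule.Quotient.mk z) = Submodule.Quotient.mk w :=
  Act_gen p hp (Com F U) (Com F U * Com F U) (LinearMap.mul F U).flip
    (fun u z hz => com_mul_right u z hz)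
    (fun u z hz => Act_right (fun u z hz => com_mul_right u z hz) u z hz)
    (fun z => mul_one z)
    (fun u u' => ⟨u' * u, by rw [map_mul, map_mul, mul_comm], fun z => (mul_assoc z u' u).symm⟩)
    (fun u hu _ hz => Submodule.mul_mem_mul hz ((hk u).1 hu))

end EL
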