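import Pool.Agent.Lib.MP_a5a771_al.Defs

/-!
# Adapted ordered bases exist

PROOF. Linear algebra for the chain `D3 ≤ D2 ≤ D1 ≤ ⊤` (`D3 ≤ D2` because `D2` is an ideal, `D2 ≤ D1`): choose complements `C3 = D3`,
`D2 = D3 ⊕ C2`, `D1 = D2 ⊕ C1`, `G = D1 ⊕ C0` and bases of `C3, C2, C1, C0` with index types `κ₃, κ₂, κ₁, κ₀`; the index type is the lexicographic sum
`κ₃ ⊕ₗ κ₂ ⊕ₗ κ₁ ⊕ₗ κ₀` of linearly ordered types (any linear orders), the weights are `3, 2, 1, 0`. A vector lies in `D1` iff its coordinates at the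
indices of weight `0` vanish, and so on. `adp_C`: `⁅G, G⁆ = D1`, `⁅G, D1⁆ ≤ D1`, `⁅G, D2⁆ ≤ D2`, `⁅G, D3⁆ ≤ D3`, `⁅D1, D1⁆ = D2`, `⁅D1, D2⁆ = D3`,
`⁅D2, D2⁆ ≤ ⁅D1, D2⁆ = D3`; `P.b p ∈ D1` iff `1 ≤ P.wt p` etc. by `h1, h2, h3`.
-/

set_option autoImplicit false

namespace EL

universe u v

private theorem AdpE_D3_le (F : Type u) (G : Type v) [Field F] [LieRing G] [LieAlgebra F G] :
    D3 F G ≤ D2 F G := LieSubmodule.lie_le_right _ _

private theorem AdpE_D2_eq (F : Type u) (G : Type v) [Field F] [LieRing G] [LieAlgebra F G] :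
    D2 F G = ⁅D1 F G, D1 F G⁆ := by
  rw [D2, D1, LieAlgebra.derivedSeries_def, LieAlgebra.derivedSeriesOfIdeal_succ,
    LieAlgebra.derivedSeries_def]

private theorem AdpE_D2_le (F : Type u) (G : Type v) [Field F] [LieRing G] [LieAlgebra F G] :
    D2 F G ≤ D1 F G := by
  rw [AdpE_D2_eq]
  exact LieSubmodule.lie_le_right _ _

private theorem AdpE_lie_mem (F : Type u) (G : Type v) [Field F] [LieRing G] [LieAlgebra F G]
    (x y : G) : ⁅x, y⁆ ∈ D1 F G := by
  have h1 : D1 F G = ⁅(⊤ : LieIdeal F G), (⊤ : LieIdeal F G)⁆ := by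
    rw [D1, LieAlgebra.derivedSeries_def, LieAlgebra.derivedSeriesOfIdeal_succ,
      LieAlgebra.derivedSeriesOfIdeal_zero]
  rw [h1]
  exact LieSubmodule.lie_mem_lie (LieSubmodule.mem_top x) (LieSubmodule.mem_top y)

private theorem AdpE_iff {F G ι : Type*} [Field F] [AddCommGroup G] [Module F G]
    (b : Module.Basis ι F G) (wt : ι → ℕ) (n : ℕ) (D : Submodule F G) (s : Set G)
    (hs : b '' {p | n ≤ wt p} = s) (h1 : s ⊆ D) (h2 : (D : Set G) ⊆ Submodule.span F s) (x : G) :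
    x ∈ D ↔ ∀ p, b.repr x p ≠ 0 → n ≤ wt p := by
  have h3 : D = Submodule.span F s := le_antisymm h2 (Submodule.span_le.2 h1)
  rw [h3, ← hs, Module.Basis.mem_span_image]
  constructor
  · intro h p hp
    exact h (Finsupp.mem_support_iff.2 hp)
  · intro h p hp
    exact h p (Finsupp.mem_support_iff.1 hp)

theorem exists_adp (F : Type u) (G : Type v) [Field F] [LieRing G] [LieAlgebra F G] :
    ∃ (ι : Type v) (_ : LinearOrder ι), Nonempty (Adp F G ι) := by
  classical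
  have l0 : LinearIndepOn F id (∅ : Set G) := linearIndepOn_empty F id
  obtain ⟨s3, a3, -, c3, l3⟩ := exists_linearIndepOn_id_extension (t := ((D3 F G : LieIdeal F G) : Set G))
    l0 (Set.empty_subset _)
  have e2 : s3 ⊆ ((D2 F G : LieIdeal F G) : Set G) := fun x hx => AdpE_D3_le F G (a3 hx)
  obtain ⟨s2, a2, b2, c2, l2⟩ := exists_linearIndepOn_id_extension l3 e2
  have e1 : s2 ⊆ ((D1 F G : LieIdeal F G) : Set G) := fun x hx => AdpE_D2_le F G (a2 hx)
  obtain ⟨s1, a1, b1, c1, l1⟩ := exists_linearIndepOn_id_extension l2 e1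
  obtain ⟨s, -, b0, c0, lin⟩ := exists_linearIndepOn_id_extension l1 (Set.subset_univ s1)
  let b : Module.Basis s F G := Module.Basis.mk (v := fun x : s => (x : G)) lin (by
    rw [Subtype.range_coe]
    exact fun x _ => c0 (Set.mem_univ x))
  have hb : ∀ p : s, b p = p := fun p => Module.Basis.mk_apply _ _ _
  let wt : s → ℕ := fun p => if (p : G) ∈ s3 then 3 else if (p : G) ∈ s2 then 2 else
    if (p : G) ∈ s1 then 1 else 0
  have w3 : ∀ p : s, 3 ≤ wt p ↔ (p : G) ∈ s3 := by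
    intro p
    simp only [wt]
    split_ifs with h3 h2 h1 <;> simp [h3]
  have w2 : ∀ p : s, 2 ≤ wt p ↔ (p : G) ∈ s2 := by
    intro p
    simp only [wt]
    split_ifs with h3 h2 h1
    · simp [b2 h3]
    · simp [h2]
    · simp [h2]
    · simp [h2]
  have w1 : ∀ p : s, 1 ≤ wt p ↔ (p : G) ∈ s1 := by
    intro p
    simp only [wt]
    split_ifs with h3 h2 h1
    · simp [b1 (b2 h3)]
    · simp [b1 h2]
    · simp [h1]
    · simp [h1]
  have im : ∀ (n : ℕ) (t : Set G), t ⊆ s → (∀ p : s, n ≤ wt p ↔ (p : G) ∈ t) →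
      b '' {p | n ≤ wt p} = t := by
    intro n t hts ht
    ext x
    constructor
    · rintro ⟨p, hp, rfl⟩
      rw [hb]
      exact (ht p).1 hp
    · intro hx
      exact ⟨⟨x, hts hx⟩, (ht _).2 hx, hb _⟩
  obtain ⟨ord, hord⟩ : ∃ ord : LinearOrder s, ∀ p q : s, ord.le p q → wt q ≤ wt p := by
    let _ : LinearOrder s := linearOrderOfSTO WellOrderingRel
    let f : s → ℕᵒᵈ ×ₗ s := fun p => toLex (OrderDual.toDual (wt p), p)
    have hf : Function.Injective f := by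
      intro p q h
      have h1 : (OrderDual.toDual (wt p), p) = (OrderDual.toDual (wt q), q) := toLex.injective h
      exact (Prod.ext_iff.1 h1).2
    refine ⟨LinearOrder.lift' f hf, fun p q hpq => ?_⟩
    have h1 : f p ≤ f q := hpq
    have h2 : OrderDual.toDual (wt p) ≤ OrderDual.toDual (wt q) := by
      rcases (Prod.Lex.le_iff).1 h1 with h | ⟨h, -⟩
      · exact h.le
      · exact h.le
    exact h2
  refine ⟨s, ord, ⟨{
    b := b
    wt := wt
    le3 := ?_
    anti := ?_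
    h1 := ?_
    h2 := ?_
    h3 := ?_ }⟩⟩
  · intro p
    simp only [wt]
    split_ifs <;> omega
  · intro p q hpq
    exact hord p q hpq
  · intro x
    exact AdpE_iff b wt 1 (D1 F G).toSubmodule s1 (im 1 s1 b0 w1) a1 c1 x
  · intro x
    exact AdpE_iff b wt 2 (D2 F G).toSubmodule s2 (im 2 s2 (b1.trans b0) w2) a2 c2 x
  · intro x
    exact AdpE_iff b wt 3 (D3 F G).toSubmodule s3 (im 3 s3 ((b2.trans b1).trans b0) w3) a3 c3 x

theorem adp_C {F G ι : Type*} [Field F] [LieRing G] [LieAlgebra F G] [LinearOrder ι] (P : Adp F G ι) (p q k : ι)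
    (h : P.b.repr ⁅P.b p, P.b q⁆ k ≠ 0) : min 3 (P.wt p + P.wt q) ≤ P.wt k := by
  classical
  have self : ∀ p r : ι, P.b.repr (P.b p) r ≠ 0 → r = p := by
    intro p r hr
    by_contra hne
    rw [Module.Basis.repr_self, Finsupp.single_apply, if_neg fun h => hne h.symm] at hr
    exact hr rfl
  have m1 : ∀ p, 1 ≤ P.wt p → P.b p ∈ D1 F G := fun p hp =>
    (P.h1 _).2 fun r hr => by rw [self p r hr]; exact hp
  have m2 : ∀ p, 2 ≤ P.wt p → P.b p ∈ D2 F G := fun p hp =>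
    (P.h2 _).2 fun r hr => by rw [self p r hr]; exact hp
  have m3 : ∀ p, 3 ≤ P.wt p → P.b p ∈ D3 F G := fun p hp =>
    (P.h3 _).2 fun r hr => by rw [self p r hr]; exact hp
  have hp3 := P.le3 p
  have hq3 := P.le3 q
  have g1 : ⁅P.b p, P.b q⁆ ∈ D1 F G := AdpE_lie_mem F G _ _
  rcases Nat.lt_or_ge (P.wt p + P.wt q) 2 with h2 | h2
  · have := (P.h1 _).1 g1 k h
    omega
  rcases Nat.lt_or_ge (P.wt p + P.wt q) 3 with h3 | h3
  · have g2 : ⁅P.b p, P.b q⁆ ∈ D2 F G := by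
      by_cases hp2 : 2 ≤ P.wt p
      · rw [← lie_skew]
        exact (D2 F G).neg_mem (LieSubmodule.lie_mem _ (m2 p hp2))
      by_cases hq2 : 2 ≤ P.wt q
      · exact LieSubmodule.lie_mem _ (m2 q hq2)
      · rw [AdpE_D2_eq]
        exact LieSubmodule.lie_mem_lie (m1 p (by omega)) (m1 q (by omega))
    have := (P.h2 _).1 g2 k h
    omega
  · have g3 : ⁅P.b p, P.b q⁆ ∈ D3 F G := by
      by_cases hp2 : 3 ≤ P.wt p
      · rw [← lie_skew]
        exact (D3 F G).neg_mem (LieSubmodule.lie_mem _ (m3 p hp2))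
      by_cases hq2 : 3 ≤ P.wt q
      · exact LieSubmodule.lie_mem _ (m3 q hq2)
      by_cases hq1 : 2 ≤ P.wt q
      · exact LieSubmodule.lie_mem_lie (m1 p (by omega)) (m2 q hq1)
      · rw [← lie_skew]
        exact (D3 F G).neg_mem (LieSubmodule.lie_mem_lie (m1 q (by omega)) (m2 p (by omega)))
    have := (P.h3 _).1 g3 k h
    omega

end EL
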