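import Pool.Agent.Lib.MP_a5a771_al.EnvB

/-!
# Words of weight at least `m` are combinations of sorted words of weight at least `m`

PROOF. Induction on (length, number of inversions), lexicographic. If `l` is sorted: clear. Otherwise `l = l₁ ++ p :: q :: l₂` with `q < p`;
`mon l = mon (l₁ ++ q :: p :: l₂) + ∑ₖ (b.repr ⁅b p, b q⁆ k) • mon (l₁ ++ k :: l₂)` by `env_lie`. The first word has the same weight and
one inversion less; in the second sum only `k` with `b.repr ⁅b p, b q⁆ k ≠ 0` count, `wt k ≥ min m (wt p + wt q)`, so that the weight of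
`l₁ ++ k :: l₂` is at least `m`; it is shorter. Second statement: `m = 0` and `env_words`.
-/

set_option autoImplicit false

namespace EL

variable {F G U ι : Type*} [Field F] [LieRing G] [LieAlgebra F G] [Ring U] [Algebra F U] [LinearOrder ι]
  {i : G →ₗ[F] U} {ε : U →ₐ[F] F}

theorem mon_mem_SF (hE : Env i ε) (b : Module.Basis ι F G) (wt : ι → ℕ) (m : ℕ)
    (hC : ∀ p q k, b.repr ⁅b p, b q⁆ k ≠ 0 → min m (wt p + wt q) ≤ wt k) (l : List ι) (hl : m ≤ (l.map wt).sum) :
    mon i b l ∈ SF i b wt m := by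
  obtain ⟨e, he⟩ := hE.ex
  have hcl : Pool.Agent.Lib.MP_a5a771_al.Closed b {l : List ι | m ≤ (l.map wt).sum} := by
    intro u v p q _ hw
    simp only [Set.mem_ofPred_eq, List.map_append, List.map_cons, List.sum_append, List.sum_cons]
      at hw ⊢
    refine ⟨by omega, fun k hk => ?_⟩
    have := hC p q k (Finsupp.mem_support_iff.1 hk)
    omega
  have h1 := Pool.Agent.Lib.MP_a5a771_al.straighten b hcl hl
  have h2 := Submodule.mem_map_of_mem (f := e.toLinearMap) h1
  rw [Submodule.map_span] at h2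
  rw [EnvB_mon e he]
  refine Submodule.span_mono ?_ h2
  rintro _ ⟨_, ⟨w, ⟨hw1, hw2⟩, rfl⟩, rfl⟩
  exact ⟨w, hw2, hw1, EnvB_mon e he b w⟩

theorem SF_zero (hE : Env i ε) (b : Module.Basis ι F G) (wt : ι → ℕ) : SF i b wt 0 = ⊤ := by
  rw [eq_top_iff, ← env_words hE b]
  refine Submodule.span_le.2 ?_
  rintro _ ⟨l, rfl⟩
  exact mon_mem_SF hE b wt 0 (fun p q k _ => by simp) l (Nat.zero_le _)

end EL
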