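import Pool.Agent.Lib.MP_a5a771_al.Pbw
import Pool.Agent.Lib.MP_a5a771_al.Fil

/-!
# The basis of sorted monomials, coordinates, injectivity

PROOFS. `exists_pbw`: `pbw_li` and `SF_zero` (with `wt = 0`). `coord_SF`: `B.repr (mon i b t)` is `single t 1` for sorted `t`, linearity (span
induction). `env_inj`: choose a linear order on the index set of a basis (`Module.Basis.ofVectorSpace`, `linearOrderOfSTO` or a well order);
the one letter words are sorted, so the `i (b k)` are linearly independent.
-/

set_option autoImplicit false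

namespace EL

variable {F G U ι : Type*} [Field F] [LieRing G] [LieAlgebra F G] [Ring U] [Algebra F U] [LinearOrder ι]
  {i : G →ₗ[F] U} {ε : U →ₐ[F] F}

theorem exists_pbw (hE : Env i ε) (b : Module.Basis ι F G) :
    ∃ B : Module.Basis {l : List ι // l.Pairwise (· ≤ ·)} F U, ∀ s, B s = mon i b s.1 := by
  have h1 : ⊤ ≤ Submodule.span F (Set.range fun s : {l : List ι // l.Pairwise (· ≤ ·)} =>
      mon i b s.1) := by
    rw [← SF_zero hE b fun _ => 0]
    refine Submodule.span_mono ?_
    rintro _ ⟨s, hs, -, rfl⟩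
    exact ⟨⟨s, hs⟩, rfl⟩
  refine ⟨Module.Basis.mk (pbw_li hE b) h1, fun s => ?_⟩
  rw [Module.Basis.mk_apply]

theorem coord_SF (b : Module.Basis ι F G) (B : Module.Basis {l : List ι // l.Pairwise (· ≤ ·)} F U)
    (hB : ∀ s, B s = mon i b s.1) (wt : ι → ℕ) (m : ℕ) (x : U) (hx : x ∈ SF i b wt m)
    (s : {l : List ι // l.Pairwise (· ≤ ·)}) (hs : (s.1.map wt).sum < m) : B.repr x s = 0 := by
  classical
  rw [SF] at hx
  induction hx using Submodule.span_induction with
  | mem x hx =>
    obtain ⟨t, ht, hm, rfl⟩ := hx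
    rw [← hB ⟨t, ht⟩, Module.Basis.repr_self, Finsupp.single_apply, if_neg]
    intro h
    rw [← h] at hs
    exact absurd hs (not_lt.2 hm)
  | zero => rw [map_zero]; rfl
  | add x y _ _ hx hy => rw [map_add, Finsupp.add_apply, hx, hy, add_zero]
  | smul c x _ hx => rw [map_smul, Finsupp.smul_apply, hx, smul_zero]

omit [LinearOrder ι] in
theorem env_inj (hE : Env i ε) : Function.Injective i := by
  obtain ⟨e, he⟩ := hE.ex
  intro x y hxy
  rw [← he, ← he] at hxy
  exact Pool.Agent.Lib.MP_a5a771_al.iota_injective (e.injective hxy)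

end EL
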