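import Mathlib
import Pool.Agent.Lib.MP_c108b5_al.PBW

/-!
# The Poincare-Birkhoff-Witt theorem for universal enveloping algebras over a field

`L` is a Lie algebra over a field `k` (any dimension, any characteristic) and `b` a basis of `L` indexed by a linearly
ordered set `I`.  `word b w` is the product in `U(L)` of the letters of the word `w`.

* `word_swap`: the straightening relation.
* `straighten`: if a class `S` of words is closed under straightening then the words of `S` lie in the span of the
  sorted words of `S`.
* `pbw_li`, `pbw_span`, `pbwBasis`: the sorted words are a basis of `U(L)`.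
* `coef`: the coordinate functionals; they come from the straightening functional of `MP_c108b5_al/PBW`.
-/

namespace Pool.Agent.Lib.MP_a5a771_al

open Module Pool.Agent.PoissonHopf

attribute [local instance 100] LieRing.ofAssociativeRing

section Words

variable {k I L : Type*} [Field k] [LieRing L] [LieAlgebra k L] (b : Basis I k L)

/-- The product in `U(L)` of the letters of a word. -/
noncomputable def word (w : List I) : UniversalEnvelopingAlgebra k L :=
  (w.map fun i => UniversalEnvelopingAlgebra.ι k (b i)).prod

theorem word_nil : word b [] = 1 := rfl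

theorem word_cons (i : I) (v : List I) :
    word b (i :: v) = UniversalEnvelopingAlgebra.ι k (b i) * word b v := by
  simp only [word, List.map_cons, List.prod_cons]

theorem word_append (u v : List I) : word b (u ++ v) = word b u * word b v := by
  simp only [word, List.map_append, List.prod_append]

theorem word_single (i : I) : word b [i] = UniversalEnvelopingAlgebra.ι k (b i) := by
  rw [word_cons, word_nil, mul_one]

theorem iota_lie (x y : L) : UniversalEnvelopingAlgebra.ι k x * UniversalEnvelopingAlgebra.ι k y =
    UniversalEnvelopingAlgebra.ι k y * UniversalEnvelopingAlgebra.ι k x +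
      UniversalEnvelopingAlgebra.ι k ⁅x, y⁆ := by
  rw [LieHom.map_lie, LieRing.of_associative_ring_bracket]
  abel

theorem iota_repr (x : L) : UniversalEnvelopingAlgebra.ι k x =
    (b.repr x).sum fun l a => a • UniversalEnvelopingAlgebra.ι k (b l) := by
  conv_lhs => rw [← b.linearCombination_repr x, Finsupp.linearCombination_apply]
  rw [Finsupp.sum, Finsupp.sum, ← LieHom.coe_toLinearMap, map_sum]
  exact Finset.sum_congr rfl fun l _ => map_smul _ _ _

/-- The straightening relation. -/
theorem word_swap (u v : List I) (i j : I) : word b (u ++ i :: j :: v) = word b (u ++ j :: i :: v) +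
    (b.repr ⁅b i, b j⁆).sum fun l a => a • word b (u ++ l :: v) := by
  have h1 : (b.repr ⁅b i, b j⁆).sum (fun l a => a • word b (u ++ l :: v)) =
      word b u * (UniversalEnvelopingAlgebra.ι k ⁅b i, b j⁆ * word b v) := by
    rw [iota_repr b ⁅b i, b j⁆, Finsupp.sum, Finsupp.sum, Finset.sum_mul, Finset.mul_sum]
    refine Finset.sum_congr rfl fun l _ => ?_
    rw [word_append, word_cons, smul_mul_assoc, mul_smul_comm]
  rw [h1, word_append, word_append, word_cons, word_cons, word_cons, word_cons, ← mul_assoc
    (UniversalEnvelopingAlgebra.ι k (b i)), iota_lie]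
  simp only [mul_add, add_mul, mul_assoc]

theorem adjoin_iota : Algebra.adjoin k (Set.range (UniversalEnvelopingAlgebra.ι k :
    L → UniversalEnvelopingAlgebra k L)) = ⊤ := by
  set S := Algebra.adjoin k (Set.range (UniversalEnvelopingAlgebra.ι k :
    L → UniversalEnvelopingAlgebra k L)) with hS
  have hmem : ∀ x : L, UniversalEnvelopingAlgebra.ι k x ∈ S := fun x =>
    Algebra.subset_adjoin ⟨x, rfl⟩
  let f : L →ₗ⁅k⁆ S :=
    { toFun := fun x => ⟨UniversalEnvelopingAlgebra.ι k x, hmem x⟩
      map_add' := fun x y => Subtype.ext (map_add _ _ _)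
      map_smul' := fun c x => Subtype.ext (map_smul _ _ _)
      map_lie' := fun {x y} => by
        apply Subtype.ext
        change UniversalEnvelopingAlgebra.ι k ⁅x, y⁆ =
          UniversalEnvelopingAlgebra.ι k x * UniversalEnvelopingAlgebra.ι k y -
            UniversalEnvelopingAlgebra.ι k y * UniversalEnvelopingAlgebra.ι k x
        rw [LieHom.map_lie, LieRing.of_associative_ring_bracket] }
  have h : S.val.comp (UniversalEnvelopingAlgebra.lift k f) = AlgHom.id k _ := by
    apply UniversalEnvelopingAlgebra.hom_ext
    ext x
    have h1 : UniversalEnvelopingAlgebra.lift k f (UniversalEnvelopingAlgebra.ι k x) = f x :=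
      UniversalEnvelopingAlgebra.lift_ι_apply k f x
    change (S.val (UniversalEnvelopingAlgebra.lift k f (UniversalEnvelopingAlgebra.ι k x))) =
      UniversalEnvelopingAlgebra.ι k x
    rw [h1]
    rfl
  rw [eq_top_iff]
  intro x _
  have h2 := congrArg (fun g => g x) h
  simp only [AlgHom.comp_apply, AlgHom.id_apply] at h2
  rw [← h2]
  exact (UniversalEnvelopingAlgebra.lift k f x).2

theorem span_word : Submodule.span k (Set.range (word b)) = ⊤ := by
  have h1 : Algebra.adjoin k (Set.range fun i => UniversalEnvelopingAlgebra.ι k (b i)) = ⊤ := by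
    rw [eq_top_iff, ← adjoin_iota (k := k) (L := L)]
    refine Algebra.adjoin_le ?_
    rintro _ ⟨x, rfl⟩
    rw [SetLike.mem_coe, iota_repr b x, Finsupp.sum]
    exact Subalgebra.sum_mem _ fun l _ =>
      Subalgebra.smul_mem _ (Algebra.subset_adjoin (Set.mem_range_self l)) _
  have h2 := congrArg Subalgebra.toSubmodule h1
  rw [Algebra.adjoin_eq_span, Algebra.top_toSubmodule] at h2
  rw [eq_top_iff, ← h2]
  refine Submodule.span_mono ?_
  intro x hx
  obtain ⟨l, hl, rfl⟩ := Submonoid.exists_list_of_mem_closure hx
  have h3 : ∀ l : List (UniversalEnvelopingAlgebra k L),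
      (∀ y ∈ l, y ∈ Set.range fun i => UniversalEnvelopingAlgebra.ι k (b i)) →
      ∃ w : List I, l = w.map fun i => UniversalEnvelopingAlgebra.ι k (b i) := by
    intro l
    induction l with
    | nil => exact fun _ => ⟨[], rfl⟩
    | cons y l ih =>
      intro h
      obtain ⟨w, hw⟩ := ih fun z hz => h z (List.mem_cons_of_mem _ hz)
      obtain ⟨i, hi⟩ := h y List.mem_cons_self
      exact ⟨i :: w, by rw [List.map_cons, ← hw]; simp only at hi; rw [hi]⟩
  obtain ⟨w, hw⟩ := h3 l hl
  exact ⟨w, by rw [word, ← hw]⟩

end Words

section Straighten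

variable {k I L : Type*} [Field k] [LieRing L] [LieAlgebra k L] (b : Basis I k L) [LinearOrder I]

/-- A class of words closed under straightening. -/
def Closed (S : Set (List I)) : Prop :=
  ∀ u v i j, j < i → u ++ i :: j :: v ∈ S → u ++ j :: i :: v ∈ S ∧
    ∀ l ∈ (b.repr ⁅b i, b j⁆).support, u ++ l :: v ∈ S

omit [LieRing L] [LieAlgebra k L] [Field k] in
theorem exists_descent : ∀ w : List I, w.Pairwise (· ≤ ·) ∨
    ∃ u v i j, w = u ++ i :: j :: v ∧ j < i
  | [] => Or.inl List.Pairwise.nil
  | [a] => Or.inl (List.pairwise_singleton _ _)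
  | a :: c :: t => by
    rcases exists_descent (c :: t) with h | ⟨u, v, i, j, h, hij⟩
    · rcases lt_or_ge c a with hca | hac
      · exact Or.inr ⟨[], t, a, c, rfl, hca⟩
      · refine Or.inl (List.pairwise_cons.2 ⟨fun x hx => ?_, h⟩)
        rcases List.mem_cons.1 hx with rfl | hx
        · exact hac
        · exact hac.trans ((List.pairwise_cons.1 h).1 x hx)
    · exact Or.inr ⟨a :: u, v, i, j, by rw [h]; rfl, hij⟩

theorem straighten {S : Set (List I)} (hS : Closed b S) {w : List I} (hw : w ∈ S) :
    word b w ∈ Submodule.span k (word b '' {w | w ∈ S ∧ w.Pairwise (· ≤ ·)}) := by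
  have main : ∀ n m : ℕ, ∀ w : List I, w.length = n → inv w = m → w ∈ S →
      word b w ∈ Submodule.span k (word b '' {w | w ∈ S ∧ w.Pairwise (· ≤ ·)}) := by
    intro n
    induction n using Nat.strong_induction_on with
    | _ n ihn =>
    intro m
    induction m using Nat.strong_induction_on with
    | _ m ihm =>
    intro w hn hm hw
    rcases exists_descent w with h | ⟨u, v, i, j, rfl, hij⟩
    · exact Submodule.subset_span ⟨w, ⟨hw, h⟩, rfl⟩
    · obtain ⟨h1, h2⟩ := hS u v i j hij hw
      rw [word_swap]
      refine Submodule.add_mem _ ?_ ?_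
      · refine ihm _ ?_ _ ?_ rfl h1
        · rw [← hm]
          exact inv_swap_lt u v hij
        · rw [← hn]
          simp
      · refine Submodule.sum_mem _ fun l hl => Submodule.smul_mem _ _ ?_
        refine ihn (u ++ l :: v).length ?_ _ _ rfl rfl (h2 l hl)
        rw [← hn]
        simp
  exact main _ _ w rfl rfl hw

theorem span_eq_sorted {S : Set (List I)} (hS : Closed b S) : Submodule.span k (word b '' S) =
    Submodule.span k (word b '' {w | w ∈ S ∧ w.Pairwise (· ≤ ·)}) := by
  refine le_antisymm (Submodule.span_le.2 ?_) (Submodule.span_mono (Set.image_mono fun w h => h.1))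
  rintro _ ⟨w, hw, rfl⟩
  exact straighten b hS hw

theorem pbw_span : Submodule.span k (Set.range fun w : {w : List I // w.Pairwise (· ≤ ·)} =>
    word b w.1) = ⊤ := by
  have h1 : Closed b (Set.univ : Set (List I)) := fun _ _ _ _ _ _ =>
    ⟨Set.mem_univ _, fun _ _ => Set.mem_univ _⟩
  have h2 := span_eq_sorted b h1
  rw [Set.image_univ, span_word] at h2
  rw [h2]
  congr 1
  ext x
  constructor
  · rintro ⟨w, rfl⟩
    exact ⟨w.1, ⟨Set.mem_univ _, w.2⟩, rfl⟩
  · rintro ⟨w, ⟨-, hw⟩, rfl⟩
    exact ⟨⟨w, hw⟩, rfl⟩

end Straighten

section Functional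

variable {k I L : Type*} [Field k] [LieRing L] [LieAlgebra k L] (b : Basis I k L) [LinearOrder I]

/-- The bracket as a bilinear map. -/
noncomputable def brk (k L : Type*) [Field k] [LieRing L] [LieAlgebra k L] : L →ₗ[k] L →ₗ[k] L :=
  (LieModule.toEnd k L L).toLinearMap

omit [LinearOrder I] in
theorem brk_apply (x y : L) : brk k L x y = ⁅x, y⁆ := rfl

/-- The representation of `U(L)` on the compatible functions on words. -/
noncomputable def rep : UniversalEnvelopingAlgebra k L →ₐ[k] Module.End k (Compat b (brk k L)) :=
  UniversalEnvelopingAlgebra.lift k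
    { toFun := rho b (brk k L)
      map_add' := (rho b (brk k L)).map_add
      map_smul' := (rho b (brk k L)).map_smul
      map_lie' := fun {x y} => by
        have h := rho_bracket b (brk k L) x y
        rw [brk_apply] at h
        rw [LieRing.of_associative_ring_bracket]
        exact h }

omit [LinearOrder I] in
theorem rep_iota (x : L) : rep b (UniversalEnvelopingAlgebra.ι k x) = rho b (brk k L) x :=
  UniversalEnvelopingAlgebra.lift_ι_apply k _ x

omit [LinearOrder I] in
theorem rep_word (w : List I) (G : Compat b (brk k L)) (u : List I) :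
    (rep b (word b w) G : List I → k) u = (G : List I → k) (u ++ w) := by
  induction w generalizing u with
  | nil => rw [word_nil, map_one, List.append_nil]; rfl
  | cons i w ih =>
    rw [word_cons, map_mul, rep_iota]
    change (rho b (brk k L) (b i) (rep b (word b w) G) : List I → k) u = _
    rw [rho_coe, transl_basis, ih]
    simp

/-- The straightening functional with values `g` on the sorted words. -/
noncomputable def stf (g : List I → k) : Compat b (brk k L) :=
  ⟨straight (fun i j => b.repr (brk k L (b i) (b j))) ∅ g, by
    have hself : ∀ a : L, brk k L a a = 0 := fun a => lie_self a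
    have hjac : ∀ a c d : L, brk k L a (brk k L c d) + brk k L c (brk k L d a) +
        brk k L d (brk k L a c) = 0 := fun a c d => lie_jacobi a c d
    have hgood := straight_good b (brk k L) hself hjac (∅ : Set I) (fun i hi => hi.elim)
      (fun i hi => hi.elim) g
    intro u i j v
    have := rel_of_good b (brk k L) _ hself (hgood (u ++ i :: j :: v)) (hgood (u ++ j :: i :: v))
    rw [this, ext1, Basis.constr_apply]
    simp⟩

theorem straight_sorted (c : I → I → I →₀ k) (g : List I → k) {w : List I}
    (hw : w.Pairwise (· ≤ ·)) : straight c ∅ g w = g w := by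
  rw [straight, if_neg, dif_neg]
  · rintro ⟨⟨u, i, j, v⟩, h, hij⟩
    simp only at h hij
    rw [h, List.pairwise_append, List.pairwise_cons] at hw
    exact absurd (hw.2.1.1 j List.mem_cons_self) (not_le.2 hij)
  · rintro ⟨u, j, hj, -⟩
    exact hj

/-- The functional on `U(L)` with the values `g` on the sorted words. -/
noncomputable def coef (g : List I → k) : UniversalEnvelopingAlgebra k L →ₗ[k] k where
  toFun x := (rep b x (stf b g) : List I → k) []
  map_add' x y := by rw [map_add]; rfl
  map_smul' c x := by rw [map_smul]; rfl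

theorem coef_word (g : List I → k) {w : List I} (hw : w.Pairwise (· ≤ ·)) :
    coef b g (word b w) = g w := by
  change (rep b (word b w) (stf b g) : List I → k) [] = _
  rw [rep_word, List.nil_append]
  exact straight_sorted _ g hw

theorem pbw_li : LinearIndependent k (fun w : {w : List I // w.Pairwise (· ≤ ·)} => word b w.1) := by
  classical
  rw [linearIndependent_iff']
  intro s c hc w hw
  have h := congrArg (coef b (Pi.single w.1 1)) hc
  rw [map_sum, map_zero, Finset.sum_eq_single w] at h
  · rw [map_smul, coef_word b _ w.2, Pi.single_eq_same, smul_eq_mul, mul_one] at h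
    exact h
  · intro w' _ hne
    rw [map_smul, coef_word b _ w'.2, Pi.single_eq_of_ne (fun h => hne (Subtype.ext h)), smul_zero]
  · exact fun h => (h hw).elim

/-- **Poincare-Birkhoff-Witt**: the basis of sorted words. -/
noncomputable def pbwBasis : Basis {w : List I // w.Pairwise (· ≤ ·)} k
    (UniversalEnvelopingAlgebra k L) :=
  Basis.mk (pbw_li b) (pbw_span b).ge

theorem pbwBasis_apply (w : {w : List I // w.Pairwise (· ≤ ·)}) : pbwBasis b w = word b w.1 := by
  rw [pbwBasis, Basis.mk_apply]

/-- The span of a class of words closed under straightening, by coordinates. -/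
theorem mem_span_iff {S : Set (List I)} (hS : Closed b S) (x : UniversalEnvelopingAlgebra k L) :
    x ∈ Submodule.span k (word b '' S) ↔ ∀ w, (pbwBasis b).repr x w ≠ 0 → w.1 ∈ S := by
  rw [span_eq_sorted b hS]
  have h : word b '' {w | w ∈ S ∧ w.Pairwise (· ≤ ·)} =
      pbwBasis b '' {w : {w : List I // w.Pairwise (· ≤ ·)} | w.1 ∈ S} := by
    ext y
    constructor
    · rintro ⟨w, ⟨h1, h2⟩, rfl⟩
      exact ⟨⟨w, h2⟩, h1, pbwBasis_apply b _⟩
    · rintro ⟨w, h1, rfl⟩
      exact ⟨w.1, ⟨h1, w.2⟩, (pbwBasis_apply b w).symm⟩
  rw [h, Basis.mem_span_image]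
  constructor
  · intro h1 w hw
    exact h1 (Finsupp.mem_support_iff.2 hw)
  · intro h1 w hw
    exact h1 w (Finsupp.mem_support_iff.1 hw)

end Functional

theorem iota_injective {k L : Type*} [Field k] [LieRing L] [LieAlgebra k L] :
    Function.Injective (UniversalEnvelopingAlgebra.ι k : L → UniversalEnvelopingAlgebra k L) := by
  classical
  let b := Basis.ofVectorSpace k L
  let _ : LinearOrder (Basis.ofVectorSpaceIndex k L) := linearOrderOfSTO WellOrderingRel
  have h : LinearIndependent k fun i => UniversalEnvelopingAlgebra.ι k (b i) := by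
    have h1 := (pbw_li b).comp (fun i => ⟨[i], List.pairwise_singleton _ _⟩)
      (fun i j h => by simpa using congrArg Subtype.val h)
    have h2 : (fun i => UniversalEnvelopingAlgebra.ι k (b i)) =
        (fun w : {w : List (Basis.ofVectorSpaceIndex k L) // w.Pairwise (· ≤ ·)} => word b w.1) ∘
          fun i => ⟨[i], List.pairwise_singleton _ _⟩ := by
      funext i
      exact (word_single b i).symm
    rw [h2]
    exact h1
  intro x y hxy
  apply b.repr.injective
  apply h
  rw [Finsupp.linearCombination_apply, Finsupp.linearCombination_apply, ← iota_repr b x,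
    ← iota_repr b y, hxy]

end Pool.Agent.Lib.MP_a5a771_al
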