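import Mathlib
import Pool.Agent.Lib.MP_a5a771_al.PBW

/-!
# Base change of the universal enveloping algebra

`U_K(K ⊗ L) ≃ K ⊗ U_k(L)` for an extension `K / k` of fields, so an isomorphism `U_k(L) ≃ U_k(H)` gives an isomorphism
`U_K(K ⊗ L) ≃ U_K(K ⊗ H)`; `L` is metabelian iff `K ⊗ L` is.
-/

namespace Pool.Agent.Lib.MP_a5a771_al

open Module TensorProduct Pool.Agent.PoissonHopf

attribute [local instance 100] LieRing.ofAssociativeRing

section Hom

variable (K k L : Type*) [Field k] [Field K] [Algebra k K] [LieRing L] [LieAlgebra k L]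

/-- The linear map `K ⊗ L → K ⊗ U(L)`. -/
noncomputable def bcLin : (K ⊗[k] L) →ₗ[K] (K ⊗[k] UniversalEnvelopingAlgebra k L) :=
  LinearMap.baseChange K (UniversalEnvelopingAlgebra.ι k : L →ₗ⁅k⁆
    UniversalEnvelopingAlgebra k L).toLinearMap

theorem bcLin_tmul (a : K) (x : L) :
    bcLin K k L (a ⊗ₜ[k] x) = a ⊗ₜ[k] UniversalEnvelopingAlgebra.ι k x := rfl

theorem bcLin_lie (x y : K ⊗[k] L) : bcLin K k L ⁅x, y⁆ =
    bcLin K k L x * bcLin K k L y - bcLin K k L y * bcLin K k L x := by
  induction x using TensorProduct.induction_on with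
  | zero => simp
  | add x x' hx hx' =>
    rw [add_lie, map_add, map_add, hx, hx', add_mul, mul_add]
    abel
  | tmul a x =>
    induction y using TensorProduct.induction_on with
    | zero => simp
    | add y y' hy hy' =>
      rw [lie_add, map_add, map_add, hy, hy', add_mul, mul_add]
      abel
    | tmul c y =>
      rw [LieAlgebra.ExtendScalars.bracket_tmul, bcLin_tmul, bcLin_tmul, bcLin_tmul,
        LieHom.map_lie, LieRing.of_associative_ring_bracket, TensorProduct.tmul_sub,
        Algebra.TensorProduct.tmul_mul_tmul, Algebra.TensorProduct.tmul_mul_tmul, mul_comm c a]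

/-- The algebra homomorphism `U_K(K ⊗ L) → K ⊗ U_k(L)`. -/
noncomputable def bcAlg :
    UniversalEnvelopingAlgebra K (K ⊗[k] L) →ₐ[K] (K ⊗[k] UniversalEnvelopingAlgebra k L) :=
  UniversalEnvelopingAlgebra.lift K
    (@LieHom.mk K (K ⊗[k] L) (K ⊗[k] UniversalEnvelopingAlgebra k L) _ _ _
      LieRing.ofAssociativeRing LieAlgebra.ofAssociativeAlgebra (bcLin K k L) (bcLin_lie K k L _ _))

theorem bcAlg_iota (x : K ⊗[k] L) :
    bcAlg K k L (UniversalEnvelopingAlgebra.ι K x) = bcLin K k L x :=
  UniversalEnvelopingAlgebra.lift_ι_apply K _ x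

theorem bcAlg_word {I : Type*} (b : Basis I k L) (w : List I) :
    bcAlg K k L (word (b.baseChange K) w) = (1 : K) ⊗ₜ[k] word b w := by
  induction w with
  | nil => rw [word_nil, word_nil, map_one]; rfl
  | cons i w ih =>
    rw [word_cons, word_cons, map_mul, ih, bcAlg_iota, Basis.baseChange_apply, bcLin_tmul,
      Algebra.TensorProduct.tmul_mul_tmul, one_mul]

theorem bcAlg_bijective : Function.Bijective (bcAlg K k L) := by
  classical
  let b := Basis.ofVectorSpace k L
  let _ : LinearOrder (Basis.ofVectorSpaceIndex k L) := linearOrderOfSTO WellOrderingRel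
  let e := (pbwBasis (b.baseChange K)).equiv ((pbwBasis b).baseChange K) (Equiv.refl _)
  have h : (bcAlg K k L).toLinearMap = e.toLinearMap := by
    refine (pbwBasis (b.baseChange K)).ext fun w => ?_
    change bcAlg K k L (pbwBasis (b.baseChange K) w) = e (pbwBasis (b.baseChange K) w)
    rw [Basis.equiv_apply, pbwBasis_apply, bcAlg_word, Basis.baseChange_apply, Equiv.refl_apply,
      pbwBasis_apply]
  have h2 : (bcAlg K k L : UniversalEnvelopingAlgebra K (K ⊗[k] L) →
      K ⊗[k] UniversalEnvelopingAlgebra k L) = e := by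
    funext x
    exact congrArg (fun f => f x) h
  rw [h2]
  exact e.bijective

/-- `U_K(K ⊗ L) ≃ K ⊗ U_k(L)`. -/
noncomputable def bcEquiv :
    UniversalEnvelopingAlgebra K (K ⊗[k] L) ≃ₐ[K] (K ⊗[k] UniversalEnvelopingAlgebra k L) :=
  AlgEquiv.ofBijective (bcAlg K k L) (bcAlg_bijective K k L)

end Hom

/-- An isomorphism of enveloping algebras extends to every extension of the field. -/
noncomputable def bcIso (K : Type*) {k L H : Type*} [Field k] [Field K] [Algebra k K] [LieRing L]
    [LieAlgebra k L] [LieRing H] [LieAlgebra k H]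
    (φ : UniversalEnvelopingAlgebra k L ≃ₐ[k] UniversalEnvelopingAlgebra k H) :
    UniversalEnvelopingAlgebra K (K ⊗[k] L) ≃ₐ[K] UniversalEnvelopingAlgebra K (K ⊗[k] H) :=
  ((bcEquiv K k L).trans (Algebra.TensorProduct.congr AlgEquiv.refl φ)).trans (bcEquiv K k H).symm

section Metabelian

variable (K k L : Type*) [Field k] [Field K] [Algebra k K] [LieRing L] [LieAlgebra k L]

theorem tmul_injective : Function.Injective fun x : L => (1 : K) ⊗ₜ[k] x := by
  intro x y hxy
  let b := Basis.ofVectorSpace k L
  apply b.repr.injective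
  ext i
  have h := congrArg (fun z => (b.baseChange K).repr z i) hxy
  simp only [Basis.baseChange_repr_tmul] at h
  rw [← Algebra.algebraMap_eq_smul_one, ← Algebra.algebraMap_eq_smul_one] at h
  exact (algebraMap k K).injective h

/-- `K ⊗ L` is metabelian iff `L` is. -/
theorem metabelian_iff : (∀ a b c d : K ⊗[k] L, ⁅⁅a, b⁆, ⁅c, d⁆⁆ = 0) ↔
    ∀ a b c d : L, ⁅⁅a, b⁆, ⁅c, d⁆⁆ = 0 := by
  constructor
  · intro h a b c d
    apply tmul_injective K k L
    have h1 := h (1 ⊗ₜ a) (1 ⊗ₜ b) (1 ⊗ₜ c) (1 ⊗ₜ d)
    simp only [LieAlgebra.ExtendScalars.bracket_tmul, mul_one] at h1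
    simp only [h1, tmul_zero]
  · intro h a b c d
    induction a using TensorProduct.induction_on with
    | zero => simp
    | add a a' ha ha' => rw [add_lie, add_lie, ha, ha', add_zero]
    | tmul r a =>
      induction b using TensorProduct.induction_on with
      | zero => simp
      | add b b' hb hb' => rw [lie_add, add_lie, hb, hb', add_zero]
      | tmul s b =>
        induction c using TensorProduct.induction_on with
        | zero => simp
        | add c c' hc hc' => rw [add_lie, lie_add, hc, hc', add_zero]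
        | tmul t c =>
          induction d using TensorProduct.induction_on with
          | zero => simp
          | add d d' hd hd' => rw [lie_add, lie_add, hd, hd', add_zero]
          | tmul u d =>
            simp only [LieAlgebra.ExtendScalars.bracket_tmul, h, tmul_zero]

end Metabelian

end Pool.Agent.Lib.MP_a5a771_al
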