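import Pool.Agent.Lib.MP_a5a771_al.Defs
import Pool.Agent.Lib.MP_a5a771_al.BaseChange

/-!
# Base change, and a common augmentation

PROOFS. `base_change`: `UniversalEnvelopingAlgebra K (K ⊗[F] L) ≃ₐ[K] K ⊗[F] UniversalEnvelopingAlgebra F L`, both directions by universal properties: the Lie homomorphism
`K ⊗ L → K ⊗ U(L)`, `c ⊗ x ↦ c ⊗ ι x`, and the algebra homomorphism `U(L) → U(K ⊗ L)` over `F` induced by `x ↦ ι (1 ⊗ x)`, extended to `K ⊗ U(L)`
(`Algebra.TensorProduct.lift`); they are inverse to each other on generators. Then `Algebra.TensorProduct.congr` with `e`.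
`exists_common`: `U = UniversalEnvelopingAlgebra F L`, `iL = ι`, `ε = lift 0`. Let `ε' : U → F` be the augmentation of `U(H)` composed with `e`; it is a character, `ε' (ι x) = μ x`,
`μ ⁅x, y⁆ = 0`. The endomorphism `α : ι x ↦ ι x - μ x • 1` of `U` exists (the bracket relation holds as scalars are central and `μ` kills brackets), has
the inverse `ι x ↦ ι x + μ x • 1`, and `ε' (α (ι x)) = 0`. Put `iH y = α⁻¹ (e⁻¹ (ι y))`: `ε (iH y) = 0` because `ε ∘ α⁻¹ = ε'` (both are algebra homomorphisms,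
check on `ι x`: `ε (ι x + μ x) = μ x`).
-/

set_option autoImplicit false

namespace EL

open scoped TensorProduct

attribute [local instance 100] LieRing.ofAssociativeRing

theorem base_change {F K L H : Type*} [Field F] [Field K] [Algebra F K] [LieRing L] [LieAlgebra F L] [LieRing H] [LieAlgebra F H]
    (e : UniversalEnvelopingAlgebra F L ≃ₐ[F] UniversalEnvelopingAlgebra F H) :
    Nonempty (UniversalEnvelopingAlgebra K (K ⊗[F] L) ≃ₐ[K] UniversalEnvelopingAlgebra K (K ⊗[F] H)) :=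
  ⟨Pool.Agent.Lib.MP_a5a771_al.bcIso K e⟩

/-- the homomorphism `ι x ↦ ι x + ν x` -/
private noncomputable def Bc_shift {F L : Type*} [Field F] [LieRing L] [LieAlgebra F L] (ν : L →ₗ[F] F)
    (hν : ∀ x y : L, ν ⁅x, y⁆ = 0) :
    UniversalEnvelopingAlgebra F L →ₐ[F] UniversalEnvelopingAlgebra F L :=
  UniversalEnvelopingAlgebra.lift F
    { (UniversalEnvelopingAlgebra.ι F : L →ₗ⁅F⁆ UniversalEnvelopingAlgebra F L).toLinearMap +
        (Algebra.linearMap F (UniversalEnvelopingAlgebra F L)).comp ν with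
      map_lie' := fun {x y} => by
        simp only [AddHom.toFun_eq_coe, LinearMap.coe_toAddHom, LinearMap.add_apply,
          LieHom.coe_toLinearMap, LinearMap.comp_apply, Algebra.linearMap_apply]
        rw [hν, map_zero, add_zero, LieHom.map_lie, LieRing.of_associative_ring_bracket,
          LieRing.of_associative_ring_bracket]
        simp only [mul_add, add_mul]
        rw [Algebra.commutes (ν x) (UniversalEnvelopingAlgebra.ι F y),
          ← Algebra.commutes (ν y) (UniversalEnvelopingAlgebra.ι F x),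
          Algebra.commutes (ν x) ((algebraMap F (UniversalEnvelopingAlgebra F L)) (ν y))]
        abel }

private theorem Bc_shift_iota {F L : Type*} [Field F] [LieRing L] [LieAlgebra F L] (ν : L →ₗ[F] F)
    (hν : ∀ x y : L, ν ⁅x, y⁆ = 0) (x : L) : Bc_shift ν hν (UniversalEnvelopingAlgebra.ι F x) =
      UniversalEnvelopingAlgebra.ι F x + algebraMap F (UniversalEnvelopingAlgebra F L) (ν x) :=
  UniversalEnvelopingAlgebra.lift_ι_apply F _ x

private theorem Bc_ext {F L B : Type*} [Field F] [LieRing L] [LieAlgebra F L] [Ring B] [Algebra F B]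
    {f g : UniversalEnvelopingAlgebra F L →ₐ[F] B}
    (h : ∀ x, f (UniversalEnvelopingAlgebra.ι F x) = g (UniversalEnvelopingAlgebra.ι F x)) :
    f = g := by
  apply UniversalEnvelopingAlgebra.hom_ext
  ext x
  exact h x

private theorem Bc_shift_comp {F L : Type*} [Field F] [LieRing L] [LieAlgebra F L] (ν ξ : L →ₗ[F] F)
    (hν : ∀ x y : L, ν ⁅x, y⁆ = 0) (hξ : ∀ x y : L, ξ ⁅x, y⁆ = 0) (h : ∀ x, ν x + ξ x = 0) :
    (Bc_shift ν hν).comp (Bc_shift ξ hξ) = AlgHom.id F _ := by
  refine Bc_ext fun x => ?_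
  rw [AlgHom.comp_apply, Bc_shift_iota, map_add, Bc_shift_iota, AlgHom.commutes, add_assoc,
    ← map_add, h, map_zero, add_zero, AlgHom.id_apply]

theorem exists_common {F L H : Type*} [Field F] [LieRing L] [LieAlgebra F L] [LieRing H] [LieAlgebra F H]
    (e : UniversalEnvelopingAlgebra F L ≃ₐ[F] UniversalEnvelopingAlgebra F H) :
    ∃ (iL : L →ₗ[F] UniversalEnvelopingAlgebra F L) (iH : H →ₗ[F] UniversalEnvelopingAlgebra F L)
      (ε : UniversalEnvelopingAlgebra F L →ₐ[F] F), Env iL ε ∧ Env iH ε := by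
  let εL : UniversalEnvelopingAlgebra F L →ₐ[F] F := UniversalEnvelopingAlgebra.lift F 0
  let εH : UniversalEnvelopingAlgebra F H →ₐ[F] F := UniversalEnvelopingAlgebra.lift F 0
  have hεL : ∀ x, εL (UniversalEnvelopingAlgebra.ι F x) = 0 := fun x =>
    UniversalEnvelopingAlgebra.lift_ι_apply F _ x
  have hεH : ∀ x, εH (UniversalEnvelopingAlgebra.ι F x) = 0 := fun x =>
    UniversalEnvelopingAlgebra.lift_ι_apply F _ x
  let μ : L →ₗ[F] F := (εH.comp e.toAlgHom).toLinearMap.comp
    (UniversalEnvelopingAlgebra.ι F : L →ₗ⁅F⁆ UniversalEnvelopingAlgebra F L).toLinearMap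
  have hμa : ∀ x, μ x = εH (e (UniversalEnvelopingAlgebra.ι F x)) := fun x => rfl
  have hμ : ∀ x y : L, μ ⁅x, y⁆ = 0 := by
    intro x y
    rw [hμa, LieHom.map_lie, LieRing.of_associative_ring_bracket, map_sub, map_mul, map_mul,
      map_sub, map_mul, map_mul, mul_comm, sub_self]
  have hμ' : ∀ x y : L, (-μ) ⁅x, y⁆ = 0 := by
    intro x y
    rw [LinearMap.neg_apply, hμ, neg_zero]
  let β : UniversalEnvelopingAlgebra F L ≃ₐ[F] UniversalEnvelopingAlgebra F L :=
    AlgEquiv.ofAlgHom (Bc_shift μ hμ) (Bc_shift (-μ) hμ')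
      (Bc_shift_comp _ _ _ _ fun x => by rw [LinearMap.neg_apply, add_neg_cancel])
      (Bc_shift_comp _ _ _ _ fun x => by rw [LinearMap.neg_apply, neg_add_cancel])
  have hβ : ∀ x, β x = Bc_shift μ hμ x := fun x => rfl
  have hεβ : εL.comp (Bc_shift μ hμ) = εH.comp e.toAlgHom := by
    refine Bc_ext fun x => ?_
    rw [AlgHom.comp_apply, Bc_shift_iota, map_add, hεL, zero_add, AlgHom.commutes]
    exact hμa x
  refine ⟨(UniversalEnvelopingAlgebra.ι F : L →ₗ⁅F⁆ UniversalEnvelopingAlgebra F L).toLinearMap,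
    (β.toLinearMap.comp e.symm.toLinearMap).comp
      (UniversalEnvelopingAlgebra.ι F : H →ₗ⁅F⁆ UniversalEnvelopingAlgebra F H).toLinearMap, εL,
    ⟨⟨AlgEquiv.refl, fun x => rfl⟩, hεL⟩, ⟨⟨e.symm.trans β, fun x => rfl⟩, fun y => ?_⟩⟩
  change εL (Bc_shift μ hμ (e.symm (UniversalEnvelopingAlgebra.ι F y))) = 0
  have h1 := congrArg (fun g => g (e.symm (UniversalEnvelopingAlgebra.ι F y))) hεβ
  simp only [AlgHom.comp_apply] at h1
  rw [h1]
  change εH (e (e.symm (UniversalEnvelopingAlgebra.ι F y))) = 0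
  rw [AlgEquiv.apply_symm_apply, hεH]

end EL
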