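import Pool.Agent.Lib.MP_a5a771_al.Defs

/-!
# A common eigenvector

PROOF. Let `f = P₁ ξ`, `ξ = ∑ u_k ⊗ v_k` with `r` terms, `r` minimal, so the `u_k` are linearly independent, and so are the `v_k`; `r ≥ 1`. For `x ∈ W₁` the
hypothesis and `l₁, m₁` give `(act x ⊗ 1) ξ = (1 ⊗ act x) ξ`. So `∑ u_k ⊗ act x v_k` lies in `V ⊗ N`, `N = span (v_k)`, and `act x v_k ∈ N` because the `u_k` are independent. So
`N` is stable under `act x`, `x ∈ W₁`, hence under `act a` for all `a` (`hW₁`). So `S = {mu a f : a ∈ A}` is contained in the image of `(span u_k) ⊗ N`: a finite-dimensional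
nonzero subspace of `E`, stable under the commuting operators `mu a`. Commuting operators on a nonzero finite-dimensional space over an algebraically
closed field have a common eigenvector (take a minimal nonzero stable subspace, Mathlib: `Module.End.exists_eigenvalue`, eigenspaces are stable), and
`a ↦` eigenvalue is an algebra homomorphism.
-/

set_option autoImplicit false

namespace EL

open scoped TensorProduct

/-- the coordinate of a tensor at a basis vector -/
private noncomputable def Eig_ci {F V ι : Type*} [Field F] [AddCommGroup V] [Module F V]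
    (b : Module.Basis ι F V) (i : ι) : V ⊗[F] V →ₗ[F] V :=
  (TensorProduct.lid F V).toLinearMap ∘ₗ LinearMap.rTensor V (b.coord i)

private theorem Eig_ci_tmul {F V ι : Type*} [Field F] [AddCommGroup V] [Module F V]
    (b : Module.Basis ι F V) (i : ι) (v w : V) : Eig_ci b i (v ⊗ₜ w) = b.repr v i • w := by
  simp [Eig_ci]

private theorem Eig_ci_l {F V ι : Type*} [Field F] [AddCommGroup V] [Module F V]
    (b : Module.Basis ι F V) (i : ι) (g : V →ₗ[F] V) (ζ : V ⊗[F] V) :
    Eig_ci b i (LinearMap.lTensor V g ζ) = g (Eig_ci b i ζ) := by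
  induction ζ using TensorProduct.induction_on with
  | zero => simp
  | tmul v w => rw [LinearMap.lTensor_tmul, Eig_ci_tmul, Eig_ci_tmul, map_smul]
  | add x y hx hy => rw [map_add, map_add, hx, hy, map_add, map_add]

/-- a finite-dimensional subspace of `V`, stable under `A`, in which the right components lie -/
private theorem Eig_fin {F A V : Type*} [Field F] [CommRing A] [Algebra F A]
    [AddCommGroup V] [Module F V] (act : A →ₐ[F] Module.End F V)
    (W₁ : Set A) (hW₁ : Algebra.adjoin F W₁ = ⊤) (ξ : V ⊗[F] V)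
    (h : ∀ x ∈ W₁, LinearMap.lTensor V (act x) ξ = LinearMap.rTensor V (act x) ξ) :
    ∃ (s : Finset V) (N : Submodule F V), FiniteDimensional F N ∧ (∀ a, ∀ n ∈ N, act a n ∈ N) ∧
      ∃ c : V → V, (∀ v, c v ∈ N) ∧ ξ = ∑ v ∈ s, v ⊗ₜ[F] c v := by
  classical
  obtain ⟨c, hc⟩ := TensorProduct.eq_repr_basis_left (Module.Basis.ofVectorSpace F V) ξ
  set b := Module.Basis.ofVectorSpace F V with hb
  have hcoord : ∀ i, Eig_ci b i ξ = c i := by
    intro i
    rw [← hc, Finsupp.sum, map_sum]
    have h1 : ∀ j ∈ c.support, Eig_ci b i (b j ⊗ₜ[F] c j) = if j = i then c i else 0 := by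
      intro j _
      rw [Eig_ci_tmul, b.repr_self, Finsupp.single_apply]
      split_ifs with h2
      · rw [h2, one_smul]
      · rw [zero_smul]
    rw [Finset.sum_congr rfl h1, Finset.sum_ite_eq']
    split_ifs with h3
    · rfl
    · exact (Finsupp.notMem_support_iff.mp h3).symm
  set N : Submodule F V := Submodule.span F (Set.range c) with hN
  have hcN : ∀ i, c i ∈ N := fun i => Submodule.subset_span ⟨i, rfl⟩
  have hNfin : FiniteDimensional F N := FiniteDimensional.span_of_finite F c.finite_range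
  have hst1 : ∀ x ∈ W₁, ∀ n ∈ N, act x n ∈ N := by
    intro x hx n hn
    induction hn using Submodule.span_induction with
    | mem y hy =>
      obtain ⟨i, rfl⟩ := hy
      have h1 : act x (c i) = Eig_ci b i (LinearMap.rTensor V (act x) ξ) := by
        rw [← h x hx, Eig_ci_l, hcoord]
      rw [h1, ← hc, Finsupp.sum, map_sum, map_sum]
      refine Submodule.sum_mem _ fun j _ => ?_
      rw [LinearMap.rTensor_tmul, Eig_ci_tmul]
      exact Submodule.smul_mem _ _ (hcN j)
    | zero => rw [map_zero]; exact Submodule.zero_mem _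
    | add y z _ _ hy hz => rw [map_add]; exact Submodule.add_mem _ hy hz
    | smul r y _ hy => rw [map_smul]; exact Submodule.smul_mem _ _ hy
  have hst : ∀ a, ∀ n ∈ N, act a n ∈ N := by
    intro a
    have ha : a ∈ Algebra.adjoin F W₁ := by rw [hW₁]; exact Algebra.mem_top
    induction ha using Algebra.adjoin_induction with
    | mem x hx => exact hst1 x hx
    | algebraMap r =>
      intro n hn
      rw [AlgHom.commutes, Module.algebraMap_end_apply]
      exact Submodule.smul_mem _ _ hn
    | add x y _ _ hx hy =>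
      intro n hn
      rw [map_add, LinearMap.add_apply]
      exact Submodule.add_mem _ (hx n hn) (hy n hn)
    | mul x y _ _ hx hy =>
      intro n hn
      rw [map_mul, Module.End.mul_apply]
      exact hx _ (hy n hn)
  refine ⟨c.support.image b, N, hNfin, hst, fun v => if hv : ∃ i, b i = v then c hv.choose else 0, ?_, ?_⟩
  · intro v
    dsimp only
    split_ifs with hv
    · exact hcN _
    · exact Submodule.zero_mem _
  · have hinj : Function.Injective b := b.injective
    rw [Finset.sum_image (fun _ _ _ _ h => hinj h)]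
    conv_lhs => rw [← hc]
    rw [Finsupp.sum]
    refine Finset.sum_congr rfl fun i _ => ?_
    have hv : ∃ j, b j = b i := ⟨i, rfl⟩
    show b i ⊗ₜ[F] c i = b i ⊗ₜ[F] (if hv : ∃ j, b j = b i then c hv.choose else 0)
    rw [dif_pos hv, hinj hv.choose_spec]

/-- commuting operators: a common eigenvector in a cyclic finite-dimensional submodule -/
private theorem Eig_common {F A E : Type*} [Field F] [IsAlgClosed F] [CommRing A] [Algebra F A]
    [AddCommGroup E] [Module F E] (mu : A →ₐ[F] Module.End F E) (f : E) (hf : f ≠ 0)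
    (T : Submodule F E) (hT : FiniteDimensional F T) (hfT : ∀ a, mu a f ∈ T) :
    ∃ (c : A) (χ : A →ₐ[F] F), mu c f ≠ 0 ∧ ∀ a, mu a (mu c f) = χ a • mu c f := by
  classical
  -- cyclic submodules
  let L : E → (A →ₗ[F] E) := fun g => (LinearMap.applyₗ g).comp mu.toLinearMap
  have hL : ∀ g a, L g a = mu a g := fun _ _ => rfl
  have hcomm : ∀ a b g, mu a (mu b g) = mu b (mu a g) := by
    intro a b g
    rw [← Module.End.mul_apply, ← Module.End.mul_apply, ← map_mul, ← map_mul, mul_comm]
  have hmul : ∀ a b g, mu (a * b) g = mu a (mu b g) := by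
    intro a b g
    rw [map_mul, Module.End.mul_apply]
  have hex : ∃ n : ℕ, ∃ c : A, mu c f ≠ 0 ∧ Module.finrank F (LinearMap.range (L (mu c f))) = n :=
    ⟨_, 1, by rw [map_one]; exact hf, rfl⟩
  obtain ⟨c, hc0, hcn⟩ := Nat.find_spec hex
  have hmin : ∀ c' : A, mu c' f ≠ 0 → Module.finrank F (LinearMap.range (L (mu c f))) ≤
      Module.finrank F (LinearMap.range (L (mu c' f))) := by
    intro c' hc'
    rw [hcn]
    exact Nat.find_min' hex ⟨c', hc', rfl⟩
  set g := mu c f with hg
  have hle : LinearMap.range (L g) ≤ T := by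
    rintro _ ⟨a, rfl⟩
    rw [hL, hg, ← hmul]
    exact hfT _
  have hfd : FiniteDimensional F (LinearMap.range (L g)) := Submodule.finiteDimensional_of_le hle
  have hgmem : g ∈ LinearMap.range (L g) := ⟨1, by rw [hL, map_one]; rfl⟩
  have hnt : Nontrivial (LinearMap.range (L g)) := ⟨⟨⟨g, hgmem⟩, 0, fun h => hc0 (by
    have := congrArg Subtype.val h
    exact this)⟩⟩
  have heig : ∀ a : A, ∃ r : F, mu a g = r • g := by
    intro a
    have hmaps : ∀ y ∈ LinearMap.range (L g), mu a y ∈ LinearMap.range (L g) := by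
      rintro _ ⟨a', rfl⟩
      exact ⟨a * a', by rw [hL, hL, hmul]⟩
    obtain ⟨r, hr⟩ := Module.End.exists_eigenvalue ((mu a).restrict hmaps)
    obtain ⟨⟨y, hy⟩, hy1⟩ := hr.exists_hasEigenvector
    have hy2 : mu a y = r • y := by
      have h1 := hy1.apply_eq_smul
      exact congrArg Subtype.val h1
    have hy0 : y ≠ 0 := fun h0 => hy1.2 (Subtype.ext h0)
    obtain ⟨a', ha'⟩ := hy
    have hya : y = mu (a' * c) f := by rw [hmul, ← hg, ← ha', hL]
    have hsub : LinearMap.range (L y) ≤ LinearMap.range (L g) := by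
      rintro _ ⟨a'', rfl⟩
      exact ⟨a'' * a', by rw [hL, hL, hmul, ← ha', hL]⟩
    have heq : LinearMap.range (L y) = LinearMap.range (L g) := by
      refine Submodule.eq_of_le_of_finrank_le hsub ?_
      have h2 := hmin (a' * c) (by rw [← hya]; exact hy0)
      rw [← hya] at h2
      exact h2
    have h3 : g ∈ LinearMap.range (L y) := by rw [heq]; exact hgmem
    obtain ⟨a'', ha''⟩ := h3
    refine ⟨r, ?_⟩
    rw [← ha'', hL, hcomm, hy2, map_smul]
  choose χ hχ using heig
  have huniq : ∀ r r' : F, r • g = r' • g → r = r' := by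
    intro r r' h
    exact smul_left_injective F hc0 h
  refine ⟨c, AlgHom.mk (RingHom.mk (MonoidHom.mk (OneHom.mk χ ?_) ?_) ?_ ?_) ?_, hc0, fun a => ?_⟩
  · apply huniq
    rw [← hχ, map_one, one_smul]
    rfl
  · intro x y
    apply huniq
    show χ (x * y) • g = (χ x * χ y) • g
    rw [← hχ, hmul, hχ, map_smul, hχ, smul_smul, mul_comm]
  · apply huniq
    show χ 0 • g = (0 : F) • g
    rw [← hχ, map_zero, zero_smul, LinearMap.zero_apply]
  · intro x y
    apply huniq
    show χ (x + y) • g = (χ x + χ y) • g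
    rw [← hχ, map_add, LinearMap.add_apply, hχ, hχ, add_smul]
  · intro r
    apply huniq
    show χ (algebraMap F A r) • g = (algebraMap F F r) • g
    rw [← hχ, AlgHom.commutes, Module.algebraMap_end_apply]
    rfl
  · exact hχ a

theorem eig {F A E V : Type*} [Field F] [IsAlgClosed F] [CommRing A] [Algebra F A] [AddCommGroup E] [Module F E]
    [AddCommGroup V] [Module F V] (lam mu : A →ₐ[F] Module.End F E) (act : A →ₐ[F] Module.End F V)
    (P₁ : V ⊗[F] V ≃ₗ[F] E) (W₁ : Set A) (hW₁ : Algebra.adjoin F W₁ = ⊤)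
    (m₁ : ∀ a v w, mu a (P₁ (v ⊗ₜ w)) = P₁ (v ⊗ₜ act a w))
    (l₁ : ∀ x ∈ W₁, ∀ v w, lam x (P₁ (v ⊗ₜ w)) = P₁ (act x v ⊗ₜ w) + P₁ (v ⊗ₜ act x w))
    (f : E) (hf : f ≠ 0) (h : ∀ x ∈ W₁, (2 : F) • mu x f = lam x f) :
    ∃ (c : A) (χ : A →ₐ[F] F), mu c f ≠ 0 ∧ ∀ a, mu a (mu c f) = χ a • mu c f := by
  classical
  obtain ⟨ξ, hξ⟩ : ∃ ξ, P₁ ξ = f := ⟨P₁.symm f, P₁.apply_symm_apply f⟩
  have hm : ∀ a ζ, mu a (P₁ ζ) = P₁ (LinearMap.lTensor V (act a) ζ) := by
    intro a ζ
    induction ζ using TensorProduct.induction_on with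
    | zero => simp
    | tmul v w => rw [m₁, LinearMap.lTensor_tmul]
    | add x y hx hy => rw [map_add, map_add, hx, hy, map_add, map_add]
  have hl : ∀ x ∈ W₁, ∀ ζ, lam x (P₁ ζ) =
      P₁ (LinearMap.rTensor V (act x) ζ) + P₁ (LinearMap.lTensor V (act x) ζ) := by
    intro x hx ζ
    induction ζ using TensorProduct.induction_on with
    | zero => simp
    | tmul v w => rw [l₁ x hx, LinearMap.lTensor_tmul, LinearMap.rTensor_tmul]
    | add y z hy hz =>
      rw [map_add, map_add, hy, hz, map_add, map_add, map_add, map_add]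
      abel
  have hrel : ∀ x ∈ W₁, LinearMap.lTensor V (act x) ξ = LinearMap.rTensor V (act x) ξ := by
    intro x hx
    have h1 := h x hx
    rw [← hξ, hm, hl x hx, two_smul] at h1
    exact P₁.injective (add_right_cancel h1)
  obtain ⟨s, N, hNfin, hst, c, hcN, hsum⟩ := Eig_fin act W₁ hW₁ ξ hrel
  let T : Submodule F E := s.sup fun v => N.map (P₁.toLinearMap ∘ₗ TensorProduct.mk F V V v)
  have hTfin : FiniteDimensional F T := Submodule.finiteDimensional_finset_sup s _
  refine Eig_common mu f hf T hTfin fun a => ?_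
  rw [← hξ, hm, hsum, map_sum, map_sum]
  refine Submodule.sum_mem _ fun v hv => ?_
  have h2 : N.map (P₁.toLinearMap ∘ₗ TensorProduct.mk F V V v) ≤ T :=
    Finset.le_sup (f := fun v => N.map (P₁.toLinearMap ∘ₗ TensorProduct.mk F V V v)) hv
  refine h2 ⟨act a (c v), hst a _ (hcN v), ?_⟩
  rw [LinearMap.lTensor_tmul]
  rfl

end EL
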