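import Pool.Agent.Lib.MP_a5a771_al.Defs

/-!
# No symmetric-antisymmetric common eigenvector

PROOF. `Y = {v | ∀ a, act a v = χ a • v}`. (1) `f = P₁ ξ` with `ξ` in the image of `Y ⊗ Y`: write `ξ = ∑ u_k ⊗ v_k` with linearly independent `u_k`: `mu a f = χ a f` gives
`act a v_k = χ a v_k`; with linearly independent `v_k`: `lam x f = 2 χ x f` and `l₁, m₁` give `act x u_k = χ x u_k` for `x ∈ W₁`, hence for all `a` (`hW₁`). The same with `P₂`.
In particular `Y ≠ 0`; fix `0 ≠ y₀ ∈ Y`.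
(2) Define `g v = ∑ χ (a k) • x k` with `r₁`; it is a linear map `g : V → V` (well defined and linear because `P₁ (v ⊗ y₀) = P₂ (g v ⊗ y₀)` and `v ↦ P₂ (v ⊗ y₀)` is
injective), and `P₁ (v ⊗ y) = P₂ (g v ⊗ y)` for ALL `v ∈ V`, `y ∈ Y` (`r₁` with `act (a k) y = χ (a k) • y`). Similarly `h` with `P₂ (v ⊗ y) = P₁ (h v ⊗ y)`; `g h = h g = 1`.
(3) `g` and `h` map `Y` into `Y`: there is an algebra homomorphism `ψ : A → F` with `lam a f = ψ a • f` (`lam x f = 2 χ x f` for `x ∈ W₁` and `hW₁`), `ψ x = 2 χ x` on `W₁` and on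
`W₂`. For `v, y ∈ Y` the element `P₁ (v ⊗ y)` satisfies `lam x e = 2 χ x e` for `x ∈ W₁`, so `lam a e = ψ a e` for all `a`; with `e = P₂ (g v ⊗ y)`, `l₂` and `a ∈ W₂`:
`act a (g v) ⊗ y + χ a (g v ⊗ y) = 2 χ a (g v ⊗ y)`, so `act a (g v) = χ a (g v)` for `a ∈ W₂`, hence for all `a`.
(4) For `u, v ∈ Y`: `tau P₂ (P₁ (u ⊗ v)) = tau P₂ (P₂ (g u ⊗ v)) = P₂ (v ⊗ g u) = P₁ (h v ⊗ g u)`. `hcond` with `e = P₁ (u ⊗ v)` gives
`u ⊗ v - v ⊗ u + h v ⊗ g u - h u ⊗ g v = 0`. Put `v = g u`: `2 (u ⊗ g u) - g u ⊗ u = h u ⊗ g (g u)`. If `u, g u` are linearly independent the left side is not a pure tensor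
(`2 ≠ 0`; apply linear forms): contradiction. So every `u ∈ Y` is an eigenvector of `g`, and `g = c` on `Y`
(`LinearMap.exists_eq_smul_id_of_forall_notLinearIndependent` or by hand), `c ≠ 0`, `h = 1 / c`. So `tau P₂ (P₁ (u ⊗ v)) = P₁ (v ⊗ u) = tau P₁ (P₁ (u ⊗ v))` on `Y ⊗ Y`, and
`- f = tau P₂ f = tau P₁ f = f`, `2 f = 0`: contradiction.
-/

set_option autoImplicit false

namespace EL

open scoped TensorProduct


private lemma fc_right {F V : Type*} [Field F] [AddCommGroup V] [Module F V] (ξ : V ⊗[F] V) (Y : Submodule F V)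
    (S : Set (Module.End F V)) (hY : ∀ v, (∀ D ∈ S, D v = 0) → v ∈ Y) (hD : ∀ D ∈ S, D.rTensor V ξ = 0)
    (π : Module.End F V) (hπ : ∀ y ∈ Y, π y = y) : π.rTensor V ξ = ξ := by
  classical
  set b := Module.Basis.ofVectorSpace F V
  obtain ⟨u, rfl⟩ := TensorProduct.eq_repr_basis_right b ξ
  have hu : ∀ i, u i ∈ Y := by
    intro i
    apply hY
    intro D hDS
    have h1 := hD D hDS
    rw [map_finsuppSum] at h1
    simp only [LinearMap.rTensor_tmul] at h1
    have h2 : (u.mapRange D (map_zero D)).sum (fun i m => m ⊗ₜ[F] b i) = 0 := by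
      rw [Finsupp.sum_mapRange_index (h := fun i m => m ⊗ₜ[F] b i) (fun a => TensorProduct.zero_tmul _ _)]
      exact h1
    have h3 := TensorProduct.sum_tmul_basis_right_eq_zero b _ h2
    have h4 := DFunLike.congr_fun h3 i
    simpa using h4
  rw [map_finsuppSum]
  simp only [LinearMap.rTensor_tmul]
  refine Finsupp.sum_congr (fun i _ => ?_)
  rw [hπ _ (hu i)]

private lemma fc_left {F V : Type*} [Field F] [AddCommGroup V] [Module F V] (ξ : V ⊗[F] V) (Y : Submodule F V)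
    (S : Set (Module.End F V)) (hY : ∀ v, (∀ D ∈ S, D v = 0) → v ∈ Y) (hD : ∀ D ∈ S, D.lTensor V ξ = 0)
    (π : Module.End F V) (hπ : ∀ y ∈ Y, π y = y) : π.lTensor V ξ = ξ := by
  classical
  set b := Module.Basis.ofVectorSpace F V
  obtain ⟨u, rfl⟩ := TensorProduct.eq_repr_basis_left b ξ
  have hu : ∀ i, u i ∈ Y := by
    intro i
    apply hY
    intro D hDS
    have h1 := hD D hDS
    rw [map_finsuppSum] at h1
    simp only [LinearMap.lTensor_tmul] at h1
    have h2 : (u.mapRange D (map_zero D)).sum (fun i m => b i ⊗ₜ[F] m) = 0 := by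
      rw [Finsupp.sum_mapRange_index (h := fun i m => b i ⊗ₜ[F] m) (fun a => TensorProduct.tmul_zero _ _)]
      exact h1
    have h3 := TensorProduct.sum_tmul_basis_left_eq_zero b _ h2
    have h4 := DFunLike.congr_fun h3 i
    simpa using h4
  rw [map_finsuppSum]
  simp only [LinearMap.lTensor_tmul]
  refine Finsupp.sum_congr (fun i _ => ?_)
  rw [hπ _ (hu i)]

private lemma fc_adj {F A V : Type*} [Field F] [CommRing A] [Algebra F A] [AddCommGroup V] [Module F V]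
    (act : A →ₐ[F] Module.End F V) (W : Set A) (hW : Algebra.adjoin F W = ⊤) (χ : A →ₐ[F] F) (v : V)
    (h : ∀ x ∈ W, act x v = χ x • v) (a : A) : act a v = χ a • v := by
  have ha : a ∈ Algebra.adjoin F W := by rw [hW]; trivial
  induction ha using Algebra.adjoin_induction with
  | mem x hx => exact h x hx
  | algebraMap r => simp [Algebra.algebraMap_eq_smul_one]
  | add x y _ _ hx hy => rw [map_add, map_add, LinearMap.add_apply, hx, hy, add_smul]
  | mul x y _ _ hx hy =>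
    rw [map_mul, map_mul, Module.End.mul_apply, hy, map_smul, hx, smul_smul, mul_comm]

private lemma fc_psi {F A E : Type*} [Field F] [CommRing A] [Algebra F A] [AddCommGroup E] [Module F E]
    (lam : A →ₐ[F] Module.End F E) (W W' : Set A) (hW : Algebra.adjoin F W = ⊤) (χ : A →ₐ[F] F) (f : E) (hf : f ≠ 0)
    (hl : ∀ x ∈ W, lam x f = (2 * χ x) • f) (hl' : ∀ x ∈ W', lam x f = (2 * χ x) • f) (e : E)
    (he : ∀ x ∈ W, lam x e = (2 * χ x) • e) (x : A) (hx : x ∈ W') : lam x e = (2 * χ x) • e := by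
  have key : ∀ a : A, ∃ c : F, lam a f = c • f ∧ lam a e = c • e := by
    intro a
    have ha : a ∈ Algebra.adjoin F W := by rw [hW]; trivial
    induction ha using Algebra.adjoin_induction with
    | mem x hx => exact ⟨2 * χ x, hl x hx, he x hx⟩
    | algebraMap r => exact ⟨r, by simp [Algebra.algebraMap_eq_smul_one], by simp [Algebra.algebraMap_eq_smul_one]⟩
    | add x y _ _ hx hy =>
      obtain ⟨c, h1, h2⟩ := hx
      obtain ⟨d, h3, h4⟩ := hy
      exact ⟨c + d, by rw [map_add, LinearMap.add_apply, h1, h3, add_smul], by rw [map_add, LinearMap.add_apply, h2, h4, add_smul]⟩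
    | mul x y _ _ hx hy =>
      obtain ⟨c, h1, h2⟩ := hx
      obtain ⟨d, h3, h4⟩ := hy
      exact ⟨c * d, by rw [map_mul, Module.End.mul_apply, h3, map_smul, h1, smul_smul, mul_comm],
        by rw [map_mul, Module.End.mul_apply, h4, map_smul, h2, smul_smul, mul_comm]⟩
  obtain ⟨c, h1, h2⟩ := key x
  have h3 : c = 2 * χ x := by
    have h4 := hl' x hx
    rw [h1] at h4
    exact smul_left_injective F hf h4
  rw [h2, h3]

private lemma fc_indep {F V : Type*} [Field F] (h2 : (2 : F) ≠ 0) [AddCommGroup V] [Module F V] (u g hu k : V)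
    (hind : LinearIndependent F ![u, g]) (h : u ⊗ₜ[F] g + u ⊗ₜ[F] g - g ⊗ₜ[F] u = hu ⊗ₜ[F] k) : False := by
  classical
  have hinj : Function.Injective (Fintype.linearCombination F ![u, g]) := hind.fintypeLinearCombination_injective
  obtain ⟨L, hL⟩ := (Fintype.linearCombination F ![u, g]).exists_leftInverse_of_injective (LinearMap.ker_eq_bot.mpr hinj)
  have hLu : L u = Pi.single 0 1 := by
    have := LinearMap.congr_fun hL (Pi.single 0 1)
    simpa [Fintype.linearCombination_apply_single] using this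
  have hLg : L g = Pi.single 1 1 := by
    have := LinearMap.congr_fun hL (Pi.single 1 1)
    simpa [Fintype.linearCombination_apply_single] using this
  obtain ⟨α, hα⟩ : ∃ α : V →ₗ[F] F, α u = 1 ∧ α g = 0 := by
    refine ⟨(LinearMap.proj 0).comp L, ?_, ?_⟩
    · rw [LinearMap.comp_apply, hLu]
      simp
    · rw [LinearMap.comp_apply, hLg]
      simp
  obtain ⟨β, hβ⟩ : ∃ β : V →ₗ[F] F, β u = 0 ∧ β g = 1 := by
    refine ⟨(LinearMap.proj 1).comp L, ?_, ?_⟩
    · rw [LinearMap.comp_apply, hLu]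
      simp
    · rw [LinearMap.comp_apply, hLg]
      simp
  have e1 := congrArg (fun z => TensorProduct.lid F V (α.rTensor V z)) h
  have e2 := congrArg (fun z => TensorProduct.lid F V (β.rTensor V z)) h
  simp only [map_sub, map_add, LinearMap.rTensor_tmul, TensorProduct.lid_tmul, hα.1, hα.2, hβ.1, hβ.2, one_smul, zero_smul,
    sub_zero, add_zero, zero_sub] at e1 e2
  -- e1 : g + g = α hu • k ; e2 : - u = β hu • k
  have h5 := LinearIndependent.pair_iff.mp hind (- α hu) (- (β hu + β hu)) (by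
    have h6 : (β hu) • (g + g) = (β hu * α hu) • k := by rw [e1, smul_smul]
    have h7 : (α hu) • (- u) = (β hu * α hu) • k := by rw [e2, smul_smul, mul_comm]
    have h8 : (β hu) • (g + g) = (α hu) • (- u) := by rw [h6, h7]
    rw [smul_add, smul_neg] at h8
    rw [neg_smul, neg_smul, add_smul, h8]
    abel)
  have h9 : β hu = 0 := by
    have h10 : (2 : F) * β hu = 0 := by
      have := h5.2
      linear_combination - this
    rcases mul_eq_zero.mp h10 with h | h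
    · exact absurd h h2
    · exact h
  rw [h9, zero_smul] at e2
  have h11 : u = 0 := neg_eq_zero.mp e2
  exact hind.ne_zero 0 (by simpa using h11)

theorem fc {F A E V : Type*} [Field F] (h2 : (2 : F) ≠ 0) [CommRing A] [Algebra F A] [AddCommGroup E] [Module F E]
    [AddCommGroup V] [Module F V] (lam mu : A →ₐ[F] Module.End F E) (act : A →ₐ[F] Module.End F V)
    (P₁ P₂ : V ⊗[F] V ≃ₗ[F] E) (W₁ W₂ : Set A) (hW₁ : Algebra.adjoin F W₁ = ⊤) (hW₂ : Algebra.adjoin F W₂ = ⊤)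
    (m₁ : ∀ a v w, mu a (P₁ (v ⊗ₜ w)) = P₁ (v ⊗ₜ act a w)) (m₂ : ∀ a v w, mu a (P₂ (v ⊗ₜ w)) = P₂ (v ⊗ₜ act a w))
    (l₁ : ∀ x ∈ W₁, ∀ v w, lam x (P₁ (v ⊗ₜ w)) = P₁ (act x v ⊗ₜ w) + P₁ (v ⊗ₜ act x w))
    (l₂ : ∀ x ∈ W₂, ∀ v w, lam x (P₂ (v ⊗ₜ w)) = P₂ (act x v ⊗ₜ w) + P₂ (v ⊗ₜ act x w))
    (r₁ : ∀ v, ∃ (n : ℕ) (a : Fin n → A) (x : Fin n → V), ∀ w, P₁ (v ⊗ₜ w) = ∑ k, P₂ (x k ⊗ₜ act (a k) w))
    (r₂ : ∀ v, ∃ (n : ℕ) (a : Fin n → A) (x : Fin n → V), ∀ w, P₂ (v ⊗ₜ w) = ∑ k, P₁ (x k ⊗ₜ act (a k) w))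
    (hcond : ∀ e, (e - tau P₁ e) + tau P₂ (e - tau P₁ e) = 0) (χ : A →ₐ[F] F) (f : E)
    (f₁ : tau P₁ f = f) (f₂ : tau P₂ f = -f) (hmu : ∀ a, mu a f = χ a • f)
    (hl₁ : ∀ x ∈ W₁, lam x f = (2 * χ x) • f) (hl₂ : ∀ x ∈ W₂, lam x f = (2 * χ x) • f) : f = 0 := by
  classical
  by_contra hf
  set ξ : V ⊗[F] V := P₁.symm f with hξ
  have hξf : P₁ ξ = f := by rw [hξ, LinearEquiv.apply_symm_apply]
  have hξ0 : ξ ≠ 0 := by
    intro h
    apply hf
    rw [← hξf, h, map_zero]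
  let Y : Submodule F V :=
    { carrier := {v | ∀ a, act a v = χ a • v}
      add_mem' := by
        intro u v hu hv a
        rw [map_add, hu a, hv a, smul_add]
      zero_mem' := by
        intro a
        rw [map_zero, smul_zero]
      smul_mem' := by
        intro c v hv a
        rw [map_smul, hv a, smul_comm] }
  have hYdef : ∀ v, v ∈ Y ↔ ∀ a, act a v = χ a • v := fun v => Iff.rfl
  obtain ⟨p, hp1, hp2⟩ : ∃ p : Module.End F V, (∀ v, p v ∈ Y) ∧ ∀ y ∈ Y, p y = y := by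
    obtain ⟨q, hq⟩ := Y.subtype.exists_leftInverse_of_injective (Submodule.ker_subtype Y)
    refine ⟨Y.subtype.comp q, fun v => ?_, fun y hy => ?_⟩
    · exact (q v).2
    · have := LinearMap.congr_fun hq ⟨y, hy⟩
      simp only [LinearMap.comp_apply, LinearMap.id_apply, Submodule.subtype_apply] at this
      simp only [LinearMap.comp_apply, Submodule.subtype_apply]
      rw [this]
  -- the right factor
  have hleft : p.lTensor V ξ = ξ := by
    refine fc_left ξ Y {D | ∃ a, D = act a - χ a • 1} ?_ ?_ p hp2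
    · intro v hv a
      have := hv _ ⟨a, rfl⟩
      simpa [sub_eq_zero] using this
    · rintro D ⟨a, rfl⟩
      have h1 : (mu a).comp P₁.toLinearMap = P₁.toLinearMap.comp ((act a).lTensor V) := by
        apply TensorProduct.ext'
        intro v w
        simp [m₁]
      have h3 : P₁ ((act a).lTensor V ξ) = P₁ (χ a • ξ) := by
        have h2 := LinearMap.congr_fun h1 ξ
        simp only [LinearMap.comp_apply, LinearEquiv.coe_coe] at h2
        rw [← h2, hξf, hmu a, map_smul, hξf]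
      have h4 := P₁.injective h3
      rw [LinearMap.lTensor_sub, LinearMap.sub_apply, h4, LinearMap.lTensor_smul, LinearMap.smul_apply]
      have h5 : (1 : Module.End F V).lTensor V ξ = ξ := by
        have : (1 : Module.End F V) = LinearMap.id := rfl
        rw [this, LinearMap.lTensor_id, LinearMap.id_apply]
      rw [h5, sub_self]
  have hright : p.rTensor V ξ = ξ := by
    refine fc_right ξ Y {D | ∃ x ∈ W₁, D = act x - χ x • 1} ?_ ?_ p hp2
    · intro v hv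
      refine fc_adj act W₁ hW₁ χ v ?_
      intro x hx
      have := hv _ ⟨x, hx, rfl⟩
      simpa [sub_eq_zero] using this
    · rintro D ⟨x, hx, rfl⟩
      have h1 : (lam x).comp P₁.toLinearMap = P₁.toLinearMap.comp ((act x).rTensor V + (act x).lTensor V) := by
        apply TensorProduct.ext'
        intro v w
        simp [l₁ x hx]
      have h0 : (mu x).comp P₁.toLinearMap = P₁.toLinearMap.comp ((act x).lTensor V) := by
        apply TensorProduct.ext'
        intro v w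
        simp [m₁]
      have h2 := LinearMap.congr_fun h1 ξ
      have h3 := LinearMap.congr_fun h0 ξ
      simp only [LinearMap.comp_apply, LinearEquiv.coe_coe, LinearMap.add_apply] at h2 h3
      rw [hξf, hl₁ x hx, map_add] at h2
      rw [hξf, hmu x] at h3
      rw [← h3] at h2
      have h4 : P₁ ((act x).rTensor V ξ) = P₁ (χ x • ξ) := by
        rw [map_smul, hξf]
        have : P₁ ((act x).rTensor V ξ) = (2 * χ x) • f - χ x • f := by rw [h2]; abel
        rw [this, two_mul, add_smul]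
        abel
      have h5 := P₁.injective h4
      rw [LinearMap.rTensor_sub, LinearMap.sub_apply, h5, LinearMap.rTensor_smul, LinearMap.smul_apply]
      have h6 : (1 : Module.End F V).rTensor V ξ = ξ := by
        have : (1 : Module.End F V) = LinearMap.id := rfl
        rw [this, LinearMap.rTensor_id, LinearMap.id_apply]
      rw [h6, sub_self]
  -- a nonzero element of `Y`
  obtain ⟨y₀, hy₀, hy₀0⟩ : ∃ y ∈ Y, y ≠ 0 := by
    by_contra hno
    push Not at hno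
    apply hξ0
    rw [← hright]
    have : p = 0 := LinearMap.ext fun v => hno _ (hp1 v)
    rw [this, LinearMap.rTensor_zero, LinearMap.zero_apply]
  obtain ⟨ℓ, hℓ⟩ : ∃ ℓ : V →ₗ[F] F, ℓ y₀ = 1 := by
    obtain ⟨ℓ, hℓ⟩ := (LinearMap.toSpanSingleton F V y₀).exists_leftInverse_of_injective
      (LinearMap.ker_eq_bot.mpr (smul_left_injective F hy₀0))
    refine ⟨ℓ, ?_⟩
    have := LinearMap.congr_fun hℓ 1
    simpa using this
  let ρ : V ⊗[F] V →ₗ[F] V := (TensorProduct.rid F V).toLinearMap.comp (ℓ.lTensor V)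
  have hρ : ∀ v w, ρ (v ⊗ₜ w) = ℓ w • v := fun v w => by simp [ρ]
  have hinj : ∀ v v' : V, v ⊗ₜ[F] y₀ = v' ⊗ₜ[F] y₀ → v = v' := by
    intro v v' h
    have := congrArg ρ h
    rwa [hρ, hρ, hℓ, one_smul, one_smul] at this
  have mkg : ∀ Q₁ Q₂ : V ⊗[F] V ≃ₗ[F] E,
      (∀ v, ∃ (n : ℕ) (a : Fin n → A) (x : Fin n → V), ∀ w, Q₁ (v ⊗ₜ w) = ∑ k, Q₂ (x k ⊗ₜ act (a k) w)) →
      ∃ g : V →ₗ[F] V, ∀ v, ∀ y ∈ Y, Q₁ (v ⊗ₜ y) = Q₂ (g v ⊗ₜ y) := by
    intro Q₁ Q₂ r
    refine ⟨ρ.comp (Q₂.symm.toLinearMap.comp (Q₁.toLinearMap.comp ((TensorProduct.mk F V V).flip y₀))), ?_⟩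
    intro v y hy
    obtain ⟨n, a, x, hax⟩ := r v
    have h1 : ∀ y ∈ Y, Q₁ (v ⊗ₜ y) = Q₂ ((∑ k, χ (a k) • x k) ⊗ₜ y) := by
      intro y hy
      rw [hax y, TensorProduct.sum_tmul, map_sum]
      refine Finset.sum_congr rfl fun k _ => ?_
      rw [hy (a k), TensorProduct.tmul_smul, TensorProduct.smul_tmul']
    rw [h1 y hy]
    have h2 : (ρ.comp (Q₂.symm.toLinearMap.comp (Q₁.toLinearMap.comp ((TensorProduct.mk F V V).flip y₀)))) v
        = ∑ k, χ (a k) • x k := by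
      simp only [LinearMap.comp_apply, LinearEquiv.coe_coe, LinearMap.flip_apply, TensorProduct.mk_apply]
      rw [h1 y₀ hy₀, LinearEquiv.symm_apply_apply, hρ, hℓ, one_smul]
    rw [h2]
  obtain ⟨g, hg⟩ := mkg P₁ P₂ r₁
  obtain ⟨h, hh⟩ := mkg P₂ P₁ r₂
  have hhg : ∀ v, h (g v) = v := by
    intro v
    apply hinj
    apply P₁.injective
    rw [← hh _ _ hy₀, ← hg _ _ hy₀]
  have hgh : ∀ v, g (h v) = v := by
    intro v
    apply hinj
    apply P₂.injective
    rw [← hg _ _ hy₀, ← hh _ _ hy₀]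
  have stab : ∀ (Q₁ Q₂ : V ⊗[F] V ≃ₗ[F] E) (W W' : Set A), Algebra.adjoin F W = ⊤ → Algebra.adjoin F W' = ⊤ →
      (∀ x ∈ W, lam x f = (2 * χ x) • f) → (∀ x ∈ W', lam x f = (2 * χ x) • f) →
      (∀ x ∈ W, ∀ v w, lam x (Q₁ (v ⊗ₜ w)) = Q₁ (act x v ⊗ₜ w) + Q₁ (v ⊗ₜ act x w)) →
      (∀ x ∈ W', ∀ v w, lam x (Q₂ (v ⊗ₜ w)) = Q₂ (act x v ⊗ₜ w) + Q₂ (v ⊗ₜ act x w)) →
      ∀ g : V →ₗ[F] V, (∀ v, ∀ y ∈ Y, Q₁ (v ⊗ₜ y) = Q₂ (g v ⊗ₜ y)) → ∀ v ∈ Y, g v ∈ Y := by
    intro Q₁ Q₂ W W' hW hW' e1 e2 e3 e4 g hg v hv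
    refine fc_adj act W' hW' χ (g v) ?_
    intro x hx
    have h1 : lam x (Q₁ (v ⊗ₜ y₀)) = (2 * χ x) • Q₁ (v ⊗ₜ y₀) := by
      refine fc_psi lam W W' hW χ f hf e1 e2 _ ?_ x hx
      intro x hx
      rw [e3 x hx, hv x, hy₀ x, TensorProduct.tmul_smul, ← TensorProduct.smul_tmul', map_smul, two_mul, add_smul]
    rw [hg v y₀ hy₀, e4 x hx, hy₀ x, TensorProduct.tmul_smul, map_smul, two_mul, add_smul] at h1
    have h2 := add_right_cancel h1
    rw [← map_smul] at h2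
    have h3 := Q₂.injective h2
    rw [TensorProduct.smul_tmul'] at h3
    exact hinj _ _ h3
  have hgY : ∀ v ∈ Y, g v ∈ Y := stab P₁ P₂ W₁ W₂ hW₁ hW₂ hl₁ hl₂ l₁ l₂ g hg
  have hhY : ∀ v ∈ Y, h v ∈ Y := stab P₂ P₁ W₂ W₁ hW₂ hW₁ hl₂ hl₁ l₂ l₁ h hh
  have t1 : ∀ u v, tau P₁ (P₁ (u ⊗ₜ v)) = P₁ (v ⊗ₜ u) := by
    intro u v
    simp [tau]
  have t2 : ∀ u v, tau P₂ (P₂ (u ⊗ₜ v)) = P₂ (v ⊗ₜ u) := by
    intro u v
    simp [tau]
  have t3 : ∀ u ∈ Y, ∀ v ∈ Y, tau P₂ (P₁ (u ⊗ₜ v)) = P₁ (h v ⊗ₜ g u) := by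
    intro u hu v hv
    rw [hg u v hv, t2, hh v (g u) (hgY u hu)]
  have c1 : ∀ u ∈ Y, ∀ v ∈ Y, u ⊗ₜ[F] v - v ⊗ₜ[F] u + (h v ⊗ₜ[F] g u - h u ⊗ₜ[F] g v) = 0 := by
    intro u hu v hv
    apply P₁.injective
    have := hcond (P₁ (u ⊗ₜ v))
    rw [t1, map_sub (tau P₂), t3 u hu v hv, t3 v hv u hu] at this
    rw [map_zero, map_add, map_sub, map_sub, this]
  have c2 : ∀ u ∈ Y, ¬ LinearIndependent F ![u, g u] := by
    intro u hu hind
    have h3 := c1 u hu (g u) (hgY u hu)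
    rw [hhg u] at h3
    refine fc_indep h2 u (g u) (h u) (g (g u)) hind ?_
    rw [← sub_eq_zero]
    rw [← h3]
    abel
  obtain ⟨c, hc⟩ : ∃ c : F, ∀ y ∈ Y, g y = c • y := by
    obtain ⟨c, hc⟩ := LinearMap.exists_eq_smul_id_of_forall_notLinearIndependent (f := g.restrict hgY) (by
      intro v hv
      apply c2 v.1 v.2
      have := hv.map' Y.subtype (Submodule.ker_subtype Y)
      have e : (Y.subtype ∘ ![v, (g.restrict hgY) v]) = ![v.1, g v.1] := by
        funext i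
        fin_cases i <;> simp
      rwa [e] at this)
    refine ⟨c, fun y hy => ?_⟩
    have := congrArg Subtype.val (LinearMap.congr_fun hc ⟨y, hy⟩)
    simpa using this
  have hc0 : c ≠ 0 := by
    intro h0
    apply hy₀0
    rw [← hhg y₀, hc y₀ hy₀, h0, zero_smul, map_zero]
  have hhc : ∀ y ∈ Y, h y = c⁻¹ • y := by
    intro y hy
    have h1 := hhg y
    rw [hc y hy, map_smul] at h1
    rw [← h1, smul_smul, inv_mul_cancel₀ hc0, one_smul, h1]
  have t4 : ∀ u ∈ Y, ∀ v ∈ Y, tau P₂ (P₁ (u ⊗ₜ v)) = tau P₁ (P₁ (u ⊗ₜ v)) := by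
    intro u hu v hv
    rw [t3 u hu v hv, t1, hc u hu, hhc v hv, TensorProduct.smul_tmul_smul, inv_mul_cancel₀ hc0, one_smul]
  have t5 : tau P₂ f = tau P₁ f := by
    have h1 : (tau P₂).comp (P₁.toLinearMap.comp ((p.rTensor V).comp (p.lTensor V)))
        = (tau P₁).comp (P₁.toLinearMap.comp ((p.rTensor V).comp (p.lTensor V))) := by
      apply TensorProduct.ext'
      intro u v
      simp only [LinearMap.comp_apply, LinearMap.lTensor_tmul, LinearMap.rTensor_tmul, LinearEquiv.coe_coe]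
      exact t4 _ (hp1 u) _ (hp1 v)
    have h3 := LinearMap.congr_fun h1 ξ
    simp only [LinearMap.comp_apply, LinearEquiv.coe_coe] at h3
    rw [hleft, hright, hξf] at h3
    exact h3
  rw [f₁, f₂] at t5
  have h3 : (2 : F) • f = 0 := by
    rw [two_smul]
    nth_rewrite 1 [← t5]
    exact neg_add_cancel f
  rcases smul_eq_zero.mp h3 with h | h
  · exact h2 h
  · exact hf h

end EL
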