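import Pool.Agent.Lib.MP_a5a771_al.Ops
import Pool.Agent.Lib.MP_a5a771_al.Eig
import Pool.Agent.Lib.MP_a5a771_al.Fc

/-!
# The core theorem: two flips

PROOF. `t₁ = tau P₁`, `t₂ = tau P₂` are involutions; from `l, m` and generation they commute with `lam` and satisfy `t mu x t = lam x - mu x` on `W`. (i) `f = 0` whenever
`t₁ f = f`, `t₂ f = - f`: otherwise `ops` gives `2 mu x f = lam x f` on `W₁` and `W₂` and `mu a f = lam c f`; `eig` gives `f' = mu c f ≠ 0`, a common eigenvector; `f' = lam b f`, so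
`t₁ f' = f'`, `t₂ f' = - f'`; `lam x f' = mu c (lam x f) = 2 mu x f' = 2 χ x f'` on `W₁`, `W₂`; `fc` gives `f' = 0`. (ii) Let `e ∈ E`, `g = e - t₂ e` and `f = g + t₁ g` (a multiple of
`(1 - P₁) P₂ e`). `t₁ f = f`. By `hcond` for `g`: `g - t₁ g` is antisymmetric for `t₂`, i.e. `t₂ (g - t₁ g) = - (g - t₁ g)`, and `t₂ g = - g`; so `t₂ (t₁ g) = t₂ g - t₂ (g - t₁ g) = - g + g - t₁ g = - t₁ g`
and `t₂ f = - f`. By (i) `f = 0`: `t₁ g = - g`, so `g = e' - t₁ e'` with `e' = g / 2`.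
-/

set_option autoImplicit false

namespace EL

open scoped TensorProduct

private theorem Core_tau {F E V : Type*} [Field F] [AddCommGroup E] [Module F E] [AddCommGroup V] [Module F V]
    (P : V ⊗[F] V ≃ₗ[F] E) (v w : V) : tau P (P (v ⊗ₜ w)) = P (w ⊗ₜ v) := by
  change P (TensorProduct.comm F V V (P.symm (P (v ⊗ₜ w)))) = P (w ⊗ₜ v)
  rw [LinearEquiv.symm_apply_apply, TensorProduct.comm_tmul]

private theorem Core_ind {F E V : Type*} [Field F] [AddCommGroup E] [Module F E] [AddCommGroup V] [Module F V]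
    (P : V ⊗[F] V ≃ₗ[F] E) (s t : E →ₗ[F] E) (h : ∀ v w, s (P (v ⊗ₜ w)) = t (P (v ⊗ₜ w))) (e : E) : s e = t e := by
  have h1 : s.comp P.toLinearMap = t.comp P.toLinearMap := by
    refine TensorProduct.ext' fun v w => ?_
    exact h v w
  have h2 := LinearMap.congr_fun h1 (P.symm e)
  have h3 : P (P.symm e) = e := P.apply_symm_apply e
  have h4 : s (P (P.symm e)) = t (P (P.symm e)) := h2
  rwa [h3] at h4

private theorem Core_inv {F E V : Type*} [Field F] [AddCommGroup E] [Module F E] [AddCommGroup V] [Module F V]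
    (P : V ⊗[F] V ≃ₗ[F] E) (e : E) : tau P (tau P e) = e := by
  have h := Core_ind P ((tau P).comp (tau P)) LinearMap.id (fun v w => by
    rw [LinearMap.comp_apply, Core_tau, Core_tau, LinearMap.id_apply]) e
  exact h

private theorem Core_com {F A E V : Type*} [Field F] [CommRing A] [Algebra F A]
    [AddCommGroup E] [Module F E] [AddCommGroup V] [Module F V] (lam : A →ₐ[F] Module.End F E)
    (act : A →ₐ[F] Module.End F V) (P : V ⊗[F] V ≃ₗ[F] E) (W : Set A) (hW : Algebra.adjoin F W = ⊤)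
    (l : ∀ x ∈ W, ∀ v w, lam x (P (v ⊗ₜ w)) = P (act x v ⊗ₜ w) + P (v ⊗ₜ act x w)) (a : A) (e : E) :
    tau P (lam a e) = lam a (tau P e) := by
  have ha : a ∈ Algebra.adjoin F W := by
    rw [hW]
    exact Algebra.mem_top
  induction ha using Algebra.adjoin_induction generalizing e with
  | mem x hx =>
    have h := Core_ind P ((tau P).comp (lam x)) ((lam x).comp (tau P)) (fun v w => by
      rw [LinearMap.comp_apply, LinearMap.comp_apply, l x hx, map_add, Core_tau, Core_tau, Core_tau, l x hx, add_comm]) e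
    exact h
  | algebraMap r =>
    rw [AlgHom.commutes, Module.algebraMap_end_apply, Module.algebraMap_end_apply, map_smul]
  | add x y _ _ hx hy =>
    rw [map_add, LinearMap.add_apply, LinearMap.add_apply, map_add, hx, hy]
  | mul x y _ _ hx hy =>
    rw [map_mul, Module.End.mul_apply, Module.End.mul_apply, hx, hy]

private theorem Core_s {F A E V : Type*} [Field F] [CommRing A] [Algebra F A]
    [AddCommGroup E] [Module F E] [AddCommGroup V] [Module F V] (lam mu : A →ₐ[F] Module.End F E)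
    (act : A →ₐ[F] Module.End F V) (P : V ⊗[F] V ≃ₗ[F] E) (W : Set A)
    (m : ∀ a v w, mu a (P (v ⊗ₜ w)) = P (v ⊗ₜ act a w))
    (l : ∀ x ∈ W, ∀ v w, lam x (P (v ⊗ₜ w)) = P (act x v ⊗ₜ w) + P (v ⊗ₜ act x w)) (x : A) (hx : x ∈ W) (e : E) :
    tau P (mu x (tau P e)) = lam x e - mu x e := by
  have h := Core_ind P ((tau P).comp ((mu x).comp (tau P))) (lam x - mu x) (fun v w => by
    rw [LinearMap.comp_apply, LinearMap.comp_apply, LinearMap.sub_apply, Core_tau, m, Core_tau, m, l x hx,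
      add_sub_cancel_right]) e
  exact h

theorem core {F A E V : Type*} [Field F] [IsAlgClosed F] (h2 : (2 : F) ≠ 0) [CommRing A] [Algebra F A]
    [AddCommGroup E] [Module F E] [AddCommGroup V] [Module F V] (lam mu : A →ₐ[F] Module.End F E)
    (hc : ∀ a c, Commute (lam a) (mu c)) (act : A →ₐ[F] Module.End F V)
    (P₁ P₂ : V ⊗[F] V ≃ₗ[F] E) (W₁ W₂ : Set A) (hW₁ : Algebra.adjoin F W₁ = ⊤) (hW₂ : Algebra.adjoin F W₂ = ⊤)
    (m₁ : ∀ a v w, mu a (P₁ (v ⊗ₜ w)) = P₁ (v ⊗ₜ act a w)) (m₂ : ∀ a v w, mu a (P₂ (v ⊗ₜ w)) = P₂ (v ⊗ₜ act a w))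
    (l₁ : ∀ x ∈ W₁, ∀ v w, lam x (P₁ (v ⊗ₜ w)) = P₁ (act x v ⊗ₜ w) + P₁ (v ⊗ₜ act x w))
    (l₂ : ∀ x ∈ W₂, ∀ v w, lam x (P₂ (v ⊗ₜ w)) = P₂ (act x v ⊗ₜ w) + P₂ (v ⊗ₜ act x w))
    (r₁ : ∀ v, ∃ (n : ℕ) (a : Fin n → A) (x : Fin n → V), ∀ w, P₁ (v ⊗ₜ w) = ∑ k, P₂ (x k ⊗ₜ act (a k) w))
    (r₂ : ∀ v, ∃ (n : ℕ) (a : Fin n → A) (x : Fin n → V), ∀ w, P₂ (v ⊗ₜ w) = ∑ k, P₁ (x k ⊗ₜ act (a k) w))
    (hcond : ∀ e, (e - tau P₁ e) + tau P₂ (e - tau P₁ e) = 0) :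
    ∀ e, ∃ e', e - tau P₂ e = e' - tau P₁ e' := by
  have i₁ := Core_inv P₁
  have i₂ := Core_inv P₂
  have c₁ := Core_com lam act P₁ W₁ hW₁ l₁
  have c₂ := Core_com lam act P₂ W₂ hW₂ l₂
  have s₁ := Core_s lam mu act P₁ W₁ m₁ l₁
  have s₂ := Core_s lam mu act P₂ W₂ m₂ l₂
  have key : ∀ f : E, tau P₁ f = f → tau P₂ f = -f → f = 0 := by
    intro f f₁ f₂
    by_contra hf
    obtain ⟨o₁, o₂, o₃⟩ := ops h2 lam mu hc W₁ W₂ hW₁ hW₂ (tau P₁) (tau P₂) i₁ i₂ c₁ c₂ s₁ s₂ hcond f f₁ f₂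
    obtain ⟨c, χ, hc0, hχ⟩ := eig lam mu act P₁ W₁ hW₁ m₁ l₁ f hf o₁
    obtain ⟨b, hb⟩ := o₃ c
    have hl : ∀ x, (2 : F) • mu x f = lam x f → lam x (mu c f) = (2 * χ x) • mu c f := by
      intro x hx
      have h1 : lam x (mu c f) = mu c (lam x f) := by
        have h := hc x c
        rw [← Module.End.mul_apply, h.eq, Module.End.mul_apply]
      have h3 : mu c (mu x f) = mu x (mu c f) := by
        rw [← Module.End.mul_apply, ← map_mul, mul_comm, map_mul, Module.End.mul_apply]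
      rw [h1, ← hx, map_smul, h3, hχ, smul_smul]
    have h := fc h2 lam mu act P₁ P₂ W₁ W₂ hW₁ hW₂ m₁ m₂ l₁ l₂ r₁ r₂ hcond χ (mu c f)
      (by rw [hb, c₁, f₁]) (by rw [hb, c₂, f₂, map_neg]) hχ (fun x hx => hl x (o₁ x hx)) (fun x hx => hl x (o₂ x hx))
    exact hc0 h
  intro e
  have hg : tau P₂ (e - tau P₂ e) = -(e - tau P₂ e) := by
    rw [map_sub, i₂, neg_sub]
  have h3 := hcond (e - tau P₂ e)
  rw [map_sub (tau P₂) (e - tau P₂ e) (tau P₁ (e - tau P₂ e)), hg] at h3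
  have h4 : tau P₂ (tau P₁ (e - tau P₂ e)) = - tau P₁ (e - tau P₂ e) := by
    have h5 : (e - tau P₂ e) - tau P₁ (e - tau P₂ e) + (-(e - tau P₂ e) - tau P₂ (tau P₁ (e - tau P₂ e))) =
        - tau P₁ (e - tau P₂ e) - tau P₂ (tau P₁ (e - tau P₂ e)) := by abel
    rw [h5] at h3
    exact (sub_eq_zero.1 h3).symm
  have h6 := key ((e - tau P₂ e) + tau P₁ (e - tau P₂ e))
    (by rw [map_add, i₁, add_comm])
    (by rw [map_add, hg, h4, neg_add])
  have h7 : tau P₁ (e - tau P₂ e) = -(e - tau P₂ e) := by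
    rw [eq_neg_iff_add_eq_zero, add_comm]
    exact h6
  refine ⟨(2 : F)⁻¹ • (e - tau P₂ e), ?_⟩
  rw [map_smul, h7, smul_neg, sub_neg_eq_add, ← two_smul F, smul_smul, mul_inv_cancel₀ h2, one_smul]

end EL
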