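import Mathlib

/-!
# MP_a5a771_al: metabelian Lie algebras and their enveloping algebras: basic definitions

`i : G → U` is the map of a Lie algebra into its enveloping algebra (`Env`), `Com F U` the commutator ideal of an associative
algebra `U`, `Aug ε` the kernel of the augmentation `ε`. Products of `F`-subspaces of `U` are products of `Submodule F U`.
-/

set_option autoImplicit false

namespace EL

open scoped TensorProduct

variable {F G U : Type*} [Field F] [LieRing G] [LieAlgebra F G] [Ring U] [Algebra F U]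

/-- the commutator ideal of `U` -/
def Com (F U : Type*) [Field F] [Ring U] [Algebra F U] : Submodule F U :=
  Submodule.span F {z | ∃ a x y c : U, z = a * (x * y - y * x) * c}

/-- the augmentation ideal -/
def Aug (ε : U →ₐ[F] F) : Submodule F U := LinearMap.ker ε.toLinearMap

attribute [local instance 100] LieRing.ofAssociativeRing in
/-- `i : G → U` is an enveloping algebra of `G` with augmentation `ε` -/
structure Env (i : G →ₗ[F] U) (ε : U →ₐ[F] F) : Prop where
  ex : ∃ e : UniversalEnvelopingAlgebra F G ≃ₐ[F] U, ∀ x, e (UniversalEnvelopingAlgebra.ι F x) = i x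
  aug : ∀ x, ε (i x) = 0

/-- the derived algebra -/
abbrev D1 (F G : Type*) [Field F] [LieRing G] [LieAlgebra F G] : LieIdeal F G := LieAlgebra.derivedSeries F G 1

/-- the second derived algebra -/
abbrev D2 (F G : Type*) [Field F] [LieRing G] [LieAlgebra F G] : LieIdeal F G := LieAlgebra.derivedSeries F G 2

/-- `[G', G'']` -/
abbrev D3 (F G : Type*) [Field F] [LieRing G] [LieAlgebra F G] : LieIdeal F G := ⁅D1 F G, D2 F G⁆

/-- the image of `G'` in `U` -/
def N1 (i : G →ₗ[F] U) : Submodule F U := Submodule.map i (D1 F G).toSubmodule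

/-- ordered product of basis elements -/
noncomputable def mon {ι : Type*} (i : G →ₗ[F] U) (b : Module.Basis ι F G) (l : List ι) : U := (l.map fun k => i (b k)).prod

/-- the span of the sorted monomials of weight at least `m` -/
def SF {ι : Type*} [LinearOrder ι] (i : G →ₗ[F] U) (b : Module.Basis ι F G) (wt : ι → ℕ) (m : ℕ) : Submodule F U :=
  Submodule.span F {z | ∃ s : List ι, s.Pairwise (· ≤ ·) ∧ m ≤ (s.map wt).sum ∧ mon i b s = z}

/-- an ordered basis of `G` adapted to the chain `[G', G''] ≤ G'' ≤ G' ≤ G` (weights `3, 2, 1, 0`, higher weights come first) -/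
structure Adp (F G : Type*) [Field F] [LieRing G] [LieAlgebra F G] (ι : Type*) [LinearOrder ι] where
  b : Module.Basis ι F G
  wt : ι → ℕ
  le3 : ∀ p, wt p ≤ 3
  anti : ∀ p q, p ≤ q → wt q ≤ wt p
  h1 : ∀ x : G, x ∈ D1 F G ↔ ∀ p, b.repr x p ≠ 0 → 1 ≤ wt p
  h2 : ∀ x : G, x ∈ D2 F G ↔ ∀ p, b.repr x p ≠ 0 → 2 ≤ wt p
  h3 : ∀ x : G, x ∈ D3 F G ↔ ∀ p, b.repr x p ≠ 0 → 3 ≤ wt p

/-- `I / I ω` -/
abbrev Vq (ε : U →ₐ[F] F) : Type _ := ↥(Com F U) ⧸ (Com F U * Aug ε).comap (Com F U).subtype

/-- `I / I ^ 2` -/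
abbrev Mq (F U : Type*) [Field F] [Ring U] [Algebra F U] : Type _ := ↥(Com F U) ⧸ (Com F U * Com F U).comap (Com F U).subtype

/-- `a ⊗ v ↦ rgt a (j v)` -/
noncomputable def rj {A M V : Type*} [CommRing A] [Algebra F A] [AddCommGroup M] [Module F M] [AddCommGroup V] [Module F V]
    (rgt : A →ₐ[F] Module.End F M) (j : V →ₗ[F] M) : A ⊗[F] V →ₗ[F] M :=
  TensorProduct.lift (rgt.toLinearMap.compl₂ j)

/-- `v ⊗ w ↦ t (j v) w` -/
noncomputable def tj {E M V : Type*} [AddCommGroup E] [Module F E] [AddCommGroup M] [Module F M] [AddCommGroup V] [Module F V]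
    (t : M →ₗ[F] V →ₗ[F] E) (j : V →ₗ[F] M) : V ⊗[F] V →ₗ[F] E :=
  TensorProduct.lift (t.comp j)

/-- the flip of `V ⊗ V` transported by `P` -/
noncomputable def tau {E V : Type*} [AddCommGroup E] [Module F E] [AddCommGroup V] [Module F V]
    (P : V ⊗[F] V ≃ₗ[F] E) : E →ₗ[F] E :=
  (P.toLinearMap.comp (TensorProduct.comm F V V).toLinearMap).comp P.symm.toLinearMap

end EL
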