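import Pool.Agent.Lib.MP_a5a771_al.Defs
import Pool.Agent.Lib.MP_a5a771_al.PBW

/-!
# Basic facts on enveloping algebras

PROOFS. `env_lie`: `UniversalEnvelopingAlgebra.ι` is a Lie homomorphism, apply `e`. `env_lift`: `f` is a Lie homomorphism into the Lie
ring of `B`; compose `UniversalEnvelopingAlgebra.lift` with `e.symm`. `env_words`: the span of the words is a subalgebra (`mon` of a
concatenation is a product, `mon [] = 1`) which contains `i (b k)`, hence all `i x`; it is everything since `U` is generated by the `i x` (by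
`env_lift` and uniqueness (`UniversalEnvelopingAlgebra.hom_ext`), or because `mkAlgHom` is surjective and the tensor algebra is generated
by `TensorAlgebra.ι`).
-/

set_option autoImplicit false

namespace EL

variable {F G U : Type*} [Field F] [LieRing G] [LieAlgebra F G] [Ring U] [Algebra F U]

attribute [local instance 100] LieRing.ofAssociativeRing

theorem EnvB_mon {ι : Type*} {i : G →ₗ[F] U} (e : UniversalEnvelopingAlgebra F G ≃ₐ[F] U)
    (he : ∀ x, e (UniversalEnvelopingAlgebra.ι F x) = i x) (b : Module.Basis ι F G) (l : List ι) :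
    mon i b l = e (Pool.Agent.Lib.MP_a5a771_al.word b l) := by
  induction l with
  | nil => rw [Pool.Agent.Lib.MP_a5a771_al.word_nil, map_one]; rfl
  | cons k l ih =>
    rw [Pool.Agent.Lib.MP_a5a771_al.word_cons, map_mul, he, ← ih]
    simp only [mon, List.map_cons, List.prod_cons]

theorem env_lie {i : G →ₗ[F] U} {ε : U →ₐ[F] F} (hE : Env i ε) (x y : G) : i ⁅x, y⁆ = i x * i y - i y * i x := by
  obtain ⟨e, he⟩ := hE.ex
  rw [← he, ← he, ← he, LieHom.map_lie, LieRing.of_associative_ring_bracket, map_sub, map_mul, map_mul]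

theorem env_lift {i : G →ₗ[F] U} {ε : U →ₐ[F] F} (hE : Env i ε) {B : Type*} [Ring B] [Algebra F B] (f : G →ₗ[F] B)
    (hf : ∀ x y, f ⁅x, y⁆ = f x * f y - f y * f x) : ∃ g : U →ₐ[F] B, ∀ x, g (i x) = f x := by
  obtain ⟨e, he⟩ := hE.ex
  let f' : G →ₗ⁅F⁆ B :=
    { f with
      map_lie' := fun {x y} => by
        rw [LieRing.of_associative_ring_bracket]
        exact hf x y }
  refine ⟨(UniversalEnvelopingAlgebra.lift F f').comp e.symm.toAlgHom, fun x => ?_⟩
  change UniversalEnvelopingAlgebra.lift F f' (e.symm (i x)) = f x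
  rw [← he, AlgEquiv.symm_apply_apply]
  exact UniversalEnvelopingAlgebra.lift_ι_apply F f' x

theorem env_gen {i : G →ₗ[F] U} {ε : U →ₐ[F] F} (hE : Env i ε) : Algebra.adjoin F (Set.range i) = ⊤ := by
  obtain ⟨e, he⟩ := hE.ex
  have h1 : Set.range i = e.toAlgHom '' Set.range (UniversalEnvelopingAlgebra.ι F :
      G → UniversalEnvelopingAlgebra F G) := by
    rw [← Set.range_comp]
    congr 1
    funext x
    exact (he x).symm
  rw [h1, ← AlgHom.map_adjoin, Pool.Agent.Lib.MP_a5a771_al.adjoin_iota, Algebra.map_top]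
  exact (AlgHom.range_eq_top _).2 e.surjective

theorem env_words {ι : Type*} {i : G →ₗ[F] U} {ε : U →ₐ[F] F} (hE : Env i ε) (b : Module.Basis ι F G) :
    Submodule.span F (Set.range (mon i b)) = ⊤ := by
  obtain ⟨e, he⟩ := hE.ex
  have h1 : Set.range (mon i b) = e.toLinearMap '' Set.range (Pool.Agent.Lib.MP_a5a771_al.word b) := by
    rw [← Set.range_comp]
    congr 1
    funext l
    exact EnvB_mon e he b l
  rw [h1, ← Submodule.map_span, Pool.Agent.Lib.MP_a5a771_al.span_word, Submodule.map_top]
  exact LinearMap.range_eq_top.2 e.surjective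

end EL
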