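import Pool.Agent.Lib.MP_a5a771_al.Fil

/-!
# The commutator ideal and its products

PROOFS. Products are products of subspaces (`Submodule.mul_le`, `Submodule.mul_mem_mul`).
`com_mul_left / right`: span induction. `com_le_aug`: `ε (x y - y x) = 0`, `Aug ε` is an ideal. `com_eq`: `N1 i * ⊤ ≤ Com`: `i ⁅x, y⁆` is a commutator
(`env_lie`), `D1` is the span of the brackets, `Com * ⊤ ≤ Com`. `Com ≤ N1 i * ⊤ =: J`: `J` is a right ideal; it is a left ideal because
`i x * i v = i v * i x + i ⁅x, v⁆` and `U` is generated by the `i x` (`env_gen`, induction); commutators `x y - y x` lie in `J` for `x, y` in the image of `i`, and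
then for all (`{y | ∀ x ∈ range i, x y - y x ∈ J}` is a subalgebra, then the same for `x`). `com_com`: `N1 * (⊤ * N1) * ⊤ = N1 * N1 * ⊤` as `⊤ * N1 ≤ N1 * ⊤` (left ideal).
`com_aug`: `N1 * ⊤ * Aug = N1 * Aug` (`⊤ * Aug = Aug`). `aug_span`: sorted nonempty words lie in `Aug ε`; every `u` is a combination of
sorted words (`SF_zero` with `wt = 0`), `ε u` is the coefficient of the empty word in this combination.
-/

set_option autoImplicit false

namespace EL

variable {F G U ι : Type*} [Field F] [LieRing G] [LieAlgebra F G] [Ring U] [Algebra F U] [LinearOrder ι]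
  {i : G →ₗ[F] U} {ε : U →ₐ[F] F}

omit [LinearOrder ι] in
theorem com_mul_left (u z : U) (hz : z ∈ Com F U) : u * z ∈ Com F U := by
  unfold Com at hz ⊢
  induction hz using Submodule.span_induction with
  | mem z h =>
    obtain ⟨a, x, y, c, rfl⟩ := h
    exact Submodule.subset_span ⟨u * a, x, y, c, by simp only [mul_assoc]⟩
  | zero => rw [mul_zero]; exact Submodule.zero_mem _
  | add x y _ _ hx hy => rw [mul_add]; exact Submodule.add_mem _ hx hy
  | smul r x _ hx => rw [mul_smul_comm]; exact Submodule.smul_mem _ _ hx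

omit [LinearOrder ι] in
theorem com_mul_right (u z : U) (hz : z ∈ Com F U) : z * u ∈ Com F U := by
  unfold Com at hz ⊢
  induction hz using Submodule.span_induction with
  | mem z h =>
    obtain ⟨a, x, y, c, rfl⟩ := h
    exact Submodule.subset_span ⟨a, x, y, c * u, by simp only [mul_assoc]⟩
  | zero => rw [zero_mul]; exact Submodule.zero_mem _
  | add x y _ _ hx hy => rw [add_mul]; exact Submodule.add_mem _ hx hy
  | smul r x _ hx => rw [smul_mul_assoc]; exact Submodule.smul_mem _ _ hx

private theorem mem_aug {ε : U →ₐ[F] F} {u : U} : u ∈ Aug ε ↔ ε u = 0 := by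
  unfold Aug
  rw [LinearMap.mem_ker, AlgHom.toLinearMap_apply]

omit [LinearOrder ι] in
theorem com_le_aug (ε : U →ₐ[F] F) : Com F U ≤ Aug ε := by
  unfold Com
  refine Submodule.span_le.2 ?_
  rintro _ ⟨a, x, y, c, rfl⟩
  rw [SetLike.mem_coe, mem_aug, map_mul, map_mul, map_sub, map_mul, map_mul, mul_comm (ε y), sub_self, mul_zero, zero_mul]

/-- induction over the algebra generated by the image of `i` -/
private theorem gen_ind (hE : Env i ε) (P : U → Prop) (h0 : ∀ r : F, P (algebraMap F U r)) (h1 : ∀ x, P (i x))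
    (ha : ∀ u v, P u → P v → P (u + v)) (hm : ∀ u v, P u → P v → P (u * v)) (u : U) : P u := by
  have hu : u ∈ Algebra.adjoin F (Set.range i) := by rw [env_gen hE]; exact Algebra.mem_top
  induction hu using Algebra.adjoin_induction with
  | mem x hx =>
    obtain ⟨x, rfl⟩ := hx
    exact h1 x
  | algebraMap r => exact h0 r
  | add x y _ _ hx hy => exact ha x y hx hy
  | mul x y _ _ hx hy => exact hm x y hx hy

private theorem mem_N1 {v : G} (hv : v ∈ D1 F G) : i v ∈ N1 i := by
  unfold N1
  exact Submodule.mem_map_of_mem hv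

private theorem lie_mem_D1 (x y : G) : ⁅x, y⁆ ∈ D1 F G := by
  rw [D1, LieAlgebra.derivedSeries_def, LieAlgebra.derivedSeriesOfIdeal_succ, LieAlgebra.derivedSeriesOfIdeal_zero]
  exact LieSubmodule.lie_mem_lie (LieSubmodule.mem_top x) (LieSubmodule.mem_top y)

private theorem D1_le (S : Submodule F G) (h : ∀ x y : G, ⁅x, y⁆ ∈ S) : (D1 F G).toSubmodule ≤ S := by
  rw [D1, LieAlgebra.derivedSeries_def, LieAlgebra.derivedSeriesOfIdeal_succ, LieAlgebra.derivedSeriesOfIdeal_zero,
    LieSubmodule.lieIdeal_oper_eq_linear_span']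
  refine Submodule.span_le.2 ?_
  rintro _ ⟨x, _, y, _, rfl⟩
  exact h x y

private theorem J_right {z : U} (hz : z ∈ N1 i * (⊤ : Submodule F U)) (u : U) : z * u ∈ N1 i * (⊤ : Submodule F U) := by
  have h1 : z * u ∈ N1 i * (⊤ : Submodule F U) * (⊤ : Submodule F U) := Submodule.mul_mem_mul hz Submodule.mem_top
  rw [mul_assoc] at h1
  exact mul_le_mul' (le_refl (N1 i)) (le_top : (⊤ : Submodule F U) * ⊤ ≤ ⊤) h1

private theorem J_left (hE : Env i ε) (u z : U) (hz : z ∈ N1 i * (⊤ : Submodule F U)) :
    u * z ∈ N1 i * (⊤ : Submodule F U) := by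
  revert z
  refine gen_ind hE (fun u => ∀ z, z ∈ N1 i * (⊤ : Submodule F U) → u * z ∈ N1 i * (⊤ : Submodule F U)) ?_ ?_ ?_ ?_ u
  · intro r z hz
    rw [← Algebra.smul_def]
    exact Submodule.smul_mem _ _ hz
  · intro x z hz
    refine Submodule.mul_induction_on hz ?_ ?_
    · rintro _ ⟨v, hv, rfl⟩ t _
      have h1 : i x * (i v * t) = i v * (i x * t) + i ⁅x, v⁆ * t := by
        rw [env_lie hE]
        noncomm_ring
      rw [h1]
      exact Submodule.add_mem _ (Submodule.mul_mem_mul (mem_N1 hv) Submodule.mem_top)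
        (Submodule.mul_mem_mul (mem_N1 (lie_mem_D1 x v)) Submodule.mem_top)
    · intro a c ha hc
      rw [mul_add]
      exact Submodule.add_mem _ ha hc
  · intro a c ha hc z hz
    rw [add_mul]
    exact Submodule.add_mem _ (ha z hz) (hc z hz)
  · intro a c ha hc z hz
    rw [mul_assoc]
    exact ha _ (hc z hz)

private theorem J_comm (hE : Env i ε) (x y : U) : x * y - y * x ∈ N1 i * (⊤ : Submodule F U) := by
  have h1 : ∀ (x : G) (y : U), i x * y - y * i x ∈ N1 i * (⊤ : Submodule F U) := by
    intro x y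
    refine gen_ind hE (fun y => i x * y - y * i x ∈ N1 i * (⊤ : Submodule F U)) ?_ ?_ ?_ ?_ y
    · intro r
      rw [Algebra.commutes, sub_self]
      exact Submodule.zero_mem _
    · intro v
      rw [← env_lie hE, ← mul_one (i ⁅x, v⁆)]
      exact Submodule.mul_mem_mul (mem_N1 (lie_mem_D1 x v)) Submodule.mem_top
    · intro a c ha hc
      have h2 : i x * (a + c) - (a + c) * i x = (i x * a - a * i x) + (i x * c - c * i x) := by noncomm_ring
      rw [h2]
      exact Submodule.add_mem _ ha hc
    · intro a c ha hc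
      have h2 : i x * (a * c) - a * c * i x = (i x * a - a * i x) * c + a * (i x * c - c * i x) := by noncomm_ring
      rw [h2]
      exact Submodule.add_mem _ (J_right ha c) (J_left hE a _ hc)
  refine gen_ind hE (fun x => x * y - y * x ∈ N1 i * (⊤ : Submodule F U)) ?_ ?_ ?_ ?_ x
  · intro r
    rw [Algebra.commutes, sub_self]
    exact Submodule.zero_mem _
  · exact fun x => h1 x y
  · intro a c ha hc
    have h2 : (a + c) * y - y * (a + c) = (a * y - y * a) + (c * y - y * c) := by noncomm_ring
    rw [h2]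
    exact Submodule.add_mem _ ha hc
  · intro a c ha hc
    have h2 : a * c * y - y * (a * c) = a * (c * y - y * c) + (a * y - y * a) * c := by noncomm_ring
    rw [h2]
    exact Submodule.add_mem _ (J_left hE a _ hc) (J_right ha c)

omit [LinearOrder ι] in
theorem com_eq (hE : Env i ε) : Com F U = N1 i * ⊤ := by
  refine le_antisymm ?_ ?_
  · unfold Com
    refine Submodule.span_le.2 ?_
    rintro _ ⟨a, x, y, c, rfl⟩
    exact J_right (J_left hE a _ (J_comm hE x y)) c
  · refine Submodule.mul_le.2 ?_
    intro m hm n _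
    refine com_mul_right n m ?_
    have h1 : (D1 F G).toSubmodule ≤ (Com F U).comap i := by
      refine D1_le _ fun x y => ?_
      rw [Submodule.mem_comap, env_lie hE]
      exact Submodule.subset_span ⟨1, i x, i y, 1, by rw [one_mul, mul_one]⟩
    obtain ⟨v, hv, rfl⟩ := hm
    exact h1 hv

private theorem top_com : (⊤ : Submodule F U) * Com F U = Com F U := by
  refine le_antisymm (Submodule.mul_le.2 fun u _ z hz => com_mul_left u z hz) ?_
  intro z hz
  have h1 : 1 * z ∈ (⊤ : Submodule F U) * Com F U := Submodule.mul_mem_mul Submodule.mem_top hz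
  rwa [one_mul] at h1

private theorem top_aug (ε : U →ₐ[F] F) : (⊤ : Submodule F U) * Aug ε = Aug ε := by
  refine le_antisymm (Submodule.mul_le.2 fun u _ z hz => ?_) ?_
  · rw [mem_aug] at hz ⊢
    rw [map_mul, hz, mul_zero]
  · intro z hz
    have h1 : 1 * z ∈ (⊤ : Submodule F U) * Aug ε := Submodule.mul_mem_mul Submodule.mem_top hz
    rwa [one_mul] at h1

omit [LinearOrder ι] in
theorem com_com (hE : Env i ε) : Com F U * Com F U = N1 i * N1 i * ⊤ := by
  calc Com F U * Com F U = N1 i * ⊤ * Com F U := by rw [← com_eq hE]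
    _ = N1 i * (⊤ * Com F U) := mul_assoc _ _ _
    _ = N1 i * (N1 i * ⊤) := by rw [top_com, ← com_eq hE]
    _ = N1 i * N1 i * ⊤ := (mul_assoc _ _ _).symm

omit [LinearOrder ι] in
theorem com_aug (hE : Env i ε) : Com F U * Aug ε = N1 i * Aug ε := by
  rw [com_eq hE, mul_assoc, top_aug]

omit [LinearOrder ι] in
theorem com_com_aug (hE : Env i ε) : Com F U * Com F U * Aug ε = N1 i * N1 i * Aug ε := by
  rw [com_com hE, mul_assoc, top_aug]

theorem aug_span (hE : Env i ε) (b : Module.Basis ι F G) :
    Aug ε = Submodule.span F {z | ∃ s : List ι, s.Pairwise (· ≤ ·) ∧ s ≠ [] ∧ mon i b s = z} := by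
  have h0 : ∀ s : List ι, s ≠ [] → ε (mon i b s) = 0 := by
    intro s hs
    cases s with
    | nil => exact absurd rfl hs
    | cons k t => rw [mon, List.map_cons, List.prod_cons, map_mul, hE.aug, zero_mul]
  refine le_antisymm ?_ (Submodule.span_le.2 ?_)
  · intro u hu
    have h1 : ∀ u ∈ SF i b (fun _ => 0) 0, u - algebraMap F U (ε u) ∈
        Submodule.span F {z | ∃ s : List ι, s.Pairwise (· ≤ ·) ∧ s ≠ [] ∧ mon i b s = z} := by
      intro u hu
      unfold SF at hu
      induction hu using Submodule.span_induction with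
      | mem z h =>
        obtain ⟨s, hs, _, rfl⟩ := h
        by_cases hn : s = []
        · subst hn
          have h2 : mon i b [] = 1 := rfl
          rw [h2, map_one, map_one, sub_self]
          exact Submodule.zero_mem _
        · rw [h0 s hn, map_zero, sub_zero]
          exact Submodule.subset_span ⟨s, hs, hn, rfl⟩
      | zero => rw [map_zero, map_zero, sub_zero]; exact Submodule.zero_mem _
      | add x y _ _ hx hy =>
        rw [map_add, map_add, add_sub_add_comm]
        exact Submodule.add_mem _ hx hy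
      | smul r x _ hx =>
        have h2 : r • x - algebraMap F U (ε (r • x)) = r • (x - algebraMap F U (ε x)) := by
          rw [map_smul, smul_eq_mul, map_mul, smul_sub, Algebra.smul_def r (algebraMap F U (ε x))]
        rw [h2]
        exact Submodule.smul_mem _ _ hx
    have h2 := h1 u (by rw [SF_zero hE b]; exact Submodule.mem_top)
    rw [mem_aug.1 hu, map_zero, sub_zero] at h2
    exact h2
  · rintro _ ⟨s, _, hs, rfl⟩
    rw [SetLike.mem_coe, mem_aug]
    exact h0 s hs

end EL
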