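import Pool.Agent.Lib.MP_a5a771_al.Bas
import Pool.Agent.Lib.MP_a5a771_al.AdpE
import Pool.Agent.Lib.MP_a5a771_al.Idl

/-!
# `G' ∩ I ω = G''`

PROOF. Take an adapted basis `P` (`exists_adp`) and the basis `B` of sorted monomials (`exists_pbw`). By `com_aug`, `aug_span` the space
`I ω = N1 * ω` is spanned by the `mon (k :: s)` with `1 ≤ wt k`, `s` sorted, `s ≠ []` (`N1` is spanned by the `i (b k)` with `1 ≤ wt k`, by `h1`). The
coordinate of such a word at the one letter word `[n]`, `wt n = 1`, is zero: if the weight of `k :: s` is at least `2` it lies in `SF 2`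
(`mon_mem_SF` with `adp_C`, `m = 2`) and `coord_SF` applies; if it is `1` then `wt k = 1` and all letters of `s` have weight `0`, so `k :: s` is sorted
(`anti`: `wt p < wt q → q < p`), has at least two letters and is a basis element different from `[n]`. The coordinate of `i v` at `[n]` is
`b.repr v n`. So `b.repr v n = 0` if `wt n = 1`; and it is `0` if `wt n = 0` since `v ∈ D1`. By `h2`, `v ∈ D2`.
-/

set_option autoImplicit false

namespace EL

variable {F G U : Type*} [Field F] [LieRing G] [LieAlgebra F G] [Ring U] [Algebra F U]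
  {i : G →ₗ[F] U} {ε : U →ₐ[F] F}

private theorem F2_word {ι : Type*} [LinearOrder ι] (hE : Env i ε) (P : Adp F G ι)
    (B : Module.Basis {l : List ι // l.Pairwise (· ≤ ·)} F U) (hB : ∀ s, B s = mon i P.b s.1)
    (n : {l : List ι // l.Pairwise (· ≤ ·)}) (p : ι) (hn : n.1 = [p]) (hp : P.wt p = 1)
    (k : ι) (hk : 1 ≤ P.wt k) (s : List ι) (hs : s.Pairwise (· ≤ ·)) (hs0 : s ≠ []) :
    B.repr (mon i P.b (k :: s)) n = 0 := by
  by_cases h2 : 2 ≤ ((k :: s).map P.wt).sum
  · have hC : ∀ p q k, P.b.repr ⁅P.b p, P.b q⁆ k ≠ 0 → min 2 (P.wt p + P.wt q) ≤ P.wt k := by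
      intro p q k hne
      have h3 := adp_C P p q k hne
      omega
    refine coord_SF P.b B hB P.wt 2 _ (mon_mem_SF hE P.b P.wt 2 hC (k :: s) h2) n ?_
    rw [hn]
    simp [hp]
  · rw [List.map_cons, List.sum_cons] at h2
    have hsum : (s.map P.wt).sum = 0 := by omega
    have hz : ∀ q ∈ s, P.wt q = 0 := by
      intro q hq
      exact List.sum_eq_zero_iff.1 hsum (P.wt q) (List.mem_map_of_mem hq)
    have hsort : (k :: s).Pairwise (· ≤ ·) := by
      rw [List.pairwise_cons]
      refine ⟨fun q hq => ?_, hs⟩
      by_contra hlt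
      have h4 := P.anti q k (le_of_lt (not_le.1 hlt))
      rw [hz q hq] at h4
      omega
    have h5 := hB ⟨k :: s, hsort⟩
    rw [← h5, Module.Basis.repr_self, Finsupp.single_apply, if_neg]
    intro h6
    have h7 := congrArg Subtype.val h6
    rw [hn] at h7
    simp only [List.cons.injEq] at h7
    exact hs0 h7.2

theorem f2 (hE : Env i ε) (v : G) (hv : v ∈ D1 F G) (h : i v ∈ Com F U * Aug ε) : v ∈ D2 F G := by
  obtain ⟨ι, _, ⟨P⟩⟩ := exists_adp F G
  obtain ⟨B, hB⟩ := exists_pbw hE P.b
  have hmon1 : ∀ k : ι, mon i P.b [k] = i (P.b k) := by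
    intro k
    unfold mon
    rw [List.map_cons, List.map_nil, List.prod_cons, List.prod_nil, mul_one]
  have hcoord : ∀ p : ι, ∀ x : G, B.repr (i x) ⟨[p], List.pairwise_singleton _ _⟩ = P.b.repr x p := by
    intro p x
    have h1 : (B.coord ⟨[p], List.pairwise_singleton _ _⟩).comp i = P.b.coord p := by
      refine P.b.ext fun k => ?_
      rw [LinearMap.comp_apply, Module.Basis.coord_apply, Module.Basis.coord_apply, ← hmon1 k,
        ← hB ⟨[k], List.pairwise_singleton _ _⟩, Module.Basis.repr_self, Module.Basis.repr_self,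
        Finsupp.single_apply, Finsupp.single_apply]
      by_cases hkp : k = p
      · subst hkp
        rw [if_pos rfl, if_pos rfl]
      · rw [if_neg, if_neg hkp]
        intro h2
        apply hkp
        have h3 := congrArg Subtype.val h2
        simp only [List.cons.injEq, and_true] at h3
        exact h3
    have h2 := LinearMap.congr_fun h1 x
    rwa [LinearMap.comp_apply, Module.Basis.coord_apply, Module.Basis.coord_apply] at h2
  have hzero : ∀ p : ι, P.wt p = 1 → ∀ z ∈ Com F U * Aug ε,
      B.coord ⟨[p], List.pairwise_singleton _ _⟩ z = 0 := by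
    intro p hp z hz
    rw [com_aug hE] at hz
    induction hz using Submodule.mul_induction_on' with
    | add x _ y _ hx hy => rw [map_add, hx, hy, add_zero]
    | mem_mul_mem m hm a ha =>
      obtain ⟨x, hx, rfl⟩ := hm
      have hx' : ∀ k, P.b.repr x k ≠ 0 → 1 ≤ P.wt k := (P.h1 x).1 hx
      have key : ∀ k, 1 ≤ P.wt k → B.coord ⟨[p], List.pairwise_singleton _ _⟩ (i (P.b k) * a) = 0 := by
        intro k hk
        rw [aug_span hE P.b] at ha
        induction ha using Submodule.span_induction with
        | mem y hy =>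
          obtain ⟨s, hs, hs0, rfl⟩ := hy
          have h3 : i (P.b k) * mon i P.b s = mon i P.b (k :: s) := by
            unfold mon
            rw [List.map_cons, List.prod_cons]
          rw [h3, Module.Basis.coord_apply]
          exact F2_word hE P B hB _ p rfl hp k hk s hs hs0
        | zero => rw [mul_zero, map_zero]
        | add y z _ _ hy hz => rw [mul_add, map_add, hy, hz, add_zero]
        | smul c y _ hy => rw [mul_smul_comm, map_smul, hy, smul_zero]
      have h4 : i x = (P.b.repr x).sum fun k c => c • i (P.b k) := by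
        conv_lhs => rw [← P.b.linearCombination_repr x]
        rw [Finsupp.linearCombination_apply, Finsupp.sum, Finsupp.sum, map_sum]
        exact Finset.sum_congr rfl fun k _ => map_smul _ _ _
      rw [h4, Finsupp.sum, Finset.sum_mul, map_sum]
      refine Finset.sum_eq_zero fun k hk => ?_
      rw [smul_mul_assoc, map_smul, key k (hx' k (Finsupp.mem_support_iff.1 hk)), smul_zero]
  rw [P.h2]
  intro p hp
  have h1 := (P.h1 v).1 hv p hp
  by_contra h2
  apply hp
  have h3 : P.wt p = 1 := by omega
  rw [← hcoord p v]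
  exact hzero p h3 (i v) h

end EL
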