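import Pool.Agent.Lib.MP_a5a771_al.Bas
import Pool.Agent.Lib.MP_a5a771_al.AdpE
import Pool.Agent.Lib.MP_a5a771_al.Idl

/-!
# Freeness of `I / I²`

PROOF. `I² = N1 * N1 * ⊤` (`com_com`) is spanned by words of weight at least `2`, so it lies in `SF 2` (`mon_mem_SF`, `adp_C`; expand the right factor
in words, `env_words`). Let `B` be the basis of sorted monomials (`exists_pbw`). Let `c k s` be the coordinate of `u k` at the sorted word `s`.
`i (b k) * u k = ∑ₛ c k s • mon (k :: s)`. If the weight of `s` is positive then `k :: s` has weight at least `2` and lies in `SF 2`. If it is `0` then `k :: s`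
is sorted (`anti`, `wt k = 1`), so a basis element, and the words `k :: s` for different `(k, s)` are different. The sum is in `I² ≤ SF 2`, and elements
of `SF 2` have coordinate `0` at words of weight `1` (`coord_SF`); so `c k s = 0` for all `k ∈ S` and all sorted `s` of weight `0`. So `u k` is a combination of
sorted words of positive weight; such a word contains a letter in `D1` and lies in the ideal `Com F U` (`com_eq`, `com_mul_left`, `com_mul_right`).
-/

set_option autoImplicit false

namespace EL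

variable {F G U ι : Type*} [Field F] [LieRing G] [LieAlgebra F G] [Ring U] [Algebra F U] [LinearOrder ι]
  {i : G →ₗ[F] U} {ε : U →ₐ[F] F}

private theorem f3_hC (P : Adp F G ι) (p q k : ι) (h : P.b.repr ⁅P.b p, P.b q⁆ k ≠ 0) :
    min 2 (P.wt p + P.wt q) ≤ P.wt k := by
  have h1 := adp_C P p q k h
  omega

omit [LinearOrder ι] in
private theorem f3_mon_cons (b : Module.Basis ι F G) (k : ι) (l : List ι) : mon i b (k :: l) = i (b k) * mon i b l := by
  unfold mon
  rw [List.map_cons, List.prod_cons]

private theorem f3_N1 (P : Adp F G ι) : N1 i ≤ Submodule.span F {z | ∃ p, 1 ≤ P.wt p ∧ i (P.b p) = z} := by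
  rintro _ ⟨x, hx, rfl⟩
  have hx' : x ∈ D1 F G := hx
  have h1 := (P.h1 x).1 hx'
  have h2 : x = ∑ p ∈ (P.b.repr x).support, P.b.repr x p • P.b p := by
    have h3 := P.b.linearCombination_repr x
    rw [Finsupp.linearCombination_apply, Finsupp.sum] at h3
    exact h3.symm
  rw [h2, map_sum]
  refine Submodule.sum_mem _ fun p hp => ?_
  rw [map_smul]
  exact Submodule.smul_mem _ _ (Submodule.subset_span ⟨p, h1 p (Finsupp.mem_support_iff.1 hp), rfl⟩)

private theorem f3_sq (hE : Env i ε) (P : Adp F G ι) : Com F U * Com F U ≤ SF i P.b P.wt 2 := by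
  rw [com_com hE]
  have h1 : N1 i * N1 i * ⊤ ≤ (Submodule.span F {z | ∃ p, 1 ≤ P.wt p ∧ i (P.b p) = z} *
      Submodule.span F {z | ∃ p, 1 ≤ P.wt p ∧ i (P.b p) = z}) * Submodule.span F (Set.range (mon i P.b)) :=
    mul_le_mul' (mul_le_mul' (f3_N1 P) (f3_N1 P)) (by rw [env_words hE P.b])
  refine h1.trans ?_
  rw [Submodule.span_mul_span, Submodule.span_mul_span, Submodule.span_le]
  rintro _ ⟨_, ⟨_, ⟨p, hp, rfl⟩, _, ⟨q, hq, rfl⟩, rfl⟩, _, ⟨l, rfl⟩, rfl⟩
  have h2 : i (P.b p) * i (P.b q) * mon i P.b l = mon i P.b (p :: q :: l) := by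
    rw [f3_mon_cons, f3_mon_cons, mul_assoc]
  show i (P.b p) * i (P.b q) * mon i P.b l ∈ SF i P.b P.wt 2
  rw [h2]
  refine mon_mem_SF hE P.b P.wt 2 (f3_hC P) _ ?_
  rw [List.map_cons, List.sum_cons, List.map_cons, List.sum_cons]
  omega

private theorem f3_sorted (P : Adp F G ι) (k : ι) (hk : P.wt k = 1) (s : List ι) (hs : s.Pairwise (· ≤ ·))
    (hw : (s.map P.wt).sum = 0) : (k :: s).Pairwise (· ≤ ·) := by
  rw [List.pairwise_cons]
  refine ⟨fun r hr => ?_, hs⟩
  have h0 : P.wt r = 0 := by
    have h1 : P.wt r ≤ (s.map P.wt).sum := List.single_le_sum (fun _ _ => Nat.zero_le _) _ (List.mem_map_of_mem hr)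
    omega
  by_contra h
  have h1 := P.anti r k (not_le.1 h).le
  omega

private theorem f3_coord (hE : Env i ε) (P : Adp F G ι) (B : Module.Basis {l : List ι // l.Pairwise (· ≤ ·)} F U)
    (hB : ∀ s, B s = mon i P.b s.1) (k k0 : ι) (hk : P.wt k = 1) (hk0 : P.wt k0 = 1)
    (s0 : {l : List ι // l.Pairwise (· ≤ ·)}) (hs0 : (s0.1.map P.wt).sum = 0) (v : U) :
    B.repr (i (P.b k) * v) ⟨k0 :: s0.1, f3_sorted P k0 hk0 s0.1 s0.2 hs0⟩ = if k = k0 then B.repr v s0 else 0 := by
  classical
  have hlin : (B.coord ⟨k0 :: s0.1, f3_sorted P k0 hk0 s0.1 s0.2 hs0⟩).comp (LinearMap.mulLeft F (i (P.b k))) =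
      if k = k0 then B.coord s0 else 0 := by
    refine B.ext fun s => ?_
    rw [LinearMap.comp_apply, LinearMap.mulLeft_apply, Module.Basis.coord_apply]
    have h1 : i (P.b k) * B s = mon i P.b (k :: s.1) := by rw [f3_mon_cons, hB]
    rw [h1]
    by_cases hw : (s.1.map P.wt).sum = 0
    · have h2 : mon i P.b (k :: s.1) = B ⟨k :: s.1, f3_sorted P k hk s.1 s.2 hw⟩ := by rw [hB]
      rw [h2, B.repr_self]
      by_cases hkk : k = k0
      · subst hkk
        rw [if_pos rfl, Module.Basis.coord_apply, B.repr_self]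
        by_cases hss : s = s0
        · subst hss
          rw [Finsupp.single_eq_same, Finsupp.single_eq_same]
        · rw [Finsupp.single_apply, if_neg, Finsupp.single_apply, if_neg hss]
          intro h
          apply hss
          have h3 := congrArg Subtype.val h
          exact Subtype.ext (List.cons.inj h3).2
      · rw [if_neg hkk, LinearMap.zero_apply, Finsupp.single_apply, if_neg]
        intro h
        have h3 := congrArg Subtype.val h
        exact hkk (List.cons.inj h3).1
    · have h2 : mon i P.b (k :: s.1) ∈ SF i P.b P.wt 2 := by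
        refine mon_mem_SF hE P.b P.wt 2 (f3_hC P) _ ?_
        rw [List.map_cons, List.sum_cons]
        omega
      rw [coord_SF P.b B hB P.wt 2 _ h2 _ (by
        show ((k0 :: s0.1).map P.wt).sum < 2
        rw [List.map_cons, List.sum_cons]
        omega)]
      by_cases hkk : k = k0
      · rw [if_pos hkk, Module.Basis.coord_apply, B.repr_self, Finsupp.single_apply, if_neg]
        intro h
        rw [h] at hw
        exact hw hs0
      · rw [if_neg hkk, LinearMap.zero_apply]
  have h := congrArg (fun φ : U →ₗ[F] F => φ v) hlin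
  simp only [LinearMap.comp_apply, LinearMap.mulLeft_apply, Module.Basis.coord_apply] at h
  rw [h]
  split_ifs
  · rw [Module.Basis.coord_apply]
  · rfl

private theorem f3_word (hE : Env i ε) (P : Adp F G ι) : ∀ s : List ι, (s.map P.wt).sum ≠ 0 → mon i P.b s ∈ Com F U := by
  intro s
  induction s with
  | nil => intro h; exact absurd rfl h
  | cons k s ih =>
    intro h
    rw [f3_mon_cons]
    by_cases hk : 1 ≤ P.wt k
    · refine com_mul_right _ _ ?_
      rw [com_eq hE]
      have h1 : P.b k ∈ D1 F G := by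
        refine (P.h1 _).2 fun p hp => ?_
        rw [P.b.repr_self, Finsupp.single_apply] at hp
        by_cases hkp : k = p
        · rw [← hkp]; exact hk
        · rw [if_neg hkp] at hp
          exact absurd rfl hp
      have h2 : i (P.b k) ∈ N1 i := ⟨P.b k, h1, rfl⟩
      have h3 := Submodule.mul_mem_mul h2 (Submodule.mem_top (x := (1 : U)))
      rwa [mul_one] at h3
    · refine com_mul_left _ _ (ih ?_)
      rw [List.map_cons, List.sum_cons] at h
      omega

theorem f3 (hE : Env i ε) (P : Adp F G ι) (S : Finset ι) (hS : ∀ k ∈ S, P.wt k = 1) (u : ι → U)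
    (h : ∑ k ∈ S, i (P.b k) * u k ∈ Com F U * Com F U) : ∀ k ∈ S, u k ∈ Com F U := by
  classical
  obtain ⟨B, hB⟩ := exists_pbw hE P.b
  have hx := f3_sq hE P h
  intro k0 hk0
  have hc : ∀ s0 : {l : List ι // l.Pairwise (· ≤ ·)}, (s0.1.map P.wt).sum = 0 → B.repr (u k0) s0 = 0 := by
    intro s0 hs0
    have h1 := coord_SF P.b B hB P.wt 2 _ hx ⟨k0 :: s0.1, f3_sorted P k0 (hS k0 hk0) s0.1 s0.2 hs0⟩ (by
      show ((k0 :: s0.1).map P.wt).sum < 2
      rw [List.map_cons, List.sum_cons, hS k0 hk0]
      omega)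
    rw [map_sum, Finsupp.finsetSum_apply] at h1
    rw [Finset.sum_congr rfl fun k hk => f3_coord hE P B hB k k0 (hS k hk) (hS k0 hk0) s0 hs0 (u k)] at h1
    rw [Finset.sum_ite_eq' S k0 (fun k => B.repr (u k) s0), if_pos hk0] at h1
    exact h1
  have h2 : u k0 = ∑ s ∈ (B.repr (u k0)).support, B.repr (u k0) s • B s := by
    have h3 := B.linearCombination_repr (u k0)
    rw [Finsupp.linearCombination_apply, Finsupp.sum] at h3
    exact h3.symm
  rw [h2]
  refine Submodule.sum_mem _ fun s hs => Submodule.smul_mem _ _ ?_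
  rw [hB]
  exact f3_word hE P s.1 fun hw => (Finsupp.mem_support_iff.1 hs) (hc s hw)

end EL
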