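import Pool.Agent.Lib.MP_a5a771_al.Bas
import Pool.Agent.Lib.MP_a5a771_al.AdpE
import Pool.Agent.Lib.MP_a5a771_al.Idl

/-!
# Symmetric products survive modulo `I² ω`

PROOF. Adapted basis `P`, basis `B` of sorted monomials. `I² ω = N1 * N1 * Aug` (`com_com_aug`) is spanned by `mon (k :: l :: s)` with `1 ≤ wt k`, `1 ≤ wt l`,
`s` sorted, `s ≠ []` (`aug_span`). Claim: its coordinates at the words `[p, q]` with `p ≤ q`, `wt p = wt q = 1` vanish. If the weight of `k :: l :: s` is at least `3`: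
`mon_mem_SF` (`m = 3`, `adp_C`) and `coord_SF`. Otherwise `wt k = wt l = 1` and `s` has weight `0`. If `k ≤ l` then `k :: l :: s` is sorted with at least three
letters. If `l < k` then `mon (k :: l :: s) = mon (l :: k :: s) + ∑ₙ (b.repr ⁅b k, b l⁆ n) • mon (n :: s)`; the first word is sorted with at least three letters; in the sum
`wt n ≥ 2` (`adp_C`), `n :: s` is sorted (`anti`), and it is not `[p, q]` because `wt p = 1`. So all coordinates are `0`.
For `x, y ∈ D1` with coordinates `x p, y p`: `i x * i y ≡ ∑ (x p) (y q) mon [p, q]` modulo words of weight at least `3` (sum over `wt p = wt q = 1`), and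
`mon [q, p] = mon [p, q] + (words [n] of weight at least 2)` for `p < q`; so the coordinate at `[p, q]` is `x p * y q + x q * y p` if `p < q`, and
`x p * y p` if `p = q`. So `∑ₖ (vₖ p * wₖ q + vₖ q * wₖ p) = 0` (`p < q`) and `∑ₖ vₖ p * wₖ p = 0`. Since `β` vanishes if one argument is in `D2`,
`∑ₖ β (vₖ) (wₖ) = ∑ₖ ∑_{p, q} vₖ p * wₖ q • β (b p) (b q)` over the indices of weight `1`, and by `hs` the terms `(p, q)`, `(q, p)` combine to `0`.
-/

set_option autoImplicit false

namespace EL

variable {F G U : Type*} [Field F] [LieRing G] [LieAlgebra F G] [Ring U] [Algebra F U]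
  {i : G →ₗ[F] U} {ε : U →ₐ[F] F}

private theorem f4_srt {ι : Type*} [LinearOrder ι] (b : Module.Basis ι F G)
    (B : Module.Basis {l : List ι // l.Pairwise (· ≤ ·)} F U) (hB : ∀ s, B s = mon i b s.1)
    (s : List ι) (hs : s.Pairwise (· ≤ ·)) (t : {l : List ι // l.Pairwise (· ≤ ·)}) (h : s ≠ t.1) :
    B.coord t (mon i b s) = 0 := by
  have e : mon i b s = B ⟨s, hs⟩ := (hB ⟨s, hs⟩).symm
  rw [e, Module.Basis.coord_apply, Module.Basis.repr_self, Finsupp.single_apply, if_neg]
  intro h'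
  exact h (congrArg Subtype.val h')

private theorem f4_self {ι : Type*} [LinearOrder ι] (b : Module.Basis ι F G)
    (B : Module.Basis {l : List ι // l.Pairwise (· ≤ ·)} F U) (hB : ∀ s, B s = mon i b s.1)
    (t : {l : List ι // l.Pairwise (· ≤ ·)}) : B.coord t (mon i b t.1) = 1 := by
  rw [← hB t, Module.Basis.coord_apply, Module.Basis.repr_self, Finsupp.single_eq_same]

private theorem f4_single {ι : Type*} [LinearOrder ι] (b : Module.Basis ι F G)
    (B : Module.Basis {l : List ι // l.Pairwise (· ≤ ·)} F U) (hB : ∀ s, B s = mon i b s.1)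
    (p q : ι) (t : {l : List ι // l.Pairwise (· ≤ ·)}) (ht : t.1 = [p, q]) (x : G) : B.coord t (i x) = 0 := by
  have h1 : (B.coord t).comp i = 0 := b.ext fun k => by
    have h2 := f4_srt b B hB [k] (List.pairwise_singleton _ _) t (by rw [ht]; simp)
    have h3 : mon i b [k] = i (b k) := by simp [mon]
    rw [h3] at h2
    simpa using h2
  exact LinearMap.congr_fun h1 x

private theorem f4_mon2 {ι : Type*} (b : Module.Basis ι F G) (k l : ι) : mon i b [k, l] = i (b k) * i (b l) := by
  simp [mon]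

private theorem f4_swap {ι : Type*} (hE : Env i ε) (b : Module.Basis ι F G) (k l : ι) :
    i (b k) * i (b l) = i (b l) * i (b k) + i ⁅b k, b l⁆ := by
  rw [env_lie hE]
  abel

private theorem f4_basis {ι : Type*} [LinearOrder ι] (hE : Env i ε) (b : Module.Basis ι F G)
    (B : Module.Basis {l : List ι // l.Pairwise (· ≤ ·)} F U) (hB : ∀ s, B s = mon i b s.1)
    (p q : ι) (hpq : p ≤ q) (t : {l : List ι // l.Pairwise (· ≤ ·)}) (ht : t.1 = [p, q]) (k l : ι) :
    B.coord t (i (b k) * i (b l)) = (if k = p ∧ l = q then 1 else 0) + (if p = q then 0 else if k = q ∧ l = p then 1 else 0) := by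
  have hle : ∀ k l : ι, k ≤ l → B.coord t (i (b k) * i (b l)) = if k = p ∧ l = q then 1 else 0 := by
    intro k l hkl
    rw [← f4_mon2]
    split_ifs with h
    · have e : [k, l] = t.1 := by rw [ht, h.1, h.2]
      rw [e]
      exact f4_self b B hB t
    · refine f4_srt b B hB [k, l] (by simpa using hkl) t ?_
      rw [ht]
      intro h'
      apply h
      simpa using h'
  rcases le_total k l with hkl | hkl
  · rw [hle k l hkl]
    by_cases h1 : p = q
    · simp [h1]
    · rw [if_neg h1]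
      have h2 : ¬ (k = q ∧ l = p) := by
        rintro ⟨h3, h4⟩
        rw [h3, h4] at hkl
        exact h1 (le_antisymm hpq hkl)
      rw [if_neg h2, add_zero]
  · rw [f4_swap hE, map_add, f4_single b B hB p q t ht, add_zero, hle l k hkl]
    by_cases h1 : p = q
    · rw [if_pos h1, add_zero]
      subst h1
      by_cases h2 : k = p ∧ l = p
      · rw [if_pos h2, if_pos h2.symm]
      · rw [if_neg h2, if_neg (fun h => h2 h.symm)]
    · rw [if_neg h1]
      have h2 : ¬ (k = p ∧ l = q) := by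
        rintro ⟨h3, h4⟩
        rw [h3, h4] at hkl
        exact h1 (le_antisymm hpq hkl)
      rw [if_neg h2, zero_add]
      by_cases h3 : k = q ∧ l = p
      · rw [if_pos h3, if_pos h3.symm]
      · rw [if_neg h3, if_neg (fun h => h3 h.symm)]

private theorem f4_pair {ι : Type*} [LinearOrder ι] (hE : Env i ε) (b : Module.Basis ι F G)
    (B : Module.Basis {l : List ι // l.Pairwise (· ≤ ·)} F U) (hB : ∀ s, B s = mon i b s.1)
    (p q : ι) (hpq : p ≤ q) (t : {l : List ι // l.Pairwise (· ≤ ·)}) (ht : t.1 = [p, q]) (x y : G) :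
    B.coord t (i x * i y) = b.repr x p * b.repr y q + (if p = q then 0 else b.repr x q * b.repr y p) := by
  have key : ((LinearMap.mul F U).compl₁₂ i i).compr₂ (B.coord t) = (LinearMap.mul F F).compl₁₂ (b.coord p) (b.coord q) +
      (if p = q then 0 else 1 : F) • (LinearMap.mul F F).compl₁₂ (b.coord q) (b.coord p) := by
    refine b.ext fun k => b.ext fun l => ?_
    have h1 := f4_basis hE b B hB p q hpq t ht k l
    simp only [LinearMap.compr₂_apply, LinearMap.compl₁₂_apply, LinearMap.mul_apply', LinearMap.add_apply,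
      LinearMap.smul_apply, Module.Basis.coord_apply, Module.Basis.repr_self, Finsupp.single_apply, smul_eq_mul] at h1 ⊢
    rw [h1]
    by_cases h2 : p = q
    · by_cases h3 : k = p <;> by_cases h4 : l = q <;> simp [h2, h3, h4]
    · by_cases h3 : k = p <;> by_cases h4 : l = q <;> by_cases h5 : k = q <;> by_cases h6 : l = p <;> simp_all
  have h := LinearMap.congr_fun (LinearMap.congr_fun key x) y
  simp only [LinearMap.compr₂_apply, LinearMap.compl₁₂_apply, LinearMap.mul_apply', LinearMap.add_apply,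
      LinearMap.smul_apply, Module.Basis.coord_apply, smul_eq_mul] at h
  rw [Module.Basis.coord_apply, h]
  split_ifs <;> simp

private theorem f4_word {ι : Type*} [LinearOrder ι] (hE : Env i ε) (P : Adp F G ι)
    (B : Module.Basis {l : List ι // l.Pairwise (· ≤ ·)} F U) (hB : ∀ s, B s = mon i P.b s.1)
    (p q : ι) (hp : P.wt p = 1) (hq : P.wt q = 1) (t : {l : List ι // l.Pairwise (· ≤ ·)}) (ht : t.1 = [p, q])
    (k l : ι) (hk : 1 ≤ P.wt k) (hl : 1 ≤ P.wt l) (s : List ι) (hs : s.Pairwise (· ≤ ·)) (hs0 : s ≠ []) :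
    B.coord t (i (P.b k) * i (P.b l) * mon i P.b s) = 0 := by
  have hmon : ∀ k l : ι, i (P.b k) * i (P.b l) * mon i P.b s = mon i P.b (k :: l :: s) := by
    intro k l
    simp [mon, mul_assoc]
  by_cases hw : 3 ≤ ((k :: l :: s).map P.wt).sum
  · rw [hmon]
    exact coord_SF P.b B hB P.wt 3 _ (mon_mem_SF hE P.b P.wt 3 (adp_C P) _ hw) t (by rw [ht]; simp [hp, hq])
  · have hw' : P.wt k + (P.wt l + (s.map P.wt).sum) < 3 := by simpa using hw
    have hk1 : P.wt k = 1 := by omega
    have hl1 : P.wt l = 1 := by omega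
    have hs1 : (s.map P.wt).sum = 0 := by omega
    have hsm : ∀ m ∈ s, P.wt m = 0 := by
      intro m hm
      exact List.sum_eq_zero_iff.1 hs1 _ (List.mem_map_of_mem hm)
    have hlt : ∀ a : ι, 1 ≤ P.wt a → ∀ m ∈ s, a ≤ m := by
      intro a ha m hm
      by_contra hc
      have h1 := P.anti m a (le_of_lt (not_le.1 hc))
      rw [hsm m hm] at h1
      omega
    have hsrt : ∀ a c : ι, a ≤ c → 1 ≤ P.wt a → 1 ≤ P.wt c → B.coord t (mon i P.b (a :: c :: s)) = 0 := by
      intro a c hac ha hc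
      refine f4_srt P.b B hB _ ?_ t ?_
      · refine List.Pairwise.cons ?_ (List.Pairwise.cons (hlt c hc) hs)
        intro m hm
        rcases List.mem_cons.1 hm with rfl | hm
        · exact hac
        · exact hlt a ha m hm
      · rw [ht]
        intro h'
        apply hs0
        have h2 := (List.cons.inj (List.cons.inj h').2).2
        exact h2
    rcases le_total k l with hkl | hkl
    · rw [hmon]
      exact hsrt k l hkl hk hl
    · rw [f4_swap hE, add_mul, map_add, hmon, hsrt l k hkl hl hk, zero_add]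
      have hx : ⁅P.b k, P.b l⁆ = ∑ n ∈ (P.b.repr ⁅P.b k, P.b l⁆).support, P.b.repr ⁅P.b k, P.b l⁆ n • P.b n := by
        conv_lhs => rw [← P.b.linearCombination_repr ⁅P.b k, P.b l⁆]
        rw [Finsupp.linearCombination_apply, Finsupp.sum]
      rw [hx, map_sum, Finset.sum_mul, map_sum]
      refine Finset.sum_eq_zero fun n hn => ?_
      rw [map_smul, smul_mul_assoc, map_smul]
      have hn2 : 2 ≤ P.wt n := by
        have h1 := adp_C P k l n (Finsupp.mem_support_iff.1 hn)
        rw [hk1, hl1] at h1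
        simpa using h1
      have h3 : i (P.b n) * mon i P.b s = mon i P.b (n :: s) := by simp [mon]
      rw [h3, f4_srt P.b B hB _ (List.Pairwise.cons (hlt n (by omega)) hs) t, smul_zero]
      rw [ht]
      intro h'
      have h4 := (List.cons.inj h').1
      rw [h4, hp] at hn2
      omega

private theorem f4_zero {ι : Type*} [LinearOrder ι] (hE : Env i ε) (P : Adp F G ι)
    (B : Module.Basis {l : List ι // l.Pairwise (· ≤ ·)} F U) (hB : ∀ s, B s = mon i P.b s.1)
    (p q : ι) (hp : P.wt p = 1) (hq : P.wt q = 1) (t : {l : List ι // l.Pairwise (· ≤ ·)}) (ht : t.1 = [p, q])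
    (z : U) (hz : z ∈ Com F U * Com F U * Aug ε) : B.coord t z = 0 := by
  rw [com_com_aug hE] at hz
  have hexp : ∀ x : G, x ∈ (D1 F G).toSubmodule → x ∈ Submodule.span F {y | ∃ k, 1 ≤ P.wt k ∧ P.b k = y} := by
    intro x hx
    have hx1 := (P.h1 x).1 hx
    rw [← P.b.linearCombination_repr x, Finsupp.linearCombination_apply, Finsupp.sum]
    exact Submodule.sum_mem _ fun n hn => Submodule.smul_mem _ _ (Submodule.subset_span ⟨n, hx1 n (Finsupp.mem_support_iff.1 hn), rfl⟩)
  have h1 : N1 i ≤ Submodule.span F {y | ∃ k, 1 ≤ P.wt k ∧ i (P.b k) = y} := by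
    rintro _ ⟨x, hx, rfl⟩
    have h2 := Submodule.mem_map_of_mem (f := i) (hexp x hx)
    rw [Submodule.map_span] at h2
    refine Submodule.span_mono ?_ h2
    rintro _ ⟨_, ⟨k, hk, rfl⟩, rfl⟩
    exact ⟨k, hk, rfl⟩
  have h2 : N1 i * N1 i * Aug ε ≤ Submodule.span F {y | ∃ k, 1 ≤ P.wt k ∧ i (P.b k) = y} *
      Submodule.span F {y | ∃ k, 1 ≤ P.wt k ∧ i (P.b k) = y} *
      Submodule.span F {z | ∃ s : List ι, s.Pairwise (· ≤ ·) ∧ s ≠ [] ∧ mon i P.b s = z} := by
    rw [← aug_span hE P.b]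
    exact mul_le_mul' (mul_le_mul' h1 h1) le_rfl
  have h3 := h2 hz
  rw [Submodule.span_mul_span, Submodule.span_mul_span] at h3
  refine Submodule.span_induction (p := fun z _ => B.coord t z = 0) ?_ ?_ ?_ ?_ h3
  · rintro _ ⟨_, ⟨_, ⟨k, hk, rfl⟩, _, ⟨l, hl, rfl⟩, rfl⟩, _, ⟨s, hs, hs0, rfl⟩, rfl⟩
    exact f4_word hE P B hB p q hp hq t ht k l hk hl s hs hs0
  · exact map_zero _
  · intro x y _ _ hx hy
    rw [map_add, hx, hy, add_zero]
  · intro a x _ hx
    rw [map_smul, hx, smul_zero]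

theorem f4 (hE : Env i ε) {T : Type*} [AddCommGroup T] [Module F T]
    (β : ↥(D1 F G).toSubmodule →ₗ[F] ↥(D1 F G).toSubmodule →ₗ[F] T) (hs : ∀ x y, β x y = β y x)
    (h0 : ∀ x y : ↥(D1 F G).toSubmodule, (y : G) ∈ D2 F G → β x y = 0) (n : ℕ) (v w : Fin n → ↥(D1 F G).toSubmodule)
    (h : ∑ k, i (v k : G) * i (w k : G) ∈ Com F U * Com F U * Aug ε) : ∑ k, β (v k) (w k) = 0 := by
  obtain ⟨ι, _, ⟨P⟩⟩ := exists_adp F G
  obtain ⟨B, hB⟩ := exists_pbw hE P.b
  have hco : ∀ p q : ι, p ≤ q → P.wt p = 1 → P.wt q = 1 →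
      ∑ k, (P.b.repr (v k : G) p * P.b.repr (w k : G) q +
        (if p = q then 0 else P.b.repr (v k : G) q * P.b.repr (w k : G) p)) = 0 := by
    intro p q hpq hp hq
    have h1 := f4_zero hE P B hB p q hp hq ⟨[p, q], by simpa using hpq⟩ rfl _ h
    rw [map_sum] at h1
    exact Eq.trans (Finset.sum_congr rfl fun k _ => (f4_pair hE P.b B hB p q hpq _ rfl _ _).symm) h1
  have hdiag : ∀ p : ι, P.wt p = 1 → ∑ k, P.b.repr (v k : G) p * P.b.repr (w k : G) p = 0 := by
    intro p hp
    have h1 := hco p p le_rfl hp hp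
    simpa using h1
  have hoff : ∀ p q : ι, p ≠ q → P.wt p = 1 → P.wt q = 1 →
      ∑ k, P.b.repr (v k : G) p * P.b.repr (w k : G) q + ∑ k, P.b.repr (v k : G) q * P.b.repr (w k : G) p = 0 := by
    intro p q hpq hp hq
    rcases le_total p q with hle | hle
    · have h1 := hco p q hle hp hq
      simp only [if_neg hpq] at h1
      rw [← Finset.sum_add_distrib]
      exact h1
    · have h1 := hco q p hle hq hp
      simp only [if_neg hpq.symm] at h1
      rw [← Finset.sum_add_distrib, ← h1]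
      exact Finset.sum_congr rfl fun k _ => add_comm _ _
  have hmem : ∀ p : ι, 1 ≤ P.wt p → P.b p ∈ (D1 F G).toSubmodule := by
    intro p hp
    refine (P.h1 (P.b p)).2 fun r hr => ?_
    rw [Module.Basis.repr_self, Finsupp.single_apply] at hr
    by_cases h1 : p = r
    · rw [← h1]; exact hp
    · rw [if_neg h1] at hr
      exact absurd rfl hr
  have hmem2 : ∀ p : ι, 2 ≤ P.wt p → P.b p ∈ D2 F G := by
    intro p hp
    refine (P.h2 (P.b p)).2 fun r hr => ?_
    rw [Module.Basis.repr_self, Finsupp.single_apply] at hr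
    by_cases h1 : p = r
    · rw [← h1]; exact hp
    · rw [if_neg h1] at hr
      exact absurd rfl hr
  classical
  obtain ⟨e, he⟩ : ∃ e : ι → ↥(D1 F G).toSubmodule, ∀ p, (1 ≤ P.wt p → (e p : G) = P.b p) ∧ (¬ 1 ≤ P.wt p → e p = 0) := by
    refine ⟨fun p => if hp : 1 ≤ P.wt p then ⟨P.b p, hmem p hp⟩ else 0, fun p => ⟨fun hp => ?_, fun hp => ?_⟩⟩
    · simp only [dif_pos hp]
    · simp only [dif_neg hp]
  have hβ : ∀ p q : ι, P.wt q ≠ 1 → β (e p) (e q) = 0 := by
    intro p q hq
    by_cases h1 : 1 ≤ P.wt q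
    · refine h0 _ _ ?_
      rw [(he q).1 h1]
      exact hmem2 q (by omega)
    · rw [(he q).2 h1, map_zero]
  obtain ⟨S, hS⟩ : ∃ S : Finset ι, ∀ k, (P.b.repr (v k : G)).support ⊆ S ∧ (P.b.repr (w k : G)).support ⊆ S := by
    refine ⟨Finset.univ.biUnion fun k => (P.b.repr (v k : G)).support ∪ (P.b.repr (w k : G)).support, fun k => ⟨?_, ?_⟩⟩
    · exact fun x hx => Finset.mem_biUnion.2 ⟨k, Finset.mem_univ _, Finset.mem_union_left _ hx⟩
    · exact fun x hx => Finset.mem_biUnion.2 ⟨k, Finset.mem_univ _, Finset.mem_union_right _ hx⟩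
  have hexp : ∀ x : ↥(D1 F G).toSubmodule, (P.b.repr (x : G)).support ⊆ S → x = ∑ p ∈ S, P.b.repr (x : G) p • e p := by
    intro x hx
    apply Subtype.ext
    have h1 : (x : G) = ∑ p ∈ S, P.b.repr (x : G) p • P.b p := by
      conv_lhs => rw [← P.b.linearCombination_repr (x : G)]
      rw [Finsupp.linearCombination_apply]
      exact Finsupp.sum_of_support_subset _ hx _ (fun _ _ => zero_smul _ _)
    conv_lhs => rw [h1]
    rw [Submodule.coe_sum]
    refine Finset.sum_congr rfl fun p _ => ?_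
    rw [Submodule.coe_smul]
    by_cases h2 : P.b.repr (x : G) p = 0
    · rw [h2, zero_smul, zero_smul]
    · rw [(he p).1 ((P.h1 _).1 x.2 p h2)]
  have hsum : ∑ k, β (v k) (w k) =
      ∑ a ∈ S ×ˢ S, (∑ k, P.b.repr (v k : G) a.1 * P.b.repr (w k : G) a.2) • β (e a.1) (e a.2) := by
    have h1 : ∀ k, β (v k) (w k) = ∑ a ∈ S ×ˢ S, (P.b.repr (v k : G) a.1 * P.b.repr (w k : G) a.2) • β (e a.1) (e a.2) := by
      intro k
      have h2 : β (v k) (w k) = β (∑ p ∈ S, P.b.repr (v k : G) p • e p) (∑ q ∈ S, P.b.repr (w k : G) q • e q) := by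
        rw [← hexp _ (hS k).1, ← hexp _ (hS k).2]
      rw [h2, LinearMap.map_sum₂, Finset.sum_product]
      refine Finset.sum_congr rfl fun p _ => ?_
      rw [map_sum]
      refine Finset.sum_congr rfl fun q _ => ?_
      rw [map_smul, map_smul, LinearMap.smul_apply, smul_smul, mul_comm]
    rw [Finset.sum_congr rfl fun k _ => h1 k, Finset.sum_comm]
    refine Finset.sum_congr rfl fun a _ => ?_
    rw [Finset.sum_smul]
  rw [hsum]
  refine Finset.sum_involution (fun a _ => (a.2, a.1)) ?_ ?_ ?_ ?_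
  · rintro ⟨p, q⟩ _
    simp only
    rw [hs (e q) (e p), ← add_smul]
    by_cases hq : P.wt q = 1
    · by_cases hp : P.wt p = 1
      · by_cases hpq : p = q
        · subst hpq
          rw [hdiag p hp, add_zero, zero_smul]
        · rw [hoff p q hpq hp hq, zero_smul]
      · rw [hs (e p) (e q), hβ q p hp, smul_zero]
    · rw [hβ p q hq, smul_zero]
  · rintro ⟨p, q⟩ _ hne h1
    apply hne
    have hqp : q = p := (Prod.ext_iff.1 h1).1
    subst hqp
    simp only
    by_cases hq : P.wt q = 1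
    · rw [hdiag q hq, zero_smul]
    · rw [hβ q q hq, smul_zero]
  · rintro ⟨p, q⟩ ha
    rw [Finset.mem_product] at ha ⊢
    exact ⟨ha.2, ha.1⟩
  · rintro ⟨p, q⟩ _
    rfl

end EL
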