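import Pool.Agent.Lib.MP_a5a771_al.Bas
import Pool.Agent.Lib.MP_a5a771_al.AdpE
import Pool.Agent.Lib.MP_a5a771_al.Idl

/-!
# `G' ∩ I² ω ≤ [G', G'']`

PROOF. Adapted basis `P`, basis `B` of sorted monomials. `I² ω = N1 * N1 * Aug` (`com_com_aug`) is spanned by `mon (k :: l :: s)` with `1 ≤ wt k`, `1 ≤ wt l`,
`s` sorted, `s ≠ []` (`aug_span`). Its coordinates at the one letter words `[n]` with `wt n ≤ 2` vanish: if the weight of `k :: l :: s` is at least `3`:
`mon_mem_SF` (`m = 3`, `adp_C`) and `coord_SF`. Otherwise `wt k = wt l = 1` and `s` has weight `0`. If `k ≤ l` then `k :: l :: s` is sorted with at least three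
letters. If `l < k` then `mon (k :: l :: s) = mon (l :: k :: s) + ∑ (b.repr ⁅b k, b l⁆ p) • mon (p :: s)`; both kinds of words are sorted (`wt p ≥ 2` by `adp_C`, `anti`) and
have at least two letters. The coordinate of `i x` at `[n]` is `b.repr x n`; so `b.repr x n = 0` if `wt n ≤ 2` and `x ∈ D3` by `h3`.
-/

set_option autoImplicit false

namespace EL

variable {F G U : Type*} [Field F] [LieRing G] [LieAlgebra F G] [Ring U] [Algebra F U]
  {i : G →ₗ[F] U} {ε : U →ₐ[F] F}

private theorem F5_mon {ι : Type*} (b : Module.Basis ι F G) (k : ι) (t : List ι) :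
    mon i b (k :: t) = i (b k) * mon i b t := by
  unfold mon
  rw [List.map_cons, List.prod_cons]

private theorem F5_coord {ι : Type*} [LinearOrder ι] (b : Module.Basis ι F G)
    (B : Module.Basis {l : List ι // l.Pairwise (· ≤ ·)} F U) (hB : ∀ s, B s = mon i b s.1)
    (t : List ι) (ht : t.Pairwise (· ≤ ·)) (n : {l : List ι // l.Pairwise (· ≤ ·)})
    (hn : n.1.length = 1) (h2 : 2 ≤ t.length) : B.repr (mon i b t) n = 0 := by
  have h1 := hB ⟨t, ht⟩
  rw [← h1, Module.Basis.repr_self]
  refine Finsupp.single_eq_of_ne fun h => ?_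
  have h3 := congrArg (fun z => z.1.length) h
  have h4 : n.1.length = t.length := h3
  omega

private theorem F5_one {ι : Type*} [LinearOrder ι] (b : Module.Basis ι F G)
    (B : Module.Basis {l : List ι // l.Pairwise (· ≤ ·)} F U) (hB : ∀ s, B s = mon i b s.1)
    (n : ι) (x : G) : B.repr (i x) ⟨[n], List.pairwise_singleton _ _⟩ = b.repr x n := by
  classical
  have h : B.coord ⟨[n], List.pairwise_singleton _ _⟩ ∘ₗ i = b.coord n := b.ext fun k => by
    show B.repr (i (b k)) ⟨[n], List.pairwise_singleton _ _⟩ = b.repr (b k) n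
    have h1 : i (b k) = B ⟨[k], List.pairwise_singleton _ _⟩ := by
      rw [hB]
      show i (b k) = mon i b [k]
      rw [F5_mon]
      unfold mon
      rw [List.map_nil, List.prod_nil, mul_one]
    rw [h1, Module.Basis.repr_self, Module.Basis.repr_self, Finsupp.single_apply,
      Finsupp.single_apply]
    by_cases h2 : k = n
    · subst h2
      rw [if_pos rfl, if_pos rfl]
    · rw [if_neg h2, if_neg fun h3 => h2 ?_]
      have h4 := congrArg Subtype.val h3
      exact List.singleton_injective h4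
  exact LinearMap.congr_fun h x

private theorem F5_N1 {ι : Type*} [LinearOrder ι] (P : Adp F G ι) :
    N1 i ≤ Submodule.span F {z | ∃ k, 1 ≤ P.wt k ∧ i (P.b k) = z} := by
  rintro _ ⟨x, hx, rfl⟩
  have h := P.b.linearCombination_repr x
  rw [← h, Finsupp.linearCombination_apply, Finsupp.sum, map_sum]
  refine Submodule.sum_mem _ fun k hk => ?_
  rw [map_smul]
  exact Submodule.smul_mem _ _ (Submodule.subset_span
    ⟨k, (P.h1 x).mp hx k (Finsupp.mem_support_iff.mp hk), rfl⟩)

private theorem F5_key (hE : Env i ε) {ι : Type*} [LinearOrder ι] (P : Adp F G ι)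
    (B : Module.Basis {l : List ι // l.Pairwise (· ≤ ·)} F U) (hB : ∀ s, B s = mon i P.b s.1)
    (n : ι) (hn : P.wt n ≤ 2) (k l : ι) (hk : 1 ≤ P.wt k) (hl : 1 ≤ P.wt l) (s : List ι)
    (hs : s.Pairwise (· ≤ ·)) (hs0 : s ≠ []) :
    B.repr (mon i P.b (k :: l :: s)) ⟨[n], List.pairwise_singleton _ _⟩ = 0 := by
  have hlen : 1 ≤ s.length := List.length_pos_iff.mpr hs0
  by_cases h3 : 3 ≤ ((k :: l :: s).map P.wt).sum
  · have h4 := mon_mem_SF hE P.b P.wt 3 (adp_C P) (k :: l :: s) h3
    refine coord_SF P.b B hB P.wt 3 _ h4 ⟨[n], List.pairwise_singleton _ _⟩ ?_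
    show ([n].map P.wt).sum < 3
    rw [List.map_singleton, List.sum_singleton]
    omega
  · rw [List.map_cons, List.map_cons, List.sum_cons, List.sum_cons] at h3
    have h4 : (s.map P.wt).sum = 0 := by omega
    have h5 : ∀ q ∈ s, P.wt q = 0 := by
      intro q hq
      have h6 := List.single_le_sum (fun _ _ => Nat.zero_le _) (P.wt q)
        (List.mem_map.mpr ⟨q, hq, rfl⟩)
      omega
    have h6 : ∀ p, 1 ≤ P.wt p → ∀ q ∈ s, p ≤ q := by
      intro p hp q hq
      by_contra h7
      have h8 := P.anti q p (le_of_lt (not_le.mp h7))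
      have h9 := h5 q hq
      omega
    rcases le_or_gt k l with h7 | h7
    · refine F5_coord P.b B hB _ ?_ _ rfl (by rw [List.length_cons, List.length_cons]; omega)
      refine List.pairwise_cons.mpr ⟨?_, List.pairwise_cons.mpr ⟨h6 l hl, hs⟩⟩
      intro q hq
      rcases List.mem_cons.mp hq with rfl | hq
      · exact h7
      · exact h6 k hk q hq
    · have h8 : mon i P.b (k :: l :: s) = mon i P.b (l :: k :: s) +
          i ⁅P.b k, P.b l⁆ * mon i P.b s := by
        rw [F5_mon, F5_mon, F5_mon, F5_mon, env_lie hE]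
        noncomm_ring
      rw [h8, map_add, Finsupp.add_apply]
      have h9 : B.repr (mon i P.b (l :: k :: s)) ⟨[n], List.pairwise_singleton _ _⟩ = 0 := by
        refine F5_coord P.b B hB _ ?_ _ rfl (by rw [List.length_cons, List.length_cons]; omega)
        refine List.pairwise_cons.mpr ⟨?_, List.pairwise_cons.mpr ⟨h6 k hk, hs⟩⟩
        intro q hq
        rcases List.mem_cons.mp hq with rfl | hq
        · exact h7.le
        · exact h6 l hl q hq
      rw [h9, zero_add]
      have h10 := P.b.linearCombination_repr ⁅P.b k, P.b l⁆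
      have h11 : i ⁅P.b k, P.b l⁆ * mon i P.b s =
          ∑ p ∈ (P.b.repr ⁅P.b k, P.b l⁆).support,
            P.b.repr ⁅P.b k, P.b l⁆ p • mon i P.b (p :: s) := by
        conv_lhs => rw [← h10]
        rw [Finsupp.linearCombination_apply, Finsupp.sum, map_sum, Finset.sum_mul]
        refine Finset.sum_congr rfl fun p _ => ?_
        rw [map_smul, smul_mul_assoc, F5_mon]
      rw [h11, map_sum, Finsupp.finsetSum_apply]
      refine Finset.sum_eq_zero fun p hp => ?_
      rw [map_smul, Finsupp.smul_apply, smul_eq_mul]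
      have h12 := adp_C P k l p (Finsupp.mem_support_iff.mp hp)
      have h13 : 1 ≤ P.wt p := by
        have h14 : 2 ≤ min 3 (P.wt k + P.wt l) := le_min (by norm_num) (by omega)
        omega
      rw [F5_coord P.b B hB (p :: s) (List.pairwise_cons.mpr ⟨h6 p h13, hs⟩) _ rfl
        (by rw [List.length_cons]; omega), mul_zero]

theorem f5 (hE : Env i ε) (x : G) (h : i x ∈ Com F U * Com F U * Aug ε) : x ∈ D3 F G := by
  obtain ⟨ι, inst, ⟨P⟩⟩ := exists_adp F G
  obtain ⟨B, hB⟩ := exists_pbw hE P.b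
  rw [P.h3]
  intro n hn
  by_contra h3
  apply hn
  rw [← F5_one P.b B hB n x]
  have h4 : Com F U * Com F U * Aug ε ≤
      LinearMap.ker (B.coord ⟨[n], List.pairwise_singleton _ _⟩) := by
    rw [com_com_aug hE, aug_span hE P.b]
    refine (mul_le_mul' (mul_le_mul' (F5_N1 P) (F5_N1 P)) le_rfl).trans ?_
    rw [Submodule.span_mul_span, Submodule.span_mul_span, Submodule.span_le]
    rintro _ ⟨_, ⟨_, ⟨k, hk, rfl⟩, _, ⟨l, hl, rfl⟩, rfl⟩, _, ⟨s, hs, hs0, rfl⟩, rfl⟩
    show B.repr (i (P.b k) * i (P.b l) * mon i P.b s) ⟨[n], List.pairwise_singleton _ _⟩ = 0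
    have h5 := F5_key hE P B hB n (by omega) k l hk hl s hs hs0
    rw [F5_mon, F5_mon, ← mul_assoc] at h5
    exact h5
  exact h4 h

end EL
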