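import Pool.Agent.Lib.MP_a5a771_al.Bas
import Pool.Agent.Lib.MP_a5a771_al.AdpE
import Pool.Agent.Lib.MP_a5a771_al.Idl

/-!
# `⋂ Iⁿ = 0` for metabelian Lie algebras

PROOF. Adapted basis `P`. As `D2 = ⊥` and `b p ≠ 0`, all weights are `0` or `1` (`h2`). So `wt p + wt q ≤ wt k` whenever `b.repr ⁅b p, b q⁆ k ≠ 0` (if `wt p = wt q = 1` the
bracket is in `D2 = ⊥`; if one of them is `1`: `adp_C`), and `mon_mem_SF` applies for every `m`. `Iⁿ ≤ SF n` by induction: `I = N1 * ⊤`
(`com_eq`); `Iⁿ = (N1)ⁿ ⊤` or: `Iⁿ` is spanned by words of weight at least `n` (products of words; `env_words`). An element of `⋂ SF n` has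
all coordinates `0` in the basis `B` (`exists_pbw`, `coord_SF` with `n` larger than the weight of the word).
-/

set_option autoImplicit false

namespace EL

variable {F G U : Type*} [Field F] [LieRing G] [LieAlgebra F G] [Ring U] [Algebra F U]
  {i : G →ₗ[F] U} {ε : U →ₐ[F] F}

private theorem F6_mon_append {ι : Type*} (i : G →ₗ[F] U) (b : Module.Basis ι F G) (s t : List ι) :
    mon i b s * mon i b t = mon i b (s ++ t) := by
  unfold mon
  rw [List.map_append, List.prod_append]

private theorem F6_mul {ι : Type*} [LinearOrder ι] (hE : Env i ε) (b : Module.Basis ι F G) (wt : ι → ℕ)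
    (hC : ∀ p q k, b.repr ⁅b p, b q⁆ k ≠ 0 → wt p + wt q ≤ wt k) (m n : ℕ) :
    SF i b wt m * SF i b wt n ≤ SF i b wt (m + n) := by
  unfold SF
  rw [Submodule.span_mul_span, Submodule.span_le]
  rintro z ⟨x, ⟨s, hs, hsm, rfl⟩, y, ⟨t, ht, htm, rfl⟩, rfl⟩
  show mon i b s * mon i b t ∈ SF i b wt (m + n)
  rw [F6_mon_append]
  apply mon_mem_SF hE b wt (m + n) (fun p q k h => (min_le_right _ _).trans (hC p q k h))
  rw [List.map_append, List.sum_append]
  exact Nat.add_le_add hsm htm

theorem f6 (hE : Env i ε) (hm : D2 F G = ⊥) (z : U) (hz : ∀ n : ℕ, z ∈ (Com F U) ^ (n + 1)) : z = 0 := by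
  obtain ⟨ι, hι, ⟨P⟩⟩ := exists_adp F G
  have hwt : ∀ p, P.wt p ≤ 1 := by
    intro p
    by_contra hp
    have h1 : P.b p ∈ D2 F G := by
      rw [P.h2]
      intro q hq
      rw [Module.Basis.repr_self, Finsupp.single_apply] at hq
      by_cases hpq : p = q
      · rw [← hpq]
        omega
      · rw [if_neg hpq] at hq
        exact absurd rfl hq
    rw [hm] at h1
    exact P.b.ne_zero p ((LieSubmodule.mem_bot _).1 h1)
  have hC : ∀ p q k, P.b.repr ⁅P.b p, P.b q⁆ k ≠ 0 → P.wt p + P.wt q ≤ P.wt k := by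
    intro p q k h
    have h1 := adp_C P p q k h
    have h2 := hwt p
    have h3 := hwt q
    omega
  have hN : N1 i ≤ SF i P.b P.wt 1 := by
    rintro y ⟨x, hx, rfl⟩
    have hx' : x ∈ D1 F G := hx
    have h1 := (P.h1 x).1 hx'
    have h2 : i x = (P.b.repr x).sum fun k c => c • i (P.b k) := by
      have h3 : x = (P.b.repr x).sum fun k c => c • P.b k := by
        have h4 := P.b.linearCombination_repr x
        rw [Finsupp.linearCombination_apply] at h4
        exact h4.symm
      conv_lhs => rw [h3]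
      rw [Finsupp.sum, map_sum, Finsupp.sum]
      exact Finset.sum_congr rfl fun k _ => map_smul _ _ _
    rw [h2]
    apply Submodule.sum_mem
    intro k hk
    apply Submodule.smul_mem
    apply Submodule.subset_span
    refine ⟨[k], List.pairwise_singleton _ _, ?_, ?_⟩
    · simpa using h1 k (Finsupp.mem_support_iff.1 hk)
    · simp [mon]
  have hI : Com F U ≤ SF i P.b P.wt 1 := by
    rw [com_eq hE]
    calc N1 i * ⊤ ≤ SF i P.b P.wt 1 * SF i P.b P.wt 0 := by
          rw [SF_zero hE P.b P.wt]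
          exact mul_le_mul' hN le_rfl
      _ ≤ SF i P.b P.wt (1 + 0) := F6_mul hE P.b P.wt hC 1 0
  have hpow : ∀ n : ℕ, (Com F U) ^ n ≤ SF i P.b P.wt n := by
    intro n
    induction n with
    | zero =>
      rw [SF_zero hE P.b P.wt]
      exact le_top
    | succ n ih =>
      rw [pow_succ]
      exact (mul_le_mul' ih hI).trans (F6_mul hE P.b P.wt hC n 1)
  obtain ⟨B, hB⟩ := exists_pbw hE P.b
  have h0 : B.repr z = 0 := by
    ext s
    exact coord_SF P.b B hB P.wt ((s.1.map P.wt).sum + 1) z (hpow _ (hz _)) s (Nat.lt_succ_self _)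
  exact B.repr.map_eq_zero_iff.1 h0

end EL
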