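import Pool.Agent.Lib.MP_a5a771_al.Mc
import Pool.Agent.Lib.MP_a5a771_al.Bc

/-!
# The theorem over all fields of characteristic different from two

PROOF. `K = AlgebraicClosure F`; `base_change`, `exists_common`, `main_closed` for `K ⊗ L`, `K ⊗ H`; `LieAlgebra.derivedSeries_baseChange`: `D2 K (K ⊗ L) = (D2 F L).baseChange K`, which is
`⊥` iff `D2 F L = ⊥` (faithfully flat, `1 ⊗ x = 0` iff `x = 0`).
-/

set_option autoImplicit false

namespace EL

open scoped TensorProduct

theorem metab {F L H : Type*} [Field F] (h2 : (2 : F) ≠ 0) [LieRing L] [LieAlgebra F L] [LieRing H] [LieAlgebra F H]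
    (e : UniversalEnvelopingAlgebra F L ≃ₐ[F] UniversalEnvelopingAlgebra F H) (hm : D2 F L = ⊥) : D2 F H = ⊥ := by
  obtain ⟨eK⟩ := base_change (K := AlgebraicClosure F) e
  obtain ⟨iL, iH, ε, hL, hH⟩ := exists_common eK
  have h2K : (2 : AlgebraicClosure F) ≠ 0 := by
    intro h
    apply h2
    apply (algebraMap F (AlgebraicClosure F)).injective
    rw [map_ofNat, map_zero]
    exact h
  have hmK : D2 (AlgebraicClosure F) (AlgebraicClosure F ⊗[F] L) = ⊥ := by
    show LieAlgebra.derivedSeries (AlgebraicClosure F) (AlgebraicClosure F ⊗[F] L) 2 = ⊥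
    have hm' : LieAlgebra.derivedSeries F L 2 = ⊥ := hm
    rw [LieAlgebra.derivedSeries_baseChange, hm', LieSubmodule.baseChange_bot]
  have hHK := main_closed h2K hL hH hmK
  have hHK' : LieAlgebra.derivedSeries (AlgebraicClosure F) (AlgebraicClosure F ⊗[F] H) 2 = ⊥ := hHK
  rw [LieAlgebra.derivedSeries_baseChange, eq_bot_iff] at hHK'
  rw [eq_bot_iff]
  intro x hx
  have h1 := hHK' (LieSubmodule.tmul_mem_baseChange_of_mem (A := AlgebraicClosure F) 1 hx)
  rw [LieSubmodule.mem_bot] at h1 ⊢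
  rwa [Module.FaithfullyFlat.one_tmul_eq_zero_iff] at h1

end EL
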