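import Pool.Agent.Lib.MP_a5a771_al.F2
import Pool.Agent.Lib.MP_a5a771_al.F3

/-!
# The map `j : I / I ω → I / I²` of a Lie algebra

PROOF. The map `D1 → I / I ω`, `v ↦ i v` is onto (`com_eq`: `I = N1 * ⊤ = N1 + N1 * Aug = N1 + I ω` because `⊤ = F · 1 + Aug`), its kernel is contained in `D2` (`f2`), and `i v ∈ I²` for
`v ∈ D2` (`D2 = ⁅D1, D1⁆`, `env_lie`; `i v ∈ I` for `v ∈ D1`). So `j (class of i v) = class of i v` is well defined. `rj rgt j` is onto: `I = N1 * ⊤`, class of `i v * u` is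
`rgt (p u) (j (class of i v))`. Injective: adapted basis `P` (`exists_adp`); the classes of `i (b k)`, `wt k = 1`, are a basis of `I / I ω` (they generate since
`D1 = span (b k, wt k = 1) + D2`; independent by `f2`), so every element of `A ⊗ Vq` is `∑ p (u k) ⊗ class (i (b k))`; if its image `class of ∑ i (b k) u k` is `0` then
`u k ∈ Com` by `f3`, so `p (u k) = 0`. Third statement: for `v = class of i v₀`: `i x * i v₀ = i v₀ * i x + i ⁅x, v₀⁆`; in `Vq` the class of `i x * i v₀` is the class of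
`i ⁅x, v₀⁆` because `i v₀ * i x ∈ I * Aug` (`hE.aug`); so `j (act (p (i x)) v) = class of i ⁅x, v₀⁆` in `Mq`.
-/

set_option autoImplicit false

namespace EL

open scoped TensorProduct

section

variable {F G U : Type*} [Field F] [LieRing G] [LieAlgebra F G] [Ring U] [Algebra F U]
  {i : G →ₗ[F] U} {ε : U →ₐ[F] F}

private theorem Jx_mem (hE : Env i ε) {v : G} (hv : v ∈ D1 F G) : i v ∈ Com F U := by
  rw [com_eq hE, ← mul_one (i v)]
  exact Submodule.mul_mem_mul (Submodule.mem_map_of_mem hv) Submodule.mem_top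

private theorem Jx_aug (hE : Env i ε) (x : G) : i x ∈ Aug ε := by
  unfold Aug
  rw [LinearMap.mem_ker]
  exact hE.aug x

private theorem Jx_sq (hE : Env i ε) {v : G} (hv : v ∈ D2 F G) : i v ∈ Com F U * Com F U := by
  have h1 : v ∈ (⁅D1 F G, D1 F G⁆ : LieIdeal F G) := hv
  have h2 : v ∈ (⁅D1 F G, D1 F G⁆ : LieIdeal F G).toSubmodule := h1
  rw [LieSubmodule.lieIdeal_oper_eq_linear_span'] at h2
  refine Submodule.span_induction (p := fun x _ => i x ∈ Com F U * Com F U) ?_ ?_ ?_ ?_ h2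
  · rintro _ ⟨x, hx, y, hy, rfl⟩
    rw [env_lie hE]
    exact Submodule.sub_mem _ (Submodule.mul_mem_mul (Jx_mem hE hx) (Jx_mem hE hy))
      (Submodule.mul_mem_mul (Jx_mem hE hy) (Jx_mem hE hx))
  · rw [map_zero]
    exact Submodule.zero_mem _
  · intro x y _ _ hx hy
    rw [map_add]
    exact Submodule.add_mem _ hx hy
  · intro c x _ hx
    rw [map_smul]
    exact Submodule.smul_mem _ _ hx

/-- `v ↦ i v` -/
private def Jx_d (hE : Env i ε) : ↥(D1 F G).toSubmodule →ₗ[F] ↥(Com F U) :=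
  (i.comp (D1 F G).toSubmodule.subtype).codRestrict (Com F U) fun v => Jx_mem hE v.2

private theorem Jx_d_val (hE : Env i ε) (v : ↥(D1 F G).toSubmodule) : ((Jx_d hE v : ↥(Com F U)) : U) = i v := rfl

/-- the map `D1 → I / I ω` -/
private def Jx_a (hE : Env i ε) : ↥(D1 F G).toSubmodule →ₗ[F] Vq ε :=
  (Submodule.mkQ _).comp (Jx_d hE)

/-- the map `D1 → I / I ^ 2` -/
private def Jx_b (hE : Env i ε) : ↥(D1 F G).toSubmodule →ₗ[F] Mq F U :=
  (Submodule.mkQ _).comp (Jx_d hE)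

private theorem Jx_a_surj (hE : Env i ε) : Function.Surjective (Jx_a hE) := by
  intro q
  obtain ⟨z, rfl⟩ := Submodule.mkQ_surjective _ q
  have hz : (z : U) ∈ N1 i * ⊤ := by
    rw [← com_eq hE]
    exact z.2
  have key : ∃ v ∈ D1 F G, (z : U) - i v ∈ Com F U * Aug ε := by
    refine Submodule.mul_induction_on (C := fun t => ∃ v ∈ D1 F G, t - i v ∈ Com F U * Aug ε) hz ?_ ?_
    · rintro m hm u -
      obtain ⟨v, hv, rfl⟩ := hm
      have hv' : v ∈ D1 F G := hv
      refine ⟨ε u • v, (D1 F G).smul_mem _ hv', ?_⟩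
      have h1 : i v * u - i (ε u • v) = i v * (u - algebraMap F U (ε u)) := by
        rw [map_smul, mul_sub, Algebra.smul_def, Algebra.commutes]
      rw [h1]
      refine Submodule.mul_mem_mul (Jx_mem hE hv') ?_
      unfold Aug
      rw [LinearMap.mem_ker, AlgHom.toLinearMap_apply, map_sub, AlgHom.commutes]
      simp
    · rintro x y ⟨v, hv, hx⟩ ⟨w, hw, hy⟩
      refine ⟨v + w, (D1 F G).add_mem hv hw, ?_⟩
      have h1 : x + y - i (v + w) = (x - i v) + (y - i w) := by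
        rw [map_add]
        abel
      rw [h1]
      exact Submodule.add_mem _ hx hy
  obtain ⟨v, hv, hzv⟩ := key
  refine ⟨⟨v, hv⟩, ?_⟩
  symm
  refine (Submodule.Quotient.eq _).2 ?_
  exact hzv

private theorem Jx_ker (hE : Env i ε) : LinearMap.ker (Jx_a hE) ≤ LinearMap.ker (Jx_b hE) := by
  intro v hv
  rw [LinearMap.mem_ker] at hv ⊢
  have h1 : Jx_d hE v ∈ (Com F U * Aug ε).comap (Com F U).subtype := (Submodule.Quotient.mk_eq_zero _).1 hv
  have h2 : i v ∈ Com F U * Aug ε := h1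
  have h3 := Jx_sq hE (f2 hE v v.2 h2)
  exact (Submodule.Quotient.mk_eq_zero _).2 h3

private theorem Jx_a_zero (hE : Env i ε) (v : ↥(D1 F G).toSubmodule) (hv : (v : G) ∈ D2 F G) :
    Jx_a hE v = 0 := by
  refine (Submodule.Quotient.mk_eq_zero _).2 ?_
  exact mul_le_mul' le_rfl (com_le_aug ε) (Jx_sq hE hv)

private theorem Jx_exists (hE : Env i ε) : ∃ j : Vq ε →ₗ[F] Mq F U, ∀ v, j (Jx_a hE v) = Jx_b hE v := by
  refine ⟨((LinearMap.ker (Jx_a hE)).liftQ (Jx_b hE) (Jx_ker hE)).comp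
    ((Jx_a hE).quotKerEquivOfSurjective (Jx_a_surj hE)).symm.toLinearMap, fun v => ?_⟩
  have h1 : ((Jx_a hE).quotKerEquivOfSurjective (Jx_a_surj hE)).symm (Jx_a hE v) =
      Submodule.Quotient.mk v := by
    rw [LinearEquiv.symm_apply_eq]
    rfl
  rw [LinearMap.comp_apply, LinearEquiv.coe_coe, h1]
  rfl

end

theorem exists_j {F G U A : Type*} [Field F] [LieRing G] [LieAlgebra F G] [Ring U] [Algebra F U] [CommRing A] [Algebra F A]
    {i : G →ₗ[F] U} {ε : U →ₐ[F] F} (hE : Env i ε) (p : U →ₐ[F] A) (hp : Function.Surjective p)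
    (hk : ∀ u, p u = 0 ↔ u ∈ Com F U) (act : A →ₐ[F] Module.End F (Vq ε))
    (hact : ∀ (u : U) (z w : ↥(Com F U)), (w : U) = u * z → act (p u) (Submodule.Quotient.mk z) = Submodule.Quotient.mk w)
    (lft rgt : A →ₐ[F] Module.End F (Mq F U))
    (hlft : ∀ (u : U) (z w : ↥(Com F U)), (w : U) = u * z → lft (p u) (Submodule.Quotient.mk z) = Submodule.Quotient.mk w)
    (hrgt : ∀ (u : U) (z w : ↥(Com F U)), (w : U) = z * u → rgt (p u) (Submodule.Quotient.mk z) = Submodule.Quotient.mk w) :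
    ∃ j : Vq ε →ₗ[F] Mq F U, Function.Bijective (rj rgt j) ∧
      (∀ (z : ↥(Com F U)) (v : G), v ∈ D1 F G → (z : U) = i v → j (Submodule.Quotient.mk z) = Submodule.Quotient.mk z) ∧
      (∀ x v, lft (p (i x)) (j v) = rgt (p (i x)) (j v) + j (act (p (i x)) v)) ∧
      ∀ v : Vq ε, ∃ (z : ↥(Com F U)) (v₀ : G), v₀ ∈ D1 F G ∧ (z : U) = i v₀ ∧ Submodule.Quotient.mk z = v := by
  classical
  obtain ⟨j, hj⟩ := Jx_exists hE
  have hj2 : ∀ (z : ↥(Com F U)) (v : G), v ∈ D1 F G → (z : U) = i v →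
      j (Submodule.Quotient.mk z) = Submodule.Quotient.mk z := by
    intro z v hv hz
    have h1 : z = Jx_d hE ⟨v, hv⟩ := Subtype.ext hz
    rw [h1]
    exact hj ⟨v, hv⟩
  have hrep : ∀ v : Vq ε, ∃ (z : ↥(Com F U)) (v₀ : G), v₀ ∈ D1 F G ∧ (z : U) = i v₀ ∧
      Submodule.Quotient.mk z = v := by
    intro v
    obtain ⟨v₀, rfl⟩ := Jx_a_surj hE v
    exact ⟨Jx_d hE v₀, v₀, v₀.2, rfl, rfl⟩
  have hrj : ∀ (a : A) (v : Vq ε), rj rgt j (a ⊗ₜ v) = rgt a (j v) := fun a v => rfl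
  refine ⟨j, ⟨?_, ?_⟩, hj2, ?_, hrep⟩
  · -- injective
    obtain ⟨ι, _, ⟨P⟩⟩ := exists_adp F G
    have hb1 : ∀ k, 1 ≤ P.wt k → P.b k ∈ D1 F G := by
      intro k hk1
      rw [P.h1]
      intro q hq
      rw [P.b.repr_self, Finsupp.single_apply] at hq
      by_cases hkq : k = q
      · rwa [← hkq]
      · rw [if_neg hkq] at hq
        exact absurd rfl hq
    have hb2 : ∀ k, 2 ≤ P.wt k → P.b k ∈ D2 F G := by
      intro k hk1
      rw [P.h2]
      intro q hq
      rw [P.b.repr_self, Finsupp.single_apply] at hq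
      by_cases hkq : k = q
      · rwa [← hkq]
      · rw [if_neg hkq] at hq
        exact absurd rfl hq
    let κ : Type _ := {k : ι // P.wt k = 1}
    let e : κ → Vq ε := fun k => Jx_a hE ⟨P.b k.1, hb1 k.1 k.2.ge⟩
    have hspan : ∀ v : Vq ε, v ∈ Submodule.span F (Set.range e) := by
      intro v
      obtain ⟨v₀, rfl⟩ := Jx_a_surj hE v
      have h1 : (v₀ : G) ∈ Submodule.span F (P.b '' {k | 1 ≤ P.wt k}) := by
        rw [P.b.mem_span_image]
        intro k hk1
        exact (P.h1 v₀).1 v₀.2 k (Finsupp.mem_support_iff.1 hk1)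
      have h2 : ∃ h : (v₀ : G) ∈ (D1 F G).toSubmodule, Jx_a hE ⟨v₀, h⟩ ∈ Submodule.span F (Set.range e) := by
        refine Submodule.span_induction (p := fun x _ => ∃ h : x ∈ (D1 F G).toSubmodule,
          Jx_a hE ⟨x, h⟩ ∈ Submodule.span F (Set.range e)) ?_ ?_ ?_ ?_ h1
        · rintro _ ⟨k, hk1, rfl⟩
          refine ⟨hb1 k hk1, ?_⟩
          rcases Nat.lt_or_ge (P.wt k) 2 with h | h
          · have h3 : P.wt k = 1 := le_antisymm (Nat.lt_succ_iff.1 h) hk1
            exact Submodule.subset_span ⟨⟨k, h3⟩, rfl⟩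
          · rw [Jx_a_zero hE _ (hb2 k h)]
            exact Submodule.zero_mem _
        · refine ⟨Submodule.zero_mem _, ?_⟩
          have h3 : (⟨0, Submodule.zero_mem _⟩ : ↥(D1 F G).toSubmodule) = 0 := rfl
          rw [h3, map_zero]
          exact Submodule.zero_mem _
        · rintro x y _ _ ⟨hx, hx'⟩ ⟨hy, hy'⟩
          refine ⟨Submodule.add_mem _ hx hy, ?_⟩
          have h3 : (⟨x + y, Submodule.add_mem _ hx hy⟩ : ↥(D1 F G).toSubmodule) = ⟨x, hx⟩ + ⟨y, hy⟩ := rfl
          rw [h3, map_add]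
          exact Submodule.add_mem _ hx' hy'
        · rintro c x _ ⟨hx, hx'⟩
          refine ⟨Submodule.smul_mem _ c hx, ?_⟩
          have h3 : (⟨c • x, Submodule.smul_mem _ c hx⟩ : ↥(D1 F G).toSubmodule) = c • ⟨x, hx⟩ := rfl
          rw [h3, map_smul]
          exact Submodule.smul_mem _ c hx'
      obtain ⟨_, h3⟩ := h2
      exact h3
    let T : (κ →₀ A) →ₗ[F] A ⊗[F] Vq ε :=
      Finsupp.lsum F fun k => (TensorProduct.mk F A (Vq ε)).flip (e k)
    have hT : ∀ f : κ →₀ A, T f = ∑ k ∈ f.support, f k ⊗ₜ[F] e k := fun f => rfl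
    have hTs : ∀ x : A ⊗[F] Vq ε, x ∈ LinearMap.range T := by
      intro x
      induction x using TensorProduct.induction_on with
      | zero => exact Submodule.zero_mem _
      | tmul a v =>
        refine Submodule.span_induction (p := fun v _ => a ⊗ₜ[F] v ∈ LinearMap.range T) ?_ ?_ ?_ ?_ (hspan v)
        · rintro _ ⟨k, rfl⟩
          refine ⟨Finsupp.single k a, ?_⟩
          show Finsupp.lsum F (fun k => (TensorProduct.mk F A (Vq ε)).flip (e k)) (Finsupp.single k a) = _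
          rw [Finsupp.lsum_single]
          rfl
        · rw [TensorProduct.tmul_zero]
          exact Submodule.zero_mem _
        · intro v w _ _ hv hw
          rw [TensorProduct.tmul_add]
          exact Submodule.add_mem _ hv hw
        · intro c v _ hv
          rw [TensorProduct.tmul_smul]
          exact Submodule.smul_mem _ c hv
      | add x y hx hy => exact Submodule.add_mem _ hx hy
    rw [← LinearMap.ker_eq_bot, LinearMap.ker_eq_bot']
    intro x hx
    obtain ⟨f, rfl⟩ := hTs x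
    choose u hu using fun k : κ => hp (f k)
    have hmem : ∀ k : κ, i (P.b k.1) * u k ∈ Com F U := fun k =>
      com_mul_right _ _ (Jx_mem hE (hb1 k.1 k.2.ge))
    have h1 : rj rgt j (T f) = Submodule.Quotient.mk (∑ k ∈ f.support, (⟨i (P.b k.1) * u k, hmem k⟩ : ↥(Com F U))) := by
      rw [hT, map_sum]
      have h2 : (Submodule.Quotient.mk (∑ k ∈ f.support, (⟨i (P.b k.1) * u k, hmem k⟩ : ↥(Com F U))) : Mq F U) =
          ∑ k ∈ f.support, Submodule.Quotient.mk (⟨i (P.b k.1) * u k, hmem k⟩ : ↥(Com F U)) :=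
        map_sum (Submodule.mkQ ((Com F U * Com F U).comap (Com F U).subtype)) _ _
      rw [h2]
      refine Finset.sum_congr rfl fun k _ => ?_
      rw [hrj, hj, ← hu k]
      exact hrgt (u k) (Jx_d hE ⟨P.b k.1, hb1 k.1 k.2.ge⟩) ⟨i (P.b k.1) * u k, hmem k⟩ rfl
    rw [h1] at hx
    have h2 : ∑ k ∈ f.support, i (P.b k.1) * u k ∈ Com F U * Com F U := by
      have h3 := (Submodule.Quotient.mk_eq_zero _).1 hx
      rw [Submodule.mem_comap, map_sum] at h3
      exact h3
    let u' : ι → U := fun k => if h : P.wt k = 1 then u ⟨k, h⟩ else 0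
    have hu' : ∀ k : κ, u' k.1 = u k := fun k => dif_pos k.2
    have h3 : ∑ k ∈ f.support.map (Function.Embedding.subtype _), i (P.b k) * u' k ∈ Com F U * Com F U := by
      rw [Finset.sum_map]
      have h4 : ∀ k ∈ f.support, i (P.b (Function.Embedding.subtype (fun k => P.wt k = 1) k)) *
          u' (Function.Embedding.subtype (fun k => P.wt k = 1) k) = i (P.b k.1) * u k := fun k _ => by
        rw [Function.Embedding.subtype_apply, hu']
      rw [Finset.sum_congr rfl h4]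
      exact h2
    have h4 := f3 hE P (f.support.map (Function.Embedding.subtype _)) (by
      intro k hk1
      obtain ⟨k', _, rfl⟩ := Finset.mem_map.1 hk1
      exact k'.2) u' h3
    have h5 : f = 0 := by
      rw [← Finsupp.support_eq_empty, Finset.eq_empty_iff_forall_notMem]
      intro k hk1
      have h6 := h4 k.1 (Finset.mem_map.2 ⟨k, hk1, rfl⟩)
      rw [hu', ← hk, hu] at h6
      exact Finsupp.mem_support_iff.1 hk1 h6
    rw [h5, map_zero]
  · -- surjective
    intro q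
    obtain ⟨z, rfl⟩ := Submodule.mkQ_surjective _ q
    have hz : (z : U) ∈ N1 i * ⊤ := by
      rw [← com_eq hE]
      exact z.2
    have key : ∃ h : (z : U) ∈ Com F U, (Submodule.Quotient.mk (⟨z, h⟩ : ↥(Com F U)) : Mq F U) ∈
        LinearMap.range (rj rgt j) := by
      refine Submodule.mul_induction_on (C := fun t => ∃ h : t ∈ Com F U,
        (Submodule.Quotient.mk (⟨t, h⟩ : ↥(Com F U)) : Mq F U) ∈ LinearMap.range (rj rgt j)) hz ?_ ?_
      · rintro m hm u -
        obtain ⟨v, hv, rfl⟩ := hm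
        have hv' : v ∈ D1 F G := hv
        refine ⟨com_mul_right _ _ (Jx_mem hE hv'), p u ⊗ₜ Jx_a hE ⟨v, hv⟩, ?_⟩
        rw [hrj, hj]
        exact hrgt u (Jx_d hE ⟨v, hv⟩) ⟨i v * u, com_mul_right _ _ (Jx_mem hE hv')⟩ rfl
      · rintro x y ⟨hx, hx'⟩ ⟨hy, hy'⟩
        exact ⟨Submodule.add_mem _ hx hy, Submodule.add_mem _ hx' hy'⟩
    obtain ⟨_, h2⟩ := key
    exact h2
  · -- the formula
    intro x v
    obtain ⟨z, v₀, hv₀, hz, rfl⟩ := hrep v
    have hw1 : i x * (z : U) ∈ Com F U := com_mul_left _ _ z.2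
    have hw2 : (z : U) * i x ∈ Com F U := com_mul_right _ _ z.2
    have hv3 : ⁅x, v₀⁆ ∈ D1 F G := (D1 F G).lie_mem hv₀
    have hw3 : i ⁅x, v₀⁆ ∈ Com F U := Jx_mem hE hv3
    have heq : i x * (z : U) = (z : U) * i x + i ⁅x, v₀⁆ := by
      rw [hz, env_lie hE]
      abel
    have h1 : act (p (i x)) (Submodule.Quotient.mk z) = Submodule.Quotient.mk ⟨i ⁅x, v₀⁆, hw3⟩ := by
      rw [hact (i x) z ⟨i x * (z : U), hw1⟩ rfl]
      refine (Submodule.Quotient.eq _).2 ?_
      rw [Submodule.mem_comap]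
      have h2 : (Com F U).subtype (⟨i x * (z : U), hw1⟩ - ⟨i ⁅x, v₀⁆, hw3⟩) = (z : U) * i x := by
        rw [map_sub]
        show i x * (z : U) - i ⁅x, v₀⁆ = (z : U) * i x
        rw [heq, add_sub_cancel_right]
      rw [h2]
      exact Submodule.mul_mem_mul z.2 (Jx_aug hE x)
    rw [h1, hj2 ⟨i ⁅x, v₀⁆, hw3⟩ ⁅x, v₀⁆ hv3 rfl, hj2 z v₀ hv₀ hz, hlft (i x) z ⟨i x * (z : U), hw1⟩ rfl,
      hrgt (i x) z ⟨(z : U) * i x, hw2⟩ rfl, ← Submodule.Quotient.mk_add]
    congr 1
    exact Subtype.ext heq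

end EL
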