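import Pool.Agent.Lib.MP_a5a771_al.Fin

/-!
# Derived length zero and one (classical)

With a common enveloping algebra `U` and augmentation `ε`: if `L = 0` then `U = F`, so `iH y` is a scalar in the kernel of `ε`; if `L' = 0` then the
commutator ideal of `U` is zero.
-/

set_option autoImplicit false

namespace EL

theorem low_zero {F L H : Type*} [Field F] [LieRing L] [LieAlgebra F L] [LieRing H] [LieAlgebra F H]
    (e : UniversalEnvelopingAlgebra F L ≃ₐ[F] UniversalEnvelopingAlgebra F H)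
    (hm : LieAlgebra.derivedSeries F L 0 = ⊥) : LieAlgebra.derivedSeries F H 0 = ⊥ := by
  obtain ⟨iL, iH, ε, hL, hH⟩ := exists_common e
  have h0 : ∀ x : L, x = 0 := by
    intro x
    have hx : x ∈ LieAlgebra.derivedSeries F L 0 := LieSubmodule.mem_top x
    rw [hm] at hx
    exact (LieSubmodule.mem_bot x).1 hx
  rw [eq_bot_iff]
  intro y _
  rw [LieSubmodule.mem_bot]
  apply env_inj hH
  rw [map_zero]
  have h1 : iH y ∈ Algebra.adjoin F (Set.range iL) := by
    rw [env_gen hL]
    exact Algebra.mem_top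
  have h2 : Algebra.adjoin F (Set.range iL) ≤ ⊥ := by
    rw [Algebra.adjoin_le_iff]
    rintro _ ⟨x, rfl⟩
    rw [h0 x, map_zero]
    exact Subalgebra.zero_mem _
  obtain ⟨c, hc⟩ := Algebra.mem_bot.1 (h2 h1)
  have h3 : ε (iH y) = 0 := hH.aug y
  rw [← hc, AlgHom.commutes] at h3
  have h4 : c = 0 := h3
  rw [← hc, h4, map_zero]

theorem low_one {F L H : Type*} [Field F] [LieRing L] [LieAlgebra F L] [LieRing H] [LieAlgebra F H]
    (e : UniversalEnvelopingAlgebra F L ≃ₐ[F] UniversalEnvelopingAlgebra F H)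
    (hm : LieAlgebra.derivedSeries F L 1 = ⊥) : LieAlgebra.derivedSeries F H 1 = ⊥ := by
  obtain ⟨iL, iH, ε, hL, hH⟩ := exists_common e
  have h1 : N1 iL = ⊥ := by
    have h2 : D1 F L = ⊥ := hm
    rw [N1, h2]
    exact Submodule.map_bot _
  have h3 : Com F (UniversalEnvelopingAlgebra F L) = ⊥ := by
    rw [com_eq hL, h1, Submodule.bot_mul]
  have h4 : ∀ y y' : H, ⁅y, y'⁆ = 0 := by
    intro y y'
    apply env_inj hH
    rw [map_zero, env_lie hH]
    have h5 : iH y * iH y' - iH y' * iH y ∈ Com F (UniversalEnvelopingAlgebra F L) :=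
      Submodule.subset_span ⟨1, iH y, iH y', 1, by rw [one_mul, mul_one]⟩
    rw [h3] at h5
    exact (Submodule.mem_bot F).1 h5
  rw [LieAlgebra.derivedSeries_def, LieAlgebra.derivedSeriesOfIdeal_succ, LieAlgebra.derivedSeriesOfIdeal_zero, LieSubmodule.lie_eq_bot_iff]
  intro x _ y _
  exact h4 x y

/-- one direction for all `k ≤ 2` -/
theorem low_dir {F L H : Type*} [Field F] (h2 : (2 : F) ≠ 0) [LieRing L] [LieAlgebra F L] [LieRing H] [LieAlgebra F H]
    (e : UniversalEnvelopingAlgebra F L ≃ₐ[F] UniversalEnvelopingAlgebra F H) (k : ℕ) (hk : k ≤ 2)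
    (hm : LieAlgebra.derivedSeries F L k = ⊥) : LieAlgebra.derivedSeries F H k = ⊥ := by
  interval_cases k
  · exact low_zero e hm
  · exact low_one e hm
  · exact metab h2 e hm

end EL
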