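import Pool.Agent.Lib.MP_a5a771_al.F4

/-!
# Multiplication on `M ⊗ V` and the flip

PROOFS. `r (P (v ⊗ w)) = class of i v₀ * i w₀` if `v, w` are the classes of `i v₀, i w₀` (`hj`, `hrep`, `hr`). `mult_flip`: `r (P (v ⊗ w) - P (w ⊗ v)) = class of
(i v₀ * i w₀ - i w₀ * i v₀) = class of i ⁅v₀, w₀⁆ = 0` since `⁅v₀, w₀⁆ ∈ D2 = ⊥`; the elements `P (v ⊗ w)` span `E`.
`ker_mult`: let `κ : D1 → Vq ε` be `v₀ ↦ class of i v₀` (linear, onto by `hrep`; it kills `D2`: `i ⁅x, y⁆ = i x * i y - i y * i x ∈ I * I ≤ I * Aug` for `x, y ∈ D1`, `com_le_aug`).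
`e = P (∑ κ v_k ⊗ κ w_k)` (every element of `V ⊗ V` is such a finite sum), `r e = class of ∑ i v_k * i w_k = 0`, so `f4` applies with
`T = (V ⊗ V) / range (id - comm)` and `β x y = class of κ x ⊗ κ y`: `∑ κ v_k ⊗ κ w_k = ξ - comm ξ` for some `ξ`; `e' = P ξ`.
-/

set_option autoImplicit false

namespace EL

open scoped TensorProduct

variable {F G U E : Type*} [Field F] [LieRing G] [LieAlgebra F G] [Ring U] [Algebra F U]
  [AddCommGroup E] [Module F E] {i : G →ₗ[F] U} {ε : U →ₐ[F] F}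

namespace MulAux

theorem d1_com (hE : Env i ε) (x : G) (hx : x ∈ D1 F G) : i x ∈ Com F U := by
  rw [com_eq hE]
  have h : i x = i x * 1 := (mul_one _).symm
  rw [h]
  exact Submodule.mul_mem_mul (Submodule.mem_map_of_mem hx) Submodule.mem_top

theorem d2_eq : D2 F G = ⁅D1 F G, D1 F G⁆ := LieAlgebra.derivedSeriesOfIdeal_succ F G ⊤ 1

theorem d2_mem (hE : Env i ε) (y : G) (hy : y ∈ D2 F G) : i y ∈ Com F U * Aug ε := by
  have h := LieSubmodule.lieIdeal_oper_eq_linear_span' (N := D1 F G) (I := D1 F G)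
  have h2 : y ∈ LieSubmodule.toSubmodule ⁅D1 F G, D1 F G⁆ := by
    rw [d2_eq] at hy
    exact hy
  rw [h] at h2
  have h3 : Submodule.span F {x | ∃ a ∈ D1 F G, ∃ c ∈ D1 F G, ⁅a, c⁆ = x} ≤ (Com F U * Aug ε).comap i := by
    rw [Submodule.span_le]
    rintro z ⟨a, ha, c, hc, rfl⟩
    show i ⁅a, c⁆ ∈ Com F U * Aug ε
    rw [env_lie hE]
    refine Submodule.sub_mem _ ?_ ?_
    · exact Submodule.mul_mem_mul (d1_com hE a ha) (com_le_aug ε (d1_com hE c hc))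
    · exact Submodule.mul_mem_mul (d1_com hE c hc) (com_le_aug ε (d1_com hE a ha))
  exact h3 h2

/-- `v₀ ↦ class of i v₀` -/
noncomputable def kap (hE : Env i ε) : ↥(D1 F G).toSubmodule →ₗ[F] Vq ε :=
  (Submodule.mkQ _).comp ((i.comp (D1 F G).toSubmodule.subtype).codRestrict (Com F U) fun x => d1_com hE x.1 x.2)

theorem kap_apply (hE : Env i ε) (x : ↥(D1 F G).toSubmodule) :
    kap hE x = Submodule.Quotient.mk ⟨i (x : G), d1_com hE x.1 x.2⟩ := rfl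

theorem kap_surj (hE : Env i ε)
    (hrep : ∀ v : Vq ε, ∃ (z : ↥(Com F U)) (v₀ : G), v₀ ∈ D1 F G ∧ (z : U) = i v₀ ∧ Submodule.Quotient.mk z = v) :
    Function.Surjective (kap hE) := by
  intro v
  obtain ⟨z, v₀, h1, h2, h3⟩ := hrep v
  refine ⟨⟨v₀, h1⟩, ?_⟩
  rw [kap_apply, ← h3]
  exact congrArg Submodule.Quotient.mk (Subtype.ext h2.symm)

theorem kap_zero (hE : Env i ε) (x : ↥(D1 F G).toSubmodule) (hx : (x : G) ∈ D2 F G) : kap hE x = 0 := by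
  rw [kap_apply]
  refine (Submodule.Quotient.mk_eq_zero _).2 ?_
  rw [Submodule.mem_comap]
  exact d2_mem hE _ hx

theorem fin_rep {D V : Type*} [AddCommGroup D] [Module F D] [AddCommGroup V] [Module F V] (κ : D →ₗ[F] V)
    (hκ : Function.Surjective κ) (ξ : V ⊗[F] V) :
    ∃ (n : ℕ) (v w : Fin n → D), ξ = ∑ k, κ (v k) ⊗ₜ[F] κ (w k) := by
  induction ξ using TensorProduct.induction_on with
  | zero => exact ⟨0, fun _ => 0, fun _ => 0, by rw [Finset.univ_eq_empty, Finset.sum_empty]⟩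
  | tmul x y =>
    obtain ⟨x', rfl⟩ := hκ x
    obtain ⟨y', rfl⟩ := hκ y
    exact ⟨1, fun _ => x', fun _ => y', by rw [Fin.sum_univ_one]⟩
  | add x y hx hy =>
    obtain ⟨n, v, w, rfl⟩ := hx
    obtain ⟨n', v', w', rfl⟩ := hy
    refine ⟨n + n', Fin.append v v', Fin.append w w', ?_⟩
    rw [Fin.sum_univ_add]
    simp only [Fin.append_left, Fin.append_right]

theorem r_pure (hE : Env i ε) (t : Mq F U →ₗ[F] Vq ε →ₗ[F] E) (r : E →ₗ[F] U ⧸ (Com F U * Com F U * Aug ε))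
    (hr : ∀ z w : ↥(Com F U), r (t (Submodule.Quotient.mk z) (Submodule.Quotient.mk w)) = Submodule.Quotient.mk ((z : U) * w))
    (j : Vq ε →ₗ[F] Mq F U)
    (hj : ∀ (z : ↥(Com F U)) (v : G), v ∈ D1 F G → (z : U) = i v → j (Submodule.Quotient.mk z) = Submodule.Quotient.mk z)
    (P : Vq ε ⊗[F] Vq ε ≃ₗ[F] E) (hP : ∀ v w, P (v ⊗ₜ w) = t (j v) w) (x y : ↥(D1 F G).toSubmodule) :
    r (P (kap hE x ⊗ₜ kap hE y)) = Submodule.Quotient.mk (i (x : G) * i (y : G)) := by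
  rw [hP, kap_apply, kap_apply, hj ⟨i (x : G), d1_com hE x.1 x.2⟩ x x.2 rfl, hr]

end MulAux

open MulAux

theorem mult_flip (hE : Env i ε) (t : Mq F U →ₗ[F] Vq ε →ₗ[F] E) (r : E →ₗ[F] U ⧸ (Com F U * Com F U * Aug ε))
    (hr : ∀ z w : ↥(Com F U), r (t (Submodule.Quotient.mk z) (Submodule.Quotient.mk w)) = Submodule.Quotient.mk ((z : U) * w))
    (j : Vq ε →ₗ[F] Mq F U)
    (hj : ∀ (z : ↥(Com F U)) (v : G), v ∈ D1 F G → (z : U) = i v → j (Submodule.Quotient.mk z) = Submodule.Quotient.mk z)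
    (hrep : ∀ v : Vq ε, ∃ (z : ↥(Com F U)) (v₀ : G), v₀ ∈ D1 F G ∧ (z : U) = i v₀ ∧ Submodule.Quotient.mk z = v)
    (P : Vq ε ⊗[F] Vq ε ≃ₗ[F] E) (hP : ∀ v w, P (v ⊗ₜ w) = t (j v) w) (hm : D2 F G = ⊥) (e : E) :
    r (e - tau P e) = 0 := by
  obtain ⟨ξ, rfl⟩ := P.surjective e
  have h1 : tau P (P ξ) = P (TensorProduct.comm F (Vq ε) (Vq ε) ξ) := by
    unfold tau
    simp only [LinearMap.comp_apply, LinearEquiv.coe_toLinearMap, LinearEquiv.symm_apply_apply]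
  rw [h1, map_sub, sub_eq_zero]
  clear h1
  induction ξ using TensorProduct.induction_on with
  | zero => simp only [map_zero]
  | tmul x y =>
    obtain ⟨x', rfl⟩ := kap_surj hE hrep x
    obtain ⟨y', rfl⟩ := kap_surj hE hrep y
    rw [TensorProduct.comm_tmul, r_pure hE t r hr j hj P hP, r_pure hE t r hr j hj P hP, ← sub_eq_zero,
      ← Submodule.Quotient.mk_sub, ← env_lie hE]
    have h2 : ⁅(x' : G), (y' : G)⁆ ∈ D2 F G := by
      rw [d2_eq]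
      exact LieSubmodule.lie_mem_lie x'.2 y'.2
    rw [hm] at h2
    have h3 : ⁅(x' : G), (y' : G)⁆ = 0 := (LieSubmodule.mem_bot _).1 h2
    rw [h3, map_zero, Submodule.Quotient.mk_zero]
  | add x y hx hy =>
    rw [map_add, map_add, map_add, map_add, map_add, hx, hy]

theorem ker_mult (hE : Env i ε) (t : Mq F U →ₗ[F] Vq ε →ₗ[F] E) (r : E →ₗ[F] U ⧸ (Com F U * Com F U * Aug ε))
    (hr : ∀ z w : ↥(Com F U), r (t (Submodule.Quotient.mk z) (Submodule.Quotient.mk w)) = Submodule.Quotient.mk ((z : U) * w))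
    (j : Vq ε →ₗ[F] Mq F U)
    (hj : ∀ (z : ↥(Com F U)) (v : G), v ∈ D1 F G → (z : U) = i v → j (Submodule.Quotient.mk z) = Submodule.Quotient.mk z)
    (hrep : ∀ v : Vq ε, ∃ (z : ↥(Com F U)) (v₀ : G), v₀ ∈ D1 F G ∧ (z : U) = i v₀ ∧ Submodule.Quotient.mk z = v)
    (P : Vq ε ⊗[F] Vq ε ≃ₗ[F] E) (hP : ∀ v w, P (v ⊗ₜ w) = t (j v) w) (e : E) (he : r e = 0) :
    ∃ e', e = e' - tau P e' := by
  obtain ⟨ξ, rfl⟩ := P.surjective e
  obtain ⟨n, v, w, rfl⟩ := fin_rep (kap hE) (kap_surj hE hrep) ξ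
  have h1 : r (P (∑ k, kap hE (v k) ⊗ₜ[F] kap hE (w k))) =
      Submodule.Quotient.mk (∑ k, i (v k : G) * i (w k : G)) := by
    rw [map_sum, map_sum]
    have h2 : ∀ z : Fin n → U, (Submodule.Quotient.mk (∑ k, z k) : U ⧸ (Com F U * Com F U * Aug ε)) =
        ∑ k, Submodule.Quotient.mk (z k) := by
      intro z
      have h3 := map_sum (Submodule.mkQ (Com F U * Com F U * Aug ε)) z Finset.univ
      exact h3
    rw [h2]
    exact Finset.sum_congr rfl fun k _ => r_pure hE t r hr j hj P hP (v k) (w k)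
  rw [he] at h1
  have h2 := (Submodule.Quotient.mk_eq_zero _).1 h1.symm
  let R : Submodule F (Vq ε ⊗[F] Vq ε) :=
    LinearMap.range (LinearMap.id - (TensorProduct.comm F (Vq ε) (Vq ε)).toLinearMap)
  let β : ↥(D1 F G).toSubmodule →ₗ[F] ↥(D1 F G).toSubmodule →ₗ[F] ((Vq ε ⊗[F] Vq ε) ⧸ R) :=
    ((TensorProduct.mk F (Vq ε) (Vq ε)).compl₁₂ (kap hE) (kap hE)).compr₂ R.mkQ
  have hβ : ∀ x y, β x y = Submodule.Quotient.mk (kap hE x ⊗ₜ[F] kap hE y) := fun x y => rfl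
  have hs : ∀ x y, β x y = β y x := by
    intro x y
    rw [hβ, hβ, Submodule.Quotient.eq]
    refine ⟨kap hE x ⊗ₜ[F] kap hE y, ?_⟩
    rw [LinearMap.sub_apply, LinearMap.id_apply, LinearEquiv.coe_toLinearMap, TensorProduct.comm_tmul]
  have h0 : ∀ x y : ↥(D1 F G).toSubmodule, (y : G) ∈ D2 F G → β x y = 0 := by
    intro x y hy
    rw [hβ, kap_zero hE y hy, TensorProduct.tmul_zero, Submodule.Quotient.mk_zero]
  have h3 := f4 hE β hs h0 n v w h2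
  have h4 : (Submodule.Quotient.mk (∑ k, kap hE (v k) ⊗ₜ[F] kap hE (w k)) : (Vq ε ⊗[F] Vq ε) ⧸ R) = 0 := by
    have h5 := map_sum R.mkQ (fun k => kap hE (v k) ⊗ₜ[F] kap hE (w k)) Finset.univ
    refine h5.trans ?_
    exact h3
  obtain ⟨η, hη⟩ := (Submodule.Quotient.mk_eq_zero _).1 h4
  refine ⟨P η, ?_⟩
  have h6 : tau P (P η) = P (TensorProduct.comm F (Vq ε) (Vq ε) η) := by
    unfold tau
    simp only [LinearMap.comp_apply, LinearEquiv.coe_toLinearMap, LinearEquiv.symm_apply_apply]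
  rw [h6, ← map_sub, ← hη]
  rfl

end EL
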