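import Pool.Agent.Lib.MP_a5a771_al.Defs

/-!
# The tensor product over `A`

PROOF. Give `M` the `A`-module structure `a • m = rgt a m` and `V` the structure `a • v = act a v` (`Module.compHom`, local instances) and take
`E = M ⊗[A] V` (`TensorProduct A M V`), `t m v = m ⊗ₜ v`; `lam a = (lft a) ⊗ id` (`lft a` is `A`-linear by `hc`), `mu a = ` multiplication by `a`.
Universal property: `TensorProduct.liftAddHom` or `TensorProduct.lift` for `A`-balanced maps (`s` is `F`-bilinear and balanced; use `liftAddHom`).
Last part: if `rj rgt j : A ⊗[F] V → M` is bijective it is an `A`-linear isomorphism, and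
`V ⊗[F] V ≃ (A ⊗[F] V) ⊗[A] V ≃ M ⊗[A] V` (`TensorProduct.AlgebraTensorModule.cancelBaseChange`), `v ⊗ w ↦ j v ⊗ w`; surjective directly: `rgt a (j v) ⊗ w = j v ⊗ act a w`.
-/

set_option autoImplicit false

namespace EL

open scoped TensorProduct

universe u₁ u₂ u₃ u₄ u₅

theorem exists_ten {F : Type u₁} {A : Type u₂} {M : Type u₃} {V : Type u₄} [Field F] [CommRing A] [Algebra F A]
    [AddCommGroup M] [Module F M] [AddCommGroup V] [Module F V] (rgt lft : A →ₐ[F] Module.End F M)
    (hc : ∀ a c, Commute (rgt a) (lft c)) (act : A →ₐ[F] Module.End F V) :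
    ∃ (E : Type (max u₃ u₄)) (_ : AddCommGroup E) (_ : Module F E) (t : M →ₗ[F] V →ₗ[F] E)
      (lam mu : A →ₐ[F] Module.End F E),
      (∀ a m v, t (rgt a m) v = t m (act a v)) ∧ (∀ a m v, lam a (t m v) = t (lft a m) v) ∧
      (∀ a m v, mu a (t m v) = t m (act a v)) ∧
      (∀ (T : Type u₅) [AddCommGroup T] [Module F T] (s : M →ₗ[F] V →ₗ[F] T),
        (∀ a m v, s (rgt a m) v = s m (act a v)) → ∃ r : E →ₗ[F] T, ∀ m v, r (t m v) = s m v) ∧
      (∀ j : V →ₗ[F] M, Function.Bijective (rj rgt j) → Function.Bijective (tj t j)) := by
  classical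
  let iM : Module A M := Module.compHom M rgt.toRingHom
  let iV : Module A V := Module.compHom V act.toRingHom
  have sM : ∀ (a : A) (m : M), a • m = rgt a m := fun _ _ => rfl
  have sV : ∀ (a : A) (v : V), a • v = act a v := fun _ _ => rfl
  have tM : IsScalarTower F A M := ⟨fun f a m => by
    rw [sM, sM, map_smul, LinearMap.smul_apply]⟩
  have tV : IsScalarTower F A V := ⟨fun f a v => by
    rw [sV, sV, map_smul, LinearMap.smul_apply]⟩
  have cM : SMulCommClass A F M := ⟨fun a f m => by rw [sM, sM, map_smul]⟩
  have cV : SMulCommClass A F V := ⟨fun a f v => by rw [sV, sV, map_smul]⟩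
  have cM' : SMulCommClass F A M := SMulCommClass.symm _ _ _
  have cV' : SMulCommClass F A V := SMulCommClass.symm _ _ _
  have hsm : ∀ (f : F) (m : M) (v : V), m ⊗ₜ[A] (f • v) = f • (m ⊗ₜ[A] v) := fun f m v => by
    rw [← algebraMap_smul A f v, ← TensorProduct.smul_tmul, algebraMap_smul,
      TensorProduct.smul_tmul']
  let t : M →ₗ[F] V →ₗ[F] (M ⊗[A] V) := LinearMap.mk₂ F (fun m v => m ⊗ₜ[A] v)
    (fun m m' v => TensorProduct.add_tmul m m' v) (fun f m v => (TensorProduct.smul_tmul' f m v).symm)
    (fun m v v' => TensorProduct.tmul_add m v v') (fun f m v => hsm f m v)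
  have ht : ∀ m v, t m v = m ⊗ₜ[A] v := fun _ _ => rfl
  let lA : A → (M →ₗ[A] M) := fun a =>
    { toFun := fun m => lft a m
      map_add' := fun m m' => map_add _ m m'
      map_smul' := fun c m => by
        simp only [RingHom.id_apply, sM]
        exact (LinearMap.congr_fun (hc c a).eq m).symm }
  have hlA : ∀ a m, lA a m = lft a m := fun _ _ => rfl
  let lamf : A → Module.End F (M ⊗[A] V) := fun a => ((lA a).rTensor V).restrictScalars F
  have hlam : ∀ a m v, lamf a (m ⊗ₜ[A] v) = (lft a m) ⊗ₜ[A] v := fun _ _ _ => rfl
  let lam : A →ₐ[F] Module.End F (M ⊗[A] V) :=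
    { toFun := lamf
      map_one' := by
        ext x
        induction x using TensorProduct.induction_on with
        | zero => simp
        | tmul m v => rw [hlam, map_one]; rfl
        | add x y hx hy => rw [map_add, map_add, hx, hy]
      map_mul' := fun a b => by
        ext x
        induction x using TensorProduct.induction_on with
        | zero => simp
        | tmul m v =>
          rw [Module.End.mul_apply, hlam, hlam, hlam, map_mul]; rfl
        | add x y hx hy => rw [map_add, map_add, hx, hy]
      map_zero' := by
        ext x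
        induction x using TensorProduct.induction_on with
        | zero => simp
        | tmul m v =>
          rw [hlam, map_zero, LinearMap.zero_apply, LinearMap.zero_apply, TensorProduct.zero_tmul]
        | add x y hx hy => rw [map_add, map_add, hx, hy]
      map_add' := fun a b => by
        ext x
        induction x using TensorProduct.induction_on with
        | zero => simp
        | tmul m v =>
          rw [LinearMap.add_apply, hlam, hlam, hlam, map_add, LinearMap.add_apply,
            TensorProduct.add_tmul]
        | add x y hx hy => rw [map_add, map_add, hx, hy]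
      commutes' := fun f => by
        ext x
        induction x using TensorProduct.induction_on with
        | zero => simp
        | tmul m v =>
          rw [hlam, AlgHom.commutes, Module.algebraMap_end_apply, Module.algebraMap_end_apply,
            TensorProduct.smul_tmul']
        | add x y hx hy => rw [map_add, map_add, hx, hy] }
  let mu : A →ₐ[F] Module.End F (M ⊗[A] V) := Algebra.lsmul F F (M ⊗[A] V)
  refine ⟨M ⊗[A] V, inferInstance, inferInstance, t, lam, mu, ?_, ?_, ?_, ?_, ?_⟩
  · intro a m v
    rw [ht, ht, ← sM, ← sV, TensorProduct.smul_tmul]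
  · intro a m v
    rw [ht, ht]
    exact hlam a m v
  · intro a m v
    rw [ht, ht, ← sV]
    change a • (m ⊗ₜ[A] v) = _
    rw [TensorProduct.tmul_smul]
  · intro T _ _ s hs
    let g : M →+ V →+ T :=
      { toFun := fun m => (s m).toAddMonoidHom
        map_zero' := by ext v; simp
        map_add' := fun m m' => by ext v; simp }
    let r0 : M ⊗[A] V →+ T := TensorProduct.liftAddHom g (fun a m v => hs a m v)
    have hr0 : ∀ m v, r0 (m ⊗ₜ[A] v) = s m v := fun _ _ => rfl
    refine ⟨{ toFun := r0, map_add' := map_add r0, map_smul' := fun f x => ?_ }, fun m v => hr0 m v⟩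
    rw [RingHom.id_apply]
    induction x using TensorProduct.induction_on with
    | zero => simp
    | tmul m v => rw [TensorProduct.smul_tmul', hr0, hr0, map_smul, LinearMap.smul_apply]
    | add x y hx hy => rw [smul_add, map_add, map_add, hx, hy, smul_add]
  · intro j hj
    have hrj : ∀ a v, rj rgt j (a ⊗ₜ[F] v) = rgt a (j v) := fun _ _ => rfl
    let e0 : A ⊗[F] V →ₗ[A] M :=
      { toFun := rj rgt j
        map_add' := map_add _
        map_smul' := fun a x => by
          rw [RingHom.id_apply]
          induction x using TensorProduct.induction_on with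
          | zero => simp
          | tmul b v =>
            rw [TensorProduct.smul_tmul', hrj, hrj, sM, smul_eq_mul, map_mul]; rfl
          | add x y hx hy => rw [smul_add, map_add, map_add, hx, hy, smul_add] }
    let e1 : A ⊗[F] V ≃ₗ[A] M := LinearEquiv.ofBijective e0 hj
    have he1 : ∀ a v, e1 (a ⊗ₜ[F] v) = rgt a (j v) := fun _ _ => rfl
    let c1 := (TensorProduct.comm F V V)
    let c2 := (TensorProduct.AlgebraTensorModule.cancelBaseChange F A A V V).symm
    let c3 := TensorProduct.congr (LinearEquiv.refl A V) e1
    let c4 := TensorProduct.comm A V M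
    have key : ∀ x, tj t j x = c4 (c3 (c2 (c1 x))) := by
      intro x
      induction x using TensorProduct.induction_on with
      | zero => simp
      | tmul v w =>
        have h1 : tj t j (v ⊗ₜ[F] w) = (j v) ⊗ₜ[A] w := rfl
        rw [h1]
        simp only [c1, c2, c3, c4, TensorProduct.comm_tmul,
          TensorProduct.AlgebraTensorModule.cancelBaseChange_symm_tmul, TensorProduct.congr_tmul,
          he1, map_one, LinearEquiv.refl_apply]
        rfl
      | add x y hx hy => rw [map_add, hx, hy, map_add, map_add, map_add, map_add]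
    have hfun : (tj t j : V ⊗[F] V → M ⊗[A] V) = c4 ∘ c3 ∘ c2 ∘ c1 := funext key
    rw [hfun]
    exact c4.bijective.comp (c3.bijective.comp (c2.bijective.comp c1.bijective))

end EL
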