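import Mathlib

/-!
# Operators: an element that is symmetric for `t₁` and antisymmetric for `t₂`

PROOF. Let `Bf` be the algebra generated by all `lam a`, `mu a` (commutative). `t₂` normalises it: `t₂ (mu y) t₂ = lam y - mu y` for `y ∈ W₂`, `t₂ (lam a) t₂ = lam a`, and
`W₂` generates `A`. For `x ∈ W₁` and `d = 2 mu x - lam x`: `mu x f - t₁ (mu x f) = mu x f - t₁ (mu x (t₁ f)) = d f`, so by `hcond` with `e = mu x f`:
`d f + t₂ (d f) = 0`, i.e. `t₂ d t₂ f = d f` (as `t₂ f = - f`). Let `C` be the set of the operators `c` in `Bf` with `t₂ c t₂ f = c f`; it is closed under sums and products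
(`t₂ c c' t₂ f = (t₂ c t₂) (t₂ c' t₂ f) = (t₂ c t₂) c' f = c' (t₂ c t₂ f) = c' c f`, all operators in question are in the commutative algebra `Bf`), it contains the `lam a`
and the `2 mu x - lam x`, hence the `mu x` (`x ∈ W₁`, division by `2`), hence all `mu a`. For `y ∈ W₂`: `(lam y - mu y) f = t₂ (mu y) t₂ f = mu y f`: second
statement. So `mu y f = lam (y / 2) f` for `y ∈ W₂`, and `mu a f ∈ lam(A) f` for all `a` (induction over `W₂`, `lam` and `mu` commute). `t₁` commutes with `lam`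
and fixes `f`, so it fixes `mu x f` for `x ∈ W₁`: `mu x f = t₁ (mu x f) = t₁ (mu x (t₁ f)) = lam x f - mu x f`: first statement. Third statement: shown on the way.
-/

set_option autoImplicit false

namespace EL

theorem ops {F A E : Type*} [Field F] (h2 : (2 : F) ≠ 0) [CommRing A] [Algebra F A] [AddCommGroup E] [Module F E]
    (lam mu : A →ₐ[F] Module.End F E) (hc : ∀ a c, Commute (lam a) (mu c)) (W₁ W₂ : Set A)
    (hW₁ : Algebra.adjoin F W₁ = ⊤) (hW₂ : Algebra.adjoin F W₂ = ⊤) (t₁ t₂ : E →ₗ[F] E)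
    (i₁ : ∀ e, t₁ (t₁ e) = e) (i₂ : ∀ e, t₂ (t₂ e) = e)
    (c₁ : ∀ a e, t₁ (lam a e) = lam a (t₁ e)) (c₂ : ∀ a e, t₂ (lam a e) = lam a (t₂ e))
    (s₁ : ∀ x ∈ W₁, ∀ e, t₁ (mu x (t₁ e)) = lam x e - mu x e) (s₂ : ∀ y ∈ W₂, ∀ e, t₂ (mu y (t₂ e)) = lam y e - mu y e)
    (hcond : ∀ e, (e - t₁ e) + t₂ (e - t₁ e) = 0) (f : E) (f₁ : t₁ f = f) (f₂ : t₂ f = -f) :
    (∀ x ∈ W₁, (2 : F) • mu x f = lam x f) ∧ (∀ y ∈ W₂, (2 : F) • mu y f = lam y f) ∧
      ∀ a, ∃ c, mu a f = lam c f := by
  have ml : ∀ a b e, mu (a * b) e = mu a (mu b e) := by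
    intro a b e
    rw [map_mul, Module.End.mul_apply]
  have ll : ∀ a b e, lam (a * b) e = lam a (lam b e) := by
    intro a b e
    rw [map_mul, Module.End.mul_apply]
  have mm : ∀ a b e, mu a (mu b e) = mu b (mu a e) := by
    intro a b e
    rw [← ml, ← ml, mul_comm]
  have lm : ∀ a b e, lam a (mu b e) = mu b (lam a e) := by
    intro a b e
    exact LinearMap.congr_fun (hc a b).eq e
  have ma : ∀ r e, mu (algebraMap F A r) e = r • e := by
    intro r e
    rw [AlgHom.commutes, Module.algebraMap_end_apply]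
  have la : ∀ r e, lam (algebraMap F A r) e = r • e := by
    intro r e
    rw [AlgHom.commutes, Module.algebraMap_end_apply]
  have hν : ∀ a b e, t₂ (mu a (t₂ (mu b e))) = mu b (t₂ (mu a (t₂ e))) := by
    intro a
    have ha : a ∈ Algebra.adjoin F W₂ := by
      rw [hW₂]
      exact Algebra.mem_top
    induction ha using Algebra.adjoin_induction with
    | mem y hy =>
      intro b e
      rw [s₂ y hy, s₂ y hy, map_sub, mm y b, lm y b]
    | algebraMap r =>
      intro b e
      rw [ma, ma, map_smul, map_smul, i₂, i₂, map_smul]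
    | add x y _ _ hx hy =>
      intro b e
      simp only [map_add, LinearMap.add_apply]
      rw [hx, hy]
    | mul x y _ _ hx hy =>
      intro b e
      rw [ml, ml]
      have e2 : mu y (t₂ (mu b e)) = t₂ (mu b (t₂ (mu y (t₂ e)))) := by
        rw [← hy b e, i₂]
      rw [e2, hx, i₂]
  have hS : ∀ a, t₂ (mu a (t₂ f)) = mu a f := by
    intro a
    have ha : a ∈ Algebra.adjoin F W₁ := by
      rw [hW₁]
      exact Algebra.mem_top
    induction ha using Algebra.adjoin_induction with
    | mem x hx =>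
      have h1 : t₁ (mu x f) = lam x f - mu x f := by
        have := s₁ x hx f
        rwa [f₁] at this
      have h3 := hcond (mu x f)
      rw [h1] at h3
      have h4 : t₂ (lam x f) = -lam x f := by
        rw [c₂, f₂, map_neg]
      have h5 : t₂ (mu x f) = -t₂ (mu x (t₂ f)) := by
        rw [f₂, map_neg, map_neg, neg_neg]
      rw [map_sub, map_sub, h4, h5] at h3
      have h6 : (2 : F) • (mu x f - t₂ (mu x (t₂ f))) = 0 := by
        rw [← h3, two_smul]
        abel
      rcases smul_eq_zero.1 h6 with h7 | h7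
      · exact absurd h7 h2
      · exact (sub_eq_zero.1 h7).symm
    | algebraMap r =>
      rw [ma, ma, map_smul, i₂]
    | add x y _ _ hx hy =>
      simp only [map_add, LinearMap.add_apply]
      rw [hx, hy]
    | mul x y _ _ hx hy =>
      rw [ml, ml]
      have e2 : mu y (t₂ f) = t₂ (mu y f) := by
        rw [← hy, i₂]
      rw [e2, hν, hx, mm]
  have h2y : ∀ y ∈ W₂, (2 : F) • mu y f = lam y f := by
    intro y hy
    have h3 := hS y
    rw [s₂ y hy, sub_eq_iff_eq_add] at h3
    rw [h3, two_smul]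
  have h3 : ∀ a, ∃ c, mu a f = lam c f := by
    intro a
    have ha : a ∈ Algebra.adjoin F W₂ := by
      rw [hW₂]
      exact Algebra.mem_top
    induction ha using Algebra.adjoin_induction with
    | mem y hy =>
      refine ⟨(2⁻¹ : F) • y, ?_⟩
      rw [map_smul, LinearMap.smul_apply, ← h2y y hy, smul_smul, inv_mul_cancel₀ h2, one_smul]
    | algebraMap r => exact ⟨algebraMap F A r, by rw [ma, la]⟩
    | add x y _ _ hx hy =>
      obtain ⟨c, hx⟩ := hx
      obtain ⟨c', hy⟩ := hy
      exact ⟨c + c', by simp only [map_add, LinearMap.add_apply]; rw [hx, hy]⟩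
    | mul x y _ _ hx hy =>
      obtain ⟨c, hx⟩ := hx
      obtain ⟨c', hy⟩ := hy
      exact ⟨c' * c, by rw [ml, hy, ← lm, hx, ll]⟩
  refine ⟨fun x hx => ?_, h2y, h3⟩
  obtain ⟨c, hc'⟩ := h3 x
  have h4 : t₁ (mu x f) = mu x f := by
    rw [hc', c₁, f₁]
  have h5 := s₁ x hx f
  rw [f₁, h4] at h5
  rw [two_smul]
  nth_rewrite 1 [h5]
  abel

end EL
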