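import Pool.Agent.Lib.MP_a5a771_al.EnvB

/-!
# The Poincaré-Birkhoff-Witt theorem: sorted monomials are linearly independent

PROOF. `PBW.lean` (helper33: `pbw_li`) transported by the algebra isomorphism `e` of `Env`.
-/

set_option autoImplicit false

namespace EL

theorem pbw_li {F G U ι : Type*} [Field F] [LieRing G] [LieAlgebra F G] [Ring U] [Algebra F U] [LinearOrder ι]
    {i : G →ₗ[F] U} {ε : U →ₐ[F] F} (hE : Env i ε) (b : Module.Basis ι F G) :
    LinearIndependent F (fun s : {l : List ι // l.Pairwise (· ≤ ·)} => mon i b s.1) := by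
  obtain ⟨e, he⟩ := hE.ex
  have h1 := (Pool.Agent.Lib.MP_a5a771_al.pbw_li b).map' e.toLinearMap
    (LinearMap.ker_eq_bot.2 e.injective)
  have h2 : (fun s : {l : List ι // l.Pairwise (· ≤ ·)} => mon i b s.1) =
      e.toLinearMap ∘ fun s : {l : List ι // l.Pairwise (· ≤ ·)} =>
        Pool.Agent.Lib.MP_a5a771_al.word b s.1 := by
    funext s
    exact EnvB_mon e he b s.1
  rw [h2]
  exact h1

end EL
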